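import Mathlib
import Pool.Agent.H393R2.Heights

set_option autoImplicit false

open Finset

namespace Pool.Agent.H547R3.Sub

/-- admissible exponents: `L`, `K` are `O(N)`, and the pairs `(α i, β i)` are separated from each
other and from the bounds `L`, `K` -/
def Adm (s : ℕ) (δ : ℝ) (N L K : ℕ) (α β : Fin s → ℕ) : Prop :=
  δ * L ≤ N ∧ δ * K ≤ N ∧ (∀ i, (α i : ℝ) + δ * N ≤ L) ∧ (∀ i, (β i : ℝ) + δ * N ≤ K) ∧
    ∀ i j, i ≠ j → δ * N ≤ |(α i : ℝ) - α j| ∨ δ * N ≤ |(β i : ℝ) - β j|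

lemma Adm.mono {s : ℕ} {δ δ' : ℝ} {N L K : ℕ} {α β : Fin s → ℕ} (h : Adm s δ N L K α β)
    (hd : δ' ≤ δ) : Adm s δ' N L K α β := by
  have hN : δ' * N ≤ δ * N := mul_le_mul_of_nonneg_right hd (Nat.cast_nonneg _)
  refine ⟨(mul_le_mul_of_nonneg_right hd (Nat.cast_nonneg _)).trans h.1,
    (mul_le_mul_of_nonneg_right hd (Nat.cast_nonneg _)).trans h.2.1, fun i => ?_, fun i => ?_,
    fun i j hij => ?_⟩
  · linarith [h.2.2.1 i]
  · linarith [h.2.2.2.1 i]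
  · rcases h.2.2.2.2 i j hij with h1 | h1
    · left; linarith
    · right; linarith

lemma Adm.comp {s s' : ℕ} {δ : ℝ} {N L K : ℕ} {α β : Fin s → ℕ} (h : Adm s δ N L K α β)
    (f : Fin s' → Fin s) (hf : Function.Injective f) :
    Adm s' δ N L K (fun i => α (f i)) (fun i => β (f i)) :=
  ⟨h.1, h.2.1, fun i => h.2.2.1 _, fun i => h.2.2.2.1 _,
    fun i j hij => h.2.2.2.2 _ _ (fun hh => hij (hf hh))⟩

/-- bad data -/
def Bad (p q : ℕ) (s : ℕ) (δ : ℝ) : Prop :=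
  ∀ ε : ℝ, 0 < ε → ∀ N0 : ℕ, ∃ N : ℕ, N0 ≤ N ∧ ∃ (L K : ℕ) (α β : Fin s → ℕ), Adm s δ N L K α β ∧
    ∃ lam : Fin s → ℤ, lam ≠ 0 ∧ (∀ j, |(lam j : ℝ)| ≤ Real.exp (ε * N)) ∧
      ∃ x : ℤ, (p : ℤ) ^ L ∣ x ∧ (q : ℤ) ^ K ∣ x + ∑ j, lam j * ((p : ℤ) ^ α j * (q : ℤ) ^ β j) ∧
        |(x : ℝ)| ≤ (p : ℝ) ^ L * (q : ℝ) ^ K * Real.exp (-(δ * N))

lemma not_bad_iff {p q : ℕ} {s : ℕ} {δ : ℝ} (h : ¬ Bad p q s δ) :
    ∃ ε : ℝ, 0 < ε ∧ ∃ N0 : ℕ, ∀ N : ℕ, N0 ≤ N → ∀ (L K : ℕ) (α β : Fin s → ℕ),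
      Adm s δ N L K α β → ∀ lam : Fin s → ℤ, lam ≠ 0 →
      (∀ j, |(lam j : ℝ)| ≤ Real.exp (ε * N)) → ∀ x : ℤ, (p : ℤ) ^ L ∣ x →
      (q : ℤ) ^ K ∣ x + ∑ j, lam j * ((p : ℤ) ^ α j * (q : ℤ) ^ β j) →
      (p : ℝ) ^ L * (q : ℝ) ^ K * Real.exp (-(δ * N)) < |(x : ℝ)| := by
  unfold Bad at h
  push Not at h
  exact h

lemma two_le_exp' {a : ℝ} (h : 1 ≤ a) : 2 ≤ Real.exp a := by
  have := Real.add_one_le_exp a
  linarith

theorem gap {p q : ℕ} [Fact p.Prime] [Fact q.Prime] (hpq : p ≠ q) {s : ℕ} (δ δ1 : ℝ) (hδ : 0 < δ)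
    (hδ1 : 0 < δ1)
    (h : ∀ δ' : ℝ, 0 < δ' → ¬ Bad p q s δ') :
    ∃ ε : ℝ, 0 < ε ∧ ∃ N0 : ℕ, ∀ N : ℕ, N0 ≤ N → ∀ (L K : ℕ) (α β : Fin (s + 1) → ℕ),
      Adm (s + 1) δ N L K α β →
      ∀ (lam lam' : Fin (s + 1) → ℤ) (x x' : ℤ), lam ≠ 0 →
      (∀ i, |(lam i : ℝ)| ≤ Real.exp (ε * N)) →
      (∀ i, |(lam' i : ℝ)| ≤ Real.exp (ε * N)) →
      (p : ℤ) ^ L ∣ x → (q : ℤ) ^ K ∣ x + ∑ j, lam j * ((p : ℤ) ^ α j * (q : ℤ) ^ β j) →
      (p : ℤ) ^ L ∣ x' → (q : ℤ) ^ K ∣ x' + ∑ j, lam' j * ((p : ℤ) ^ α j * (q : ℤ) ^ β j) →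
      |(x : ℝ)| ≤ (p : ℝ) ^ L * (q : ℝ) ^ K * Real.exp (-(δ1 * N)) →
      |(x' : ℝ)| ≤ (p : ℝ) ^ L * (q : ℝ) ^ K * Real.exp (-(δ1 * N)) →
      (∀ u v : ℤ, (∀ i, u * lam i - v * lam' i = 0) → u * x - v * x' = 0 → v = 0) → False := by
  have hp : p.Prime := Fact.out
  have hq : q.Prime := Fact.out
  have hcop : p.Coprime q := (Nat.coprime_primes hp hq).2 hpq
  set δ' : ℝ := min δ (δ1 / 4) with hδ'
  have hδ'0 : 0 < δ' := by rw [hδ']; apply lt_min hδ; positivity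
  obtain ⟨ε', hε', L1, hL1⟩ := not_bad_iff (h δ' hδ'0)
  set ε : ℝ := min (ε' / 4) (δ1 / 4) with hεdef
  have hε : 0 < ε := by rw [hεdef]; apply lt_min <;> positivity
  refine ⟨ε, hε, max L1 (max ⌈2 / ε'⌉₊ ⌈4 / δ1⌉₊), ?_⟩
  intro N hN L K α β hadm lam lam' x x' hlam hle hle' hxp hxq hxp' hxq' hf hf' hind
  have hL1' : L1 ≤ N := le_trans (le_max_left _ _) hN
  have hL2 : 2 / ε' ≤ N := by
    refine le_trans (Nat.le_ceil _) ?_
    exact_mod_cast le_trans (le_trans (le_max_left _ _) (le_max_right _ _)) hN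
  have hL3 : 4 / δ1 ≤ N := by
    refine le_trans (Nat.le_ceil _) ?_
    exact_mod_cast le_trans (le_trans (le_max_right _ _) (le_max_right _ _)) hN
  have hN0 : (0 : ℝ) ≤ N := Nat.cast_nonneg _
  have he1 : 2 ≤ Real.exp (ε' / 2 * N) := by
    apply two_le_exp'
    rw [div_le_iff₀ hε'] at hL2
    linarith
  have he2 : 2 ≤ Real.exp (δ1 / 4 * N) := by
    apply two_le_exp'
    rw [div_le_iff₀ hδ1] at hL3
    linarith
  set D : ℝ := (p : ℝ) ^ L * (q : ℝ) ^ K with hD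
  have hD0 : 0 < D := by
    have h1 : (0 : ℝ) < p := by exact_mod_cast hp.pos
    have h2 : (0 : ℝ) < q := by exact_mod_cast hq.pos
    positivity
  obtain ⟨j, hj⟩ : ∃ j, lam j ≠ 0 := by
    by_contra hcon
    push Not at hcon
    exact hlam (funext hcon)
  set y : Fin (s + 1) → ℤ := fun i => lam' j * lam i - lam j * lam' i with hy
  set xy : ℤ := lam' j * x - lam j * x' with hxy
  have hyj : y j = 0 := by rw [hy]; ring
  have hxyle : |(xy : ℝ)| ≤ 2 * (D * Real.exp (ε * N - δ1 * N)) := by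
    rw [hxy]
    push_cast
    refine le_trans (abs_sub _ _) ?_
    rw [abs_mul, abs_mul]
    have h1 : |(lam' j : ℝ)| * |(x : ℝ)| ≤
        Real.exp (ε * N) * (D * Real.exp (-(δ1 * N))) :=
      mul_le_mul (hle' j) hf (abs_nonneg _) (Real.exp_pos _).le
    have h2 : |(lam j : ℝ)| * |(x' : ℝ)| ≤
        Real.exp (ε * N) * (D * Real.exp (-(δ1 * N))) :=
      mul_le_mul (hle j) hf' (abs_nonneg _) (Real.exp_pos _).le
    have h3 : Real.exp (ε * N) * (D * Real.exp (-(δ1 * N))) = D * Real.exp (ε * N - δ1 * N) := by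
      rw [sub_eq_add_neg, Real.exp_add]; ring
    rw [h3] at h1 h2
    linarith
  have hyle : ∀ i, |(y i : ℝ)| ≤ 2 * Real.exp (2 * ε * N) := by
    intro i
    rw [hy]
    push_cast
    refine le_trans (abs_sub _ _) ?_
    rw [abs_mul, abs_mul]
    have h1 : |(lam' j : ℝ)| * |(lam i : ℝ)| ≤ Real.exp (ε * N) * Real.exp (ε * N) :=
      mul_le_mul (hle' j) (hle i) (abs_nonneg _) (Real.exp_pos _).le
    have h2 : |(lam j : ℝ)| * |(lam' i : ℝ)| ≤ Real.exp (ε * N) * Real.exp (ε * N) :=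
      mul_le_mul (hle j) (hle' i) (abs_nonneg _) (Real.exp_pos _).le
    rw [← Real.exp_add] at h1 h2
    have h3 : ε * N + ε * N = 2 * ε * N := by ring
    rw [h3] at h1 h2
    linarith
  have hεδ : ε ≤ δ1 / 4 := min_le_right _ _
  have hεε : ε ≤ ε' / 4 := min_le_left _ _
  have hδ'δ1 : δ' ≤ δ1 / 4 := min_le_right _ _
  have hsmall : 2 * (D * Real.exp (ε * N - δ1 * N)) ≤ D * Real.exp (-(δ' * N)) := by
    have h1 : 2 * Real.exp (ε * N - δ1 * N) ≤ Real.exp (-(δ' * N)) := by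
      calc 2 * Real.exp (ε * N - δ1 * N) ≤ Real.exp (δ1 / 4 * N) * Real.exp (ε * N - δ1 * N) :=
            mul_le_mul_of_nonneg_right he2 (Real.exp_pos _).le
        _ = Real.exp (δ1 / 4 * N + (ε * N - δ1 * N)) := by rw [Real.exp_add]
        _ ≤ Real.exp (-(δ' * N)) := by
            apply Real.exp_le_exp.mpr
            nlinarith
    nlinarith
  have hxyp : (p : ℤ) ^ L ∣ xy := (hxp.mul_left _).sub (hxp'.mul_left _)
  have hsumy : ∑ i, y i * ((p : ℤ) ^ α i * (q : ℤ) ^ β i) =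
      lam' j * ∑ i, lam i * ((p : ℤ) ^ α i * (q : ℤ) ^ β i) -
      lam j * ∑ i, lam' i * ((p : ℤ) ^ α i * (q : ℤ) ^ β i) := by
    rw [Finset.mul_sum, Finset.mul_sum, ← Finset.sum_sub_distrib]
    apply Finset.sum_congr rfl
    intro i _
    simp only [hy]; ring
  have hxyq : (q : ℤ) ^ K ∣ xy + ∑ i, y i * ((p : ℤ) ^ α i * (q : ℤ) ^ β i) := by
    have h1 : xy + ∑ i, y i * ((p : ℤ) ^ α i * (q : ℤ) ^ β i) =
        lam' j * (x + ∑ i, lam i * ((p : ℤ) ^ α i * (q : ℤ) ^ β i)) -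
        lam j * (x' + ∑ i, lam' i * ((p : ℤ) ^ α i * (q : ℤ) ^ β i)) := by
      rw [hsumy, hxy]; ring
    rw [h1]
    exact (hxq.mul_left _).sub (hxq'.mul_left _)
  by_cases hy0 : (fun i => y (j.succAbove i)) = 0
  · have hyall : ∀ i, y i = 0 := by
      intro i
      rcases Fin.eq_self_or_eq_succAbove j i with h1 | ⟨k, h1⟩
      · rw [h1]; exact hyj
      · rw [h1]; exact congrFun hy0 k
    have hxy0 : xy = 0 := by
      by_contra hne
      have h0 : ∑ i, y i * ((p : ℤ) ^ α i * (q : ℤ) ^ β i) = 0 := by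
        apply Finset.sum_eq_zero
        intro i _
        rw [hyall i, zero_mul]
      rw [h0, add_zero] at hxyq
      have h1 : (p : ℤ) ^ L * (q : ℤ) ^ K ∣ xy := by
        apply IsCoprime.mul_dvd _ hxyp hxyq
        apply IsCoprime.pow
        exact Nat.isCoprime_iff_coprime.2 hcop
      have h2 := Int.le_of_dvd (abs_pos.2 hne) ((dvd_abs _ _).2 h1)
      have h2' : D ≤ |(xy : ℝ)| := by
        rw [hD]
        exact_mod_cast h2
      have h4 : 2 * (D * Real.exp (ε * N - δ1 * N)) < D := by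
        have h5 : Real.exp (ε * N - δ1 * N) * (Real.exp (δ1 / 4 * N) * Real.exp (δ1 / 4 * N)) ≤ 1 := by
          rw [← Real.exp_add, ← Real.exp_add]
          rw [Real.exp_le_one_iff]
          nlinarith
        have h6 := Real.exp_pos (ε * N - δ1 * N)
        have h7 : 2 * Real.exp (ε * N - δ1 * N) < 1 := by nlinarith
        nlinarith
      linarith
    have := hind (lam' j) (lam j) hyall hxy0
    exact hj this
  · have h2 : ∑ i, y i * ((p : ℤ) ^ α i * (q : ℤ) ^ β i) =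
        ∑ i, y (j.succAbove i) * ((p : ℤ) ^ α (j.succAbove i) * (q : ℤ) ^ β (j.succAbove i)) := by
      rw [Fin.sum_univ_succAbove _ j, hyj, zero_mul, zero_add]
    have h1 := hL1 N hL1' L K (fun i => α (j.succAbove i)) (fun i => β (j.succAbove i))
      ((hadm.mono (min_le_left _ _)).comp _ Fin.succAbove_right_injective)
      (fun i => y (j.succAbove i)) hy0
      (by
        intro i
        refine le_trans (hyle _) ?_
        calc 2 * Real.exp (2 * ε * N) ≤ Real.exp (ε' / 2 * N) * Real.exp (2 * ε * N) :=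
              mul_le_mul_of_nonneg_right he1 (Real.exp_pos _).le
          _ = Real.exp (ε' / 2 * N + 2 * ε * N) := by rw [Real.exp_add]
          _ ≤ Real.exp (ε' * N) := by
              apply Real.exp_le_exp.mpr
              nlinarith)
      xy hxyp (by rw [← h2]; exact hxyq)
    exact absurd (le_trans hxyle hsmall) (not_le.mpr h1)

/-- divisibility forces a large factor -/
lemma dvd_big {p q : ℕ} [Fact p.Prime] [Fact q.Prime] (hpq : p ≠ q) {δ : ℝ} (hδ : 0 < δ) {N : ℕ}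
    {a b c : ℕ}
    {lam P : ℤ} (hlam : lam ≠ 0) (hP : P ≠ 0) (h : (p : ℤ) ^ b ∣ lam * ((p : ℤ) ^ a * (q : ℤ) ^ c) * P)
    (hab : (a : ℝ) + δ * N ≤ b) (hle : |(lam : ℝ)| ≤ Real.exp (δ / 4 * N)) :
    Real.exp (δ / 4 * N) ≤ |(P : ℝ)| := by
  have hp : p.Prime := Fact.out
  have hq : q.Prime := Fact.out
  have hcop : p.Coprime q := (Nat.coprime_primes hp hq).2 hpq
  have hN0 : (0 : ℝ) ≤ N := Nat.cast_nonneg _
  have hab' : a ≤ b := by
    have : (a : ℝ) ≤ b := by nlinarith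
    exact_mod_cast this
  have hp0 : (0 : ℝ) < p := by exact_mod_cast hp.pos
  have h1 : (p : ℤ) ^ (b - a) ∣ lam * P := by
    have e1 : (p : ℤ) ^ b = (p : ℤ) ^ a * (p : ℤ) ^ (b - a) := by
      rw [← pow_add]; congr 1; omega
    have e2 : lam * ((p : ℤ) ^ a * (q : ℤ) ^ c) * P = (p : ℤ) ^ a * ((q : ℤ) ^ c * (lam * P)) := by
      ring
    rw [e1, e2] at h
    have h2 := Int.dvd_of_mul_dvd_mul_left (pow_ne_zero a (by exact_mod_cast hp.ne_zero)) h
    apply IsCoprime.dvd_of_dvd_mul_left _ h2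
    apply IsCoprime.pow
    exact Nat.isCoprime_iff_coprime.2 hcop
  have h3 := Int.le_of_dvd (abs_pos.2 (mul_ne_zero hlam hP)) ((dvd_abs _ _).2 h1)
  have h4 : (p : ℝ) ^ (b - a) ≤ |(lam : ℝ)| * |(P : ℝ)| := by
    rw [← abs_mul]
    exact_mod_cast h3
  have h5 : Real.exp (δ / 2 * N) ≤ (p : ℝ) ^ (b - a) := by
    have h6 : (p : ℝ) ^ (b - a) = Real.exp ((b - a : ℕ) * Real.log p) := by
      rw [Real.exp_nat_mul, Real.exp_log hp0]
    rw [h6]
    apply Real.exp_le_exp.2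
    have h7 : (1 / 2 : ℝ) ≤ Real.log p := by
      have h8 : Real.log 2 ≤ Real.log p := Real.log_le_log (by norm_num) (by exact_mod_cast hp.two_le)
      have := Real.log_two_gt_d9
      linarith
    have h9 : δ * N ≤ ((b - a : ℕ) : ℝ) := by
      rw [Nat.cast_sub hab']; linarith
    have h10 : 0 ≤ δ * N := by positivity
    nlinarith
  have h6 : Real.exp (δ / 2 * N) = Real.exp (δ / 4 * N) * Real.exp (δ / 4 * N) := by
    rw [← Real.exp_add]; congr 1; ring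
  have h7 : Real.exp (δ / 4 * N) * Real.exp (δ / 4 * N) ≤ Real.exp (δ / 4 * N) * |(P : ℝ)| := by
    rw [← h6]
    refine h5.trans (h4.trans ?_)
    exact mul_le_mul_of_nonneg_right hle (abs_nonneg _)
  exact le_of_mul_le_mul_left h7 (Real.exp_pos _)

/-- the height lemma -/
theorem heights {p q : ℕ} [Fact p.Prime] [Fact q.Prime] (hpq : p ≠ q)
    (s : ℕ) (δ : ℝ) (hδ : 0 < δ) :
    ∃ (j1 j2 : Fin (s + 2)), j1 ≠ 0 ∧ j1 ≠ j2 ∧ ∀ N : ℕ, 1 ≤ N →
      ∀ (L K : ℕ) (α β : Fin (s + 1) → ℕ), Adm (s + 1) δ N L K α β →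
      ∀ (lam : Fin (s + 1) → ℤ) (x : ℤ), (∀ i, lam i ≠ 0) →
      (∀ i, |(lam i : ℝ)| ≤ Real.exp (δ / 8 * N)) →
      (p : ℤ) ^ L ∣ x → (q : ℤ) ^ K ∣ x + ∑ j, lam j * ((p : ℤ) ^ α j * (q : ℤ) ^ β j) →
      ∀ P Q : ℤ, Q ≠ 0 →
        (Fin.cons x lam : Fin (s + 2) → ℤ) j1 * ((p : ℤ) ^
            ((Fin.cons 0 α : Fin (s + 2) → ℕ) j1) * (q : ℤ) ^
            ((Fin.cons 0 β : Fin (s + 2) → ℕ) j1)) * P =
          -((Fin.cons x lam : Fin (s + 2) → ℤ) j2 * ((p : ℤ) ^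
            ((Fin.cons 0 α : Fin (s + 2) → ℕ) j2) * (q : ℤ) ^
            ((Fin.cons 0 β : Fin (s + 2) → ℕ) j2)) * Q) →
        N / (max 1 (4 / δ)) ≤ Real.log (max |(P : ℝ)| |(Q : ℝ)|) := by
  have hp : p.Prime := Fact.out
  have hq : q.Prime := Fact.out
  have hpZ : (p : ℤ) ≠ 0 := by exact_mod_cast hp.ne_zero
  have hqZ : (q : ℤ) ≠ 0 := by exact_mod_cast hq.ne_zero
  have hfin : ∀ (N : ℕ) (P Q : ℤ), Real.exp (δ / 4 * N) ≤ max |(P : ℝ)| |(Q : ℝ)| →
      N / (max 1 (4 / δ)) ≤ Real.log (max |(P : ℝ)| |(Q : ℝ)|) := by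
    intro N P Q hmax
    have hN0 : (0 : ℝ) ≤ N := Nat.cast_nonneg _
    have h7 : (N : ℝ) / max 1 (4 / δ) ≤ δ / 4 * N := by
      rw [div_le_iff₀ (by positivity)]
      have h8 : 4 / δ ≤ max 1 (4 / δ) := le_max_right _ _
      have h9 : δ / 4 * (4 / δ) = 1 := by field_simp
      calc (N : ℝ) = δ / 4 * N * (4 / δ) := by linear_combination (-(N : ℝ)) * h9
        _ ≤ δ / 4 * N * max 1 (4 / δ) := mul_le_mul_of_nonneg_left h8 (by positivity)
    refine le_trans h7 ?_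
    rw [Real.le_log_iff_exp_le (lt_of_lt_of_le (Real.exp_pos _) hmax)]
    exact hmax
  have hle8 : ∀ N : ℕ, Real.exp (δ / 8 * N) ≤ Real.exp (δ / 4 * N) := by
    intro N
    apply Real.exp_le_exp.2
    have hN0 : (0 : ℝ) ≤ N := Nat.cast_nonneg _
    nlinarith
  rcases Nat.eq_zero_or_pos s with hs | hs
  · subst hs
    refine ⟨1, 0, by simp, by simp, ?_⟩
    intro N hN L K α β hadm lam x hlam hle hxp hxq P Q hQ hPQ
    apply hfin
    have e1 : (Fin.cons x lam : Fin 2 → ℤ) 1 = lam 0 := rfl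
    have e2 : (Fin.cons x lam : Fin 2 → ℤ) 0 = x := rfl
    have e3 : (Fin.cons 0 α : Fin 2 → ℕ) 1 = α 0 := rfl
    have e4 : (Fin.cons 0 α : Fin 2 → ℕ) 0 = 0 := rfl
    have e5 : (Fin.cons 0 β : Fin 2 → ℕ) 1 = β 0 := rfl
    have e6 : (Fin.cons 0 β : Fin 2 → ℕ) 0 = 0 := rfl
    have hPQ' : lam 0 * ((p : ℤ) ^ α 0 * (q : ℤ) ^ β 0) * P = -(x * Q) := by
      have := hPQ
      rw [e1, e2, e3, e4, e5, e6] at this
      rw [this]; ring
    rw [Fin.sum_univ_one] at hxq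
    have hx0 : x ≠ 0 := by
      rintro rfl
      rw [zero_add] at hxq
      have h1 := dvd_big (p := q) (q := p) (Ne.symm hpq) hδ (N := N) (a := β 0) (b := K)
        (c := α 0) (hlam 0) (one_ne_zero) (by rw [mul_one, mul_comm ((q : ℤ) ^ β 0)]; exact hxq)
        (hadm.2.2.2.1 0) ((hle 0).trans (hle8 N))
      rw [Int.cast_one, abs_one] at h1
      have h2 : 0 < δ / 4 * N := by
        have : (1 : ℝ) ≤ N := by exact_mod_cast hN
        positivity
      have := Real.one_lt_exp_iff.2 h2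
      linarith
    have hP : P ≠ 0 := by
      rintro rfl
      rw [mul_zero] at hPQ'
      have : x * Q = 0 := by linarith
      exact mul_ne_zero hx0 hQ this
    have h1 := dvd_big hpq hδ (N := N) (a := α 0) (b := L)
        (c := β 0) (hlam 0) hP (by rw [hPQ']; exact (hxp.mul_right _).neg_right)
        (hadm.2.2.1 0) ((hle 0).trans (hle8 N))
    exact h1.trans (le_max_left _ _)
  · set i1 : Fin (s + 1) := 0 with hi1
    set i2 : Fin (s + 1) := ⟨1, by omega⟩ with hi2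
    have hne : i1 ≠ i2 := by
      intro h
      have := congrArg Fin.val h
      simp [hi1, hi2] at this
    refine ⟨i1.succ, i2.succ, Fin.succ_ne_zero _, ?_, ?_⟩
    · intro h
      exact hne (Fin.succ_injective _ h)
    · intro N hN L K α β hadm lam x hlam hle _ _ P Q hQ hPQ
      apply hfin
      simp only [Fin.cons_succ] at hPQ
      have hP : P ≠ 0 := by
        rintro rfl
        rw [mul_zero] at hPQ
        have h5 : lam i2 * ((p : ℤ) ^ α i2 * (q : ℤ) ^ β i2) * Q = 0 := by linarith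
        exact mul_ne_zero (mul_ne_zero (hlam i2) (mul_ne_zero (pow_ne_zero _ hpZ)
          (pow_ne_zero _ hqZ))) hQ h5
      have hPQ2 : lam i2 * ((p : ℤ) ^ α i2 * (q : ℤ) ^ β i2) * Q =
        -(lam i1 * ((p : ℤ) ^ α i1 * (q : ℤ) ^ β i1) * P) := by linarith
      rcases hadm.2.2.2.2 i1 i2 hne with h1 | h1
      · rcases le_total (α i1) (α i2) with h2 | h2
        · rw [abs_of_nonpos (by
            have : (α i1 : ℝ) ≤ α i2 := by exact_mod_cast h2
            linarith)] at h1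
          refine (dvd_big hpq hδ (N := N) (a := α i1) (b := α i2) (c := β i1) (hlam i1) hP ?_
            (by linarith) ((hle i1).trans (hle8 N))).trans (le_max_left _ _)
          rw [hPQ, dvd_neg]
          exact Dvd.intro _ (by ring : (p : ℤ) ^ α i2 * (lam i2 * (q : ℤ) ^ β i2 * Q) =
            lam i2 * ((p : ℤ) ^ α i2 * (q : ℤ) ^ β i2) * Q)
        · rw [abs_of_nonneg (by
            have : (α i2 : ℝ) ≤ α i1 := by exact_mod_cast h2
            linarith)] at h1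
          refine (dvd_big hpq hδ (N := N) (a := α i2) (b := α i1) (c := β i2) (hlam i2) hQ ?_
            (by linarith) ((hle i2).trans (hle8 N))).trans (le_max_right _ _)
          rw [hPQ2, dvd_neg]
          exact Dvd.intro _ (by ring : (p : ℤ) ^ α i1 * (lam i1 * (q : ℤ) ^ β i1 * P) =
            lam i1 * ((p : ℤ) ^ α i1 * (q : ℤ) ^ β i1) * P)
      · rcases le_total (β i1) (β i2) with h2 | h2
        · rw [abs_of_nonpos (by
            have : (β i1 : ℝ) ≤ β i2 := by exact_mod_cast h2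
            linarith)] at h1
          refine (dvd_big (p := q) (q := p) (Ne.symm hpq) hδ (N := N) (a := β i1) (b := β i2)
            (c := α i1) (hlam i1) hP ?_
            (by linarith) ((hle i1).trans (hle8 N))).trans (le_max_left _ _)
          rw [mul_comm ((q : ℤ) ^ β i1), hPQ, dvd_neg]
          exact Dvd.intro _ (by ring : (q : ℤ) ^ β i2 * (lam i2 * (p : ℤ) ^ α i2 * Q) =
            lam i2 * ((p : ℤ) ^ α i2 * (q : ℤ) ^ β i2) * Q)
        · rw [abs_of_nonneg (by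
            have : (β i2 : ℝ) ≤ β i1 := by exact_mod_cast h2
            linarith)] at h1
          refine (dvd_big (p := q) (q := p) (Ne.symm hpq) hδ (N := N) (a := β i2) (b := β i1)
            (c := α i2) (hlam i2) hQ ?_
            (by linarith) ((hle i2).trans (hle8 N))).trans (le_max_right _ _)
          rw [mul_comm ((q : ℤ) ^ β i2), hPQ2, dvd_neg]
          exact Dvd.intro _ (by ring : (q : ℤ) ^ β i1 * (lam i1 * (p : ℤ) ^ α i1 * P) =
            lam i1 * ((p : ℤ) ^ α i1 * (q : ℤ) ^ β i1) * P)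

end Pool.Agent.H547R3.Sub
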