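import Mathlib
import Pool.Agent.H393R2.Est

set_option autoImplicit false

open Finset

namespace Pool.Agent.H547R3.Sub

open Pool.Agent.H393R2 (dJ Dset mem_Dset card_Dset_le)

/-- weighted sums over balanced exponents -/
lemma bal_sum {m : ℕ} (N y : Fin m → ℝ) (r Z : Fin m → ℕ) (hr : ∀ h, 0 < r h)
    (hN : ∀ h, 0 < N h) (R0 τ t cc y0 v : ℝ) (hR0 : 0 < R0) (hτ0 : 0 ≤ τ)
    (hrN1 : ∀ h, (1 - τ) * R0 ≤ r h * N h) (hrN2 : ∀ h, r h * N h ≤ R0)
    (hZ : ∀ h, Z h ≤ r h) (hbal : |∑ h, (Z h : ℝ) / r h - v * m| ≤ t * m)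
    (hy : ∀ h, |y h - y0 * N h| ≤ τ * N h) (hy0 : |y0| ≤ cc) :
    |∑ h, (Z h : ℝ) * y h - R0 * (v * m) * y0| ≤ R0 * m * (τ * (1 + cc) + cc * t) := by
  have hcc : 0 ≤ cc := (abs_nonneg _).trans hy0
  have hrR : ∀ h, (0 : ℝ) < r h := fun h => by exact_mod_cast hr h
  have h1 : ∑ h, (Z h : ℝ) * y h - R0 * (v * m) * y0 =
      ∑ h, ((Z h : ℝ) * y h - R0 * ((Z h : ℝ) / r h) * y0) +
        R0 * y0 * (∑ h, (Z h : ℝ) / r h - v * m) := by
    rw [Finset.sum_sub_distrib]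
    have : ∑ h, R0 * ((Z h : ℝ) / r h) * y0 = R0 * y0 * ∑ h, (Z h : ℝ) / r h := by
      rw [Finset.mul_sum]
      apply Finset.sum_congr rfl
      intro h _; ring
    rw [this]; ring
  rw [h1]
  refine (abs_add_le _ _).trans ?_
  have h2 : |∑ h, ((Z h : ℝ) * y h - R0 * ((Z h : ℝ) / r h) * y0)| ≤
      R0 * m * (τ * (1 + cc)) := by
    refine (Finset.abs_sum_le_sum_abs _ _).trans ?_
    have h3 : ∀ h ∈ (Finset.univ : Finset (Fin m)),
        |(Z h : ℝ) * y h - R0 * ((Z h : ℝ) / r h) * y0| ≤ R0 * (τ * (1 + cc)) := by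
      intro h _
      have hz0 : (0 : ℝ) ≤ (Z h : ℝ) / r h := by have := hrR h; positivity
      have hz1 : (Z h : ℝ) / r h ≤ 1 := by
        rw [div_le_one (hrR h)]
        exact_mod_cast hZ h
      have h4 : (Z h : ℝ) * y h - R0 * ((Z h : ℝ) / r h) * y0 =
          ((Z h : ℝ) / r h) * ((r h * N h - R0) * y0 + r h * (y h - y0 * N h)) := by
        have := (hrR h).ne'
        field_simp
        ring
      rw [h4, abs_mul, abs_of_nonneg hz0]
      have h5 : |(r h * N h - R0) * y0 + r h * (y h - y0 * N h)| ≤ R0 * (τ * (1 + cc)) := by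
        refine (abs_add_le _ _).trans ?_
        rw [abs_mul, abs_mul, abs_of_pos (hrR h)]
        have h6 : |(r h : ℝ) * N h - R0| ≤ τ * R0 := by
          rw [abs_le]; constructor
          · have := hrN1 h; linarith
          · have := hrN2 h
            have : 0 ≤ τ * R0 := by positivity
            linarith
        have h7 : |(r h : ℝ) * N h - R0| * |y0| ≤ τ * R0 * cc :=
          mul_le_mul h6 hy0 (abs_nonneg _) (by positivity)
        have h8 : (r h : ℝ) * |y h - y0 * N h| ≤ τ * R0 := by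
          calc (r h : ℝ) * |y h - y0 * N h| ≤ r h * (τ * N h) :=
                mul_le_mul_of_nonneg_left (hy h) (hrR h).le
            _ = τ * (r h * N h) := by ring
            _ ≤ τ * R0 := mul_le_mul_of_nonneg_left (hrN2 h) hτ0
        nlinarith
      calc (Z h : ℝ) / r h * |(r h * N h - R0) * y0 + r h * (y h - y0 * N h)| ≤
            1 * |(r h * N h - R0) * y0 + r h * (y h - y0 * N h)| :=
            mul_le_mul_of_nonneg_right hz1 (abs_nonneg _)
        _ ≤ _ := by rw [one_mul]; exact h5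
    refine (Finset.sum_le_card_nsmul _ _ _ h3).trans ?_
    rw [Finset.card_univ, Fintype.card_fin, nsmul_eq_mul]
    apply le_of_eq; ring
  have h3 : |R0 * y0 * (∑ h, (Z h : ℝ) / r h - v * m)| ≤ R0 * m * (cc * t) := by
    rw [abs_mul, abs_mul, abs_of_pos hR0]
    calc R0 * |y0| * |∑ h, (Z h : ℝ) / r h - v * m| ≤ R0 * cc * (t * m) := by
          apply mul_le_mul _ hbal (abs_nonneg _) (by positivity)
          exact mul_le_mul_of_nonneg_left hy0 hR0.le
      _ = R0 * m * (cc * t) := by ring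
  calc _ ≤ R0 * m * (τ * (1 + cc)) + R0 * m * (cc * t) := add_le_add h2 h3
    _ = _ := by ring

lemma bal_tot {m n : ℕ} (r : Fin m → ℕ) (hr : ∀ h, 0 < r h) {a : Fin m → Fin n → ℕ}
    (ha : a ∈ Dset m n r) : ∑ l, ∑ h, (a h l : ℝ) / r h = m := by
  rw [Finset.sum_comm]
  have : ∀ h, ∑ l', (a h l' : ℝ) / r h = 1 := by
    intro h
    have hrR : (0 : ℝ) < r h := by exact_mod_cast hr h
    rw [← Finset.sum_div, div_eq_one_iff_eq hrR.ne']
    exact_mod_cast mem_Dset.1 ha h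
  simp [this]

lemma bal_upper {m n : ℕ} (hn : 1 ≤ n) (r : Fin m → ℕ) (hr : ∀ h, 0 < r h)
    {a : Fin m → Fin n → ℕ} (ha : a ∈ Dset m n r) (τ : ℝ) (hτ : 0 ≤ τ)
    (h : ∀ l : Fin n, ∑ h, (a h l : ℝ) / (r h : ℝ) ≤ (1 / (n : ℝ) + τ) * m) (l : Fin n) :
    |∑ h, (a h l : ℝ) / r h - 1 / (n : ℝ) * m| ≤ n * τ * m := by
  have hnR : (0 : ℝ) < n := by exact_mod_cast hn
  have hn1 : (1 : ℝ) ≤ n := by exact_mod_cast hn
  have hm0 : (0 : ℝ) ≤ m := Nat.cast_nonneg _
  have h3 := bal_tot r hr ha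
  rw [← Finset.add_sum_erase _ _ (Finset.mem_univ l)] at h3
  have h4 : ∑ l' ∈ (Finset.univ : Finset (Fin n)).erase l, ∑ h, (a h l' : ℝ) / r h ≤
      ∑ l' ∈ (Finset.univ : Finset (Fin n)).erase l, ((1 / (n : ℝ) + τ) * m) :=
    Finset.sum_le_sum (fun l' _ => h l')
  rw [Finset.sum_const, Finset.card_erase_of_mem (Finset.mem_univ l), Finset.card_univ,
    Fintype.card_fin, nsmul_eq_mul, Nat.cast_sub hn, Nat.cast_one] at h4
  have h5 : ((n : ℝ) - 1) * ((1 / n + τ) * m) = m - 1 / n * m + (n - 1) * τ * m := by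
    field_simp
  rw [h5] at h4
  have h6 : ((n : ℝ) - 1) * τ * m ≤ n * τ * m := by
    apply mul_le_mul_of_nonneg_right _ hm0
    apply mul_le_mul_of_nonneg_right _ hτ
    linarith
  have h7 := h l
  have h8 : τ * m ≤ n * τ * m := by
    apply mul_le_mul_of_nonneg_right _ hm0
    exact le_mul_of_one_le_left hτ hn1
  rw [abs_le]
  constructor
  · linarith
  · linarith

lemma bal_lower {m n : ℕ} (hn : 1 ≤ n) (r : Fin m → ℕ) (hr : ∀ h, 0 < r h)
    {a : Fin m → Fin n → ℕ} (ha : a ∈ Dset m n r) (τ : ℝ) (hτ : 0 ≤ τ)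
    (h : ∀ l : Fin n, (1 / (n : ℝ) - τ) * m ≤ ∑ h, (a h l : ℝ) / (r h : ℝ)) (l : Fin n) :
    |∑ h, (a h l : ℝ) / r h - 1 / (n : ℝ) * m| ≤ n * τ * m := by
  have hnR : (0 : ℝ) < n := by exact_mod_cast hn
  have hn1 : (1 : ℝ) ≤ n := by exact_mod_cast hn
  have hm0 : (0 : ℝ) ≤ m := Nat.cast_nonneg _
  have h3 := bal_tot r hr ha
  rw [← Finset.add_sum_erase _ _ (Finset.mem_univ l)] at h3
  have h4 : ∑ l' ∈ (Finset.univ : Finset (Fin n)).erase l, ((1 / (n : ℝ) - τ) * m) ≤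
      ∑ l' ∈ (Finset.univ : Finset (Fin n)).erase l, ∑ h, (a h l' : ℝ) / r h :=
    Finset.sum_le_sum (fun l' _ => h l')
  rw [Finset.sum_const, Finset.card_erase_of_mem (Finset.mem_univ l), Finset.card_univ,
    Fintype.card_fin, nsmul_eq_mul, Nat.cast_sub hn, Nat.cast_one] at h4
  have h5 : ((n : ℝ) - 1) * ((1 / n - τ) * m) = m - 1 / n * m - (n - 1) * τ * m := by
    field_simp
  rw [h5] at h4
  have h6 : ((n : ℝ) - 1) * τ * m ≤ n * τ * m := by
    apply mul_le_mul_of_nonneg_right _ hm0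
    apply mul_le_mul_of_nonneg_right _ hτ
    linarith
  have h7 := h l
  have h8 : τ * m ≤ n * τ * m := by
    apply mul_le_mul_of_nonneg_right _ hm0
    exact le_mul_of_one_le_left hτ hn1
  rw [abs_le]
  constructor
  · linarith
  · linarith

lemma bal_shift {m n : ℕ} (hm : 0 < m) (r : Fin m → ℕ) (hr : ∀ h, 0 < r h)
    (a : Fin m → ℕ) (k : Fin m → ℕ) (τ : ℝ) (hτ : 0 < τ)
    (h : |∑ h, (a h : ℝ) / r h - 1 / (n : ℝ) * m| ≤ n * τ * m)
    (hk : ∑ h, (k h : ℝ) / (r h : ℝ) < τ) (P : Prop) [Decidable P] :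
    |∑ h, ((a h - if P then k h else 0 : ℕ) : ℝ) / r h - 1 / (n : ℝ) * m| ≤
      (n + 1) * τ * m := by
  have hm1 : (1 : ℝ) ≤ m := by exact_mod_cast hm
  have hrR : ∀ h, (0 : ℝ) < r h := fun h => by exact_mod_cast hr h
  rw [abs_le] at h ⊢
  have h1 : ∑ h, ((a h - if P then k h else 0 : ℕ) : ℝ) / r h ≤ ∑ h, (a h : ℝ) / r h := by
    apply Finset.sum_le_sum
    intro h _
    apply div_le_div_of_nonneg_right _ (hrR h).le
    exact_mod_cast Nat.sub_le _ _
  have h2 : ∑ h, (a h : ℝ) / r h - ∑ h, (k h : ℝ) / (r h : ℝ) ≤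
      ∑ h, ((a h - if P then k h else 0 : ℕ) : ℝ) / r h := by
    rw [← Finset.sum_sub_distrib]
    apply Finset.sum_le_sum
    intro h _
    rw [← sub_div]
    apply div_le_div_of_nonneg_right _ (hrR h).le
    have : a h ≤ (a h - if P then k h else 0) + k h := by split_ifs <;> omega
    have h5 : (a h : ℝ) ≤ ((a h - if P then k h else 0 : ℕ) : ℝ) + k h := by exact_mod_cast this
    linarith
  have h4 : τ ≤ τ * m := le_mul_of_one_le_right hτ.le hm1
  have h5 : ((n : ℝ) + 1) * τ * m = n * τ * m + τ * m := by ring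
  rw [h5]
  have h6 : 0 ≤ τ * m := by positivity
  constructor
  · linarith [h.1]
  · linarith [h.2]

end Pool.Agent.H547R3.Sub
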