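import Mathlib
import Pool.Agent.H547R3.Sub.Est

set_option autoImplicit false

open Finset

namespace Pool.Agent.H547R3.Sub

open Pool.Agent.H393R2 (dJ Dset mem_Dset card_Dset_le)

theorem est2 {m n : ℕ} (hm : 0 < m) (hn : 1 ≤ n) (r : Fin m → ℕ) (hr : ∀ h, 0 < r h)
    (Y j1 : Fin n) (k : Fin m → ℕ)
    (c : (Fin m → Fin n → ℕ) → ℤ) (C : ℝ) (hC : 1 ≤ C)
    (hcC : ∀ a ∈ Dset m n r, |(c a : ℝ)| ≤ C ^ (∑ h, r h))
    (τ : ℝ) (hτ0 : 0 < τ)
    (hsupp : ∀ a ∈ Dset m n r, c a ≠ 0 → ∀ l : Fin n,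
          ∑ h, (a h l : ℝ) / (r h : ℝ) ≤ (1 / (n : ℝ) + τ) * m)
    (hbad : ∀ J ∈ Dset m n r,
          (∃ l : Fin n, ∑ h, (J h l : ℝ) / (r h : ℝ) < (1 / (n : ℝ) - τ) * m) →
          dJ r Y (1 : ℝ) c J = 0)
    (hk : ∑ h, (k h : ℝ) / (r h : ℝ) < τ)
    (p q : ℕ) (hp : 2 ≤ p) (hq : 2 ≤ q) (α β : Fin m → Fin n → ℕ) (L K : Fin m → ℕ)
    (hαL : ∀ h l, α h l ≤ L h) (hβK : ∀ h l, β h l ≤ K h) (A : Fin m → Fin n → ℝ)
    (hA : ∀ h l, 0 < A h l) (N : Fin m → ℝ) (Nm : ℝ) (hNm : 0 < Nm) (hN : ∀ h, Nm ≤ N h)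
    (R0 : ℝ) (hR0 : 0 < R0)
    (hrN1 : ∀ h, (1 - τ) * R0 ≤ r h * N h) (hrN2 : ∀ h, r h * N h ≤ R0)
    (aa μ ν : Fin n → ℝ) (cc γ : ℝ) (haa : ∀ l, |aa l| ≤ cc)
    (hμ : ∀ l, |μ l| ≤ cc) (hν : ∀ l, |ν l| ≤ cc) (hγ : γ ≤ ∑ l, aa l) (hγ0 : 0 < γ)
    (hAα : ∀ h l, |Real.log (A h l) - (-aa l) * N h| ≤ τ * N h)
    (hLα : ∀ h l, |((L h - α h l : ℕ) : ℝ) * Real.log p - μ l * N h| ≤ τ * N h)
    (hKβ : ∀ h l, |((K h - β h l : ℕ) : ℝ) * Real.log q - ν l * N h| ≤ τ * N h)
    (hτγ : 5 * n * (τ * (1 + cc) + cc * ((n + 1) * τ)) ≤ γ / (4 * n))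
    (hNγ : Real.log (2 ^ n * C * 2 * n) / Nm ≤ γ / (4 * n))
    (hNγ2 : (Real.log p + Real.log q) / Nm ≤ γ / (4 * n)) :
    ∃ E F : ℕ, (∀ a ∈ Dset m n r, c a ≠ 0 → E ≤ ∑ h, ∑ l ∈ univ.erase Y,
      (L h - α h l) * (a h l - if l = j1 then k h else 0)) ∧
      (∀ J ∈ Dset m n r, dJ r Y (1 : ℝ) c J ≠ 0 → F ≤ ∑ h, ∑ l ∈ univ.erase Y,
      (K h - β h l) * (J h l - if l = j1 then k h else 0)) ∧
      ∑ a ∈ Dset m n r, |(c a : ℝ)| * ∏ h, (((a h j1).choose (k h) : ℝ) *
      ∏ l, (n * A h l * (if l = Y then 1 else (p : ℝ) ^ (L h - α h l) * (q : ℝ) ^ (K h - β h l)))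
        ^ (a h l - if l = j1 then k h else 0)) < (p : ℝ) ^ E * (q : ℝ) ^ F := by
  classical
  have hnR : (0 : ℝ) < n := by exact_mod_cast hn
  have hmR : (0 : ℝ) < m := by exact_mod_cast hm
  have hm1 : (1 : ℝ) ≤ m := by exact_mod_cast hm
  have hn1 : (1 : ℝ) ≤ n := by exact_mod_cast hn
  have hrR : ∀ h, (0 : ℝ) < r h := fun h => by exact_mod_cast hr h
  have hNpos : ∀ h, 0 < N h := fun h => lt_of_lt_of_le hNm (hN h)
  have hp0 : (0 : ℝ) < p := by have : 0 < p := by omega
                               exact_mod_cast this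
  have hq0 : (0 : ℝ) < q := by have : 0 < q := by omega
                               exact_mod_cast this
  have hlogp : 0 < Real.log p := Real.log_pos (by exact_mod_cast (by omega : 1 < p))
  have hlogq : 0 < Real.log q := Real.log_pos (by exact_mod_cast (by omega : 1 < q))
  set η : ℝ := τ * (1 + cc) + cc * ((n + 1) * τ) with hη
  have hcc : 0 ≤ cc := (abs_nonneg _).trans (haa Y)
  have hη0 : 0 ≤ η := by positivity
  set S : ℝ := R0 * (1 / (n : ℝ) * m) with hS
  -- the basic estimate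
  have hbs : ∀ (a : Fin m → Fin n → ℕ), a ∈ Dset m n r →
      (∀ l, |∑ h, (a h l : ℝ) / r h - 1 / (n : ℝ) * m| ≤ n * τ * m) →
      ∀ (y : Fin m → ℝ) (y0 : ℝ) (l : Fin n), (∀ h, |y h - y0 * N h| ≤ τ * N h) → |y0| ≤ cc →
      |∑ h, ((a h l - if l = j1 then k h else 0 : ℕ) : ℝ) * y h - S * y0| ≤ R0 * m * η := by
    intro a ha hb y y0 l hy hy0
    have h1 := bal_sum N y r (fun h => a h l - if l = j1 then k h else 0) hr hNpos R0 τ
      ((n + 1) * τ) cc y0 (1 / (n : ℝ)) hR0 hτ0.le hrN1 hrN2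
      (by
        intro h
        refine (Nat.sub_le _ _).trans ?_
        rw [← mem_Dset.1 ha h]
        exact Finset.single_le_sum (f := fun l => a h l) (fun _ _ => Nat.zero_le _)
          (Finset.mem_univ l))
      (bal_shift hm r hr (fun h => a h l) k τ hτ0 (hb l) hk (l = j1)) hy hy0
    exact h1
  have hbalA : ∀ a ∈ Dset m n r, c a ≠ 0 → ∀ l,
      |∑ h, (a h l : ℝ) / r h - 1 / (n : ℝ) * m| ≤ n * τ * m := fun a ha hca =>
    bal_upper hn r hr ha τ hτ0.le (hsupp a ha hca)
  have hbalJ : ∀ J ∈ Dset m n r, dJ r Y (1 : ℝ) c J ≠ 0 → ∀ l,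
      |∑ h, (J h l : ℝ) / r h - 1 / (n : ℝ) * m| ≤ n * τ * m := fun J hJ hdJ =>
    bal_lower hn r hr hJ τ hτ0.le (fun l => by
      by_contra hcon
      exact hdJ (hbad J hJ ⟨l, not_le.1 hcon⟩))
  -- the exponents
  set sμ : ℝ := ∑ l ∈ univ.erase Y, μ l with hsμ
  set sν : ℝ := ∑ l ∈ univ.erase Y, ν l with hsν
  have hcard : ((univ.erase Y : Finset (Fin n)).card : ℝ) ≤ n := by
    have h1 : (univ.erase Y : Finset (Fin n)).card ≤ n := by
      refine (Finset.card_le_card (Finset.erase_subset _ _)).trans ?_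
      rw [Finset.card_univ, Fintype.card_fin]
    exact_mod_cast h1
  have hRmη : 0 ≤ R0 * m * η := by positivity
  have hsumE : ∀ (a : Fin m → Fin n → ℕ), a ∈ Dset m n r →
      (∀ l, |∑ h, (a h l : ℝ) / r h - 1 / (n : ℝ) * m| ≤ n * τ * m) →
      ∀ (y : Fin m → Fin n → ℝ) (y0 : Fin n → ℝ), (∀ h l, |y h l - y0 l * N h| ≤ τ * N h) →
      (∀ l, |y0 l| ≤ cc) →
      |∑ l ∈ univ.erase Y, ∑ h, ((a h l - if l = j1 then k h else 0 : ℕ) : ℝ) * y h l -
        S * ∑ l ∈ univ.erase Y, y0 l| ≤ n * (R0 * m * η) := by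
    intro a ha hb y y0 hy hy0
    rw [Finset.mul_sum, ← Finset.sum_sub_distrib]
    refine (Finset.abs_sum_le_sum_abs _ _).trans ?_
    refine (Finset.sum_le_card_nsmul _ _ (R0 * m * η) (fun l _ =>
      hbs a ha hb (fun h => y h l) (y0 l) l (fun h => hy h l) (hy0 l))).trans ?_
    rw [nsmul_eq_mul]
    exact mul_le_mul_of_nonneg_right hcard hRmη
  refine ⟨⌊(S * sμ - n * (R0 * m * η)) / Real.log p⌋₊, ⌊(S * sν - n * (R0 * m * η)) / Real.log q⌋₊,
    ?_, ?_, ?_⟩
  · intro a ha hca
    apply Nat.floor_le_of_le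
    rw [div_le_iff₀ hlogp]
    have h1 := (abs_le.1 (hsumE a ha (hbalA a ha hca)
      (fun h l => ((L h - α h l : ℕ) : ℝ) * Real.log p) μ hLα hμ)).1
    have h2 : ((∑ h, ∑ l ∈ univ.erase Y, (L h - α h l) * (a h l - if l = j1 then k h else 0) : ℕ)
        : ℝ) * Real.log p = ∑ l ∈ univ.erase Y, ∑ h,
        ((a h l - if l = j1 then k h else 0 : ℕ) : ℝ) * (((L h - α h l : ℕ) : ℝ) * Real.log p) := by
      rw [Nat.cast_sum, Finset.sum_mul, Finset.sum_comm' (t' := Finset.univ) (s' := fun _ =>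
        univ.erase Y) (by simp)]
      apply Finset.sum_congr rfl
      intro h _
      rw [Nat.cast_sum, Finset.sum_mul]
      apply Finset.sum_congr rfl
      intro l _
      rw [Nat.cast_mul]; ring
    rw [h2]
    linarith
  · intro J hJ hdJ
    apply Nat.floor_le_of_le
    rw [div_le_iff₀ hlogq]
    have h1 := (abs_le.1 (hsumE J hJ (hbalJ J hJ hdJ)
      (fun h l => ((K h - β h l : ℕ) : ℝ) * Real.log q) ν hKβ hν)).1
    have h2 : ((∑ h, ∑ l ∈ univ.erase Y, (K h - β h l) * (J h l - if l = j1 then k h else 0) : ℕ)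
        : ℝ) * Real.log q = ∑ l ∈ univ.erase Y, ∑ h,
        ((J h l - if l = j1 then k h else 0 : ℕ) : ℝ) * (((K h - β h l : ℕ) : ℝ) * Real.log q) := by
      rw [Nat.cast_sum, Finset.sum_mul, Finset.sum_comm' (t' := Finset.univ) (s' := fun _ =>
        univ.erase Y) (by simp)]
      apply Finset.sum_congr rfl
      intro h _
      rw [Nat.cast_sum, Finset.sum_mul]
      apply Finset.sum_congr rfl
      intro l _
      rw [Nat.cast_mul]; ring
    rw [h2]
    linarith
  · -- the smallness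
    set P : ℕ := ∑ h, r h with hP
    have hsr : (P : ℝ) ≤ m * R0 / Nm := by
      rw [hP]
      push_cast
      calc ∑ h, (r h : ℝ) ≤ ∑ h : Fin m, R0 / Nm := by
            apply Finset.sum_le_sum
            intro h _
            rw [le_div_iff₀ hNm]
            exact (mul_le_mul_of_nonneg_left (hN h) (hrR h).le).trans (hrN2 h)
        _ = m * R0 / Nm := by simp; ring
    have hterm : ∀ a ∈ Dset m n r, |(c a : ℝ)| * ∏ h, (((a h j1).choose (k h) : ℝ) *
        ∏ l, (n * A h l * (if l = Y then 1 else (p : ℝ) ^ (L h - α h l) *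
          (q : ℝ) ^ (K h - β h l))) ^ (a h l - if l = j1 then k h else 0)) ≤
        C ^ P * ((2 : ℝ) ^ P * (n : ℝ) ^ P) *
          Real.exp (-(S * γ) + S * sμ + S * sν + 3 * (n * (R0 * m * η))) := by
      intro a ha
      have ha' := mem_Dset.1 ha
      by_cases hca : c a = 0
      · rw [hca, Int.cast_zero, abs_zero, zero_mul]; positivity
      have hb := hbalA a ha hca
      let Z : Fin m → Fin n → ℕ := fun h l => a h l - if l = j1 then k h else 0
      have hprod : ∏ h, (((a h j1).choose (k h) : ℝ) *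
          ∏ l, (n * A h l * (if l = Y then 1 else (p : ℝ) ^ (L h - α h l) *
          (q : ℝ) ^ (K h - β h l))) ^ (Z h l)) ≤ ((2 : ℝ) ^ P * (n : ℝ) ^ P) *
          Real.exp (∑ h, ∑ l, (Z h l : ℝ) * (Real.log (A h l) + (if l = Y then 0 else
            ((L h - α h l : ℕ) : ℝ) * Real.log p + ((K h - β h l : ℕ) : ℝ) * Real.log q))) := by
        rw [hP, ← Finset.prod_pow_eq_pow_sum, ← Finset.prod_pow_eq_pow_sum,
          ← Finset.prod_mul_distrib, Real.exp_sum, ← Finset.prod_mul_distrib]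
        apply Finset.prod_le_prod
        · intro h _
          apply mul_nonneg (by positivity)
          apply Finset.prod_nonneg
          intro l _
          have := hA h l
          split_ifs <;> positivity
        · intro h _
          have h1 : ((a h j1).choose (k h) : ℝ) ≤ 2 ^ (r h) := by
            have h2 : (a h j1).choose (k h) ≤ 2 ^ (a h j1) := Nat.choose_le_two_pow _ _
            have h3 : a h j1 ≤ r h := by
              rw [← ha' h]
              exact Finset.single_le_sum (f := fun l => a h l) (fun _ _ => Nat.zero_le _)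
                (Finset.mem_univ j1)
            exact_mod_cast h2.trans (Nat.pow_le_pow_right (by norm_num) h3)
          have h4 : ∏ l, (n * A h l * (if l = Y then 1 else (p : ℝ) ^ (L h - α h l) *
              (q : ℝ) ^ (K h - β h l))) ^ (Z h l) ≤ (n : ℝ) ^ (r h) *
              Real.exp (∑ l, (Z h l : ℝ) * (Real.log (A h l) + (if l = Y then 0 else
              ((L h - α h l : ℕ) : ℝ) * Real.log p +
                ((K h - β h l : ℕ) : ℝ) * Real.log q))) := by
            rw [Real.exp_sum]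
            have h5 : ∏ l, (n * A h l * (if l = Y then 1 else (p : ℝ) ^ (L h - α h l) *
              (q : ℝ) ^ (K h - β h l))) ^ (Z h l) = (n : ℝ) ^ (∑ l, Z h l) * ∏ l,
              Real.exp ((Z h l : ℝ) * (Real.log (A h l) + (if l = Y then 0 else
              ((L h - α h l : ℕ) : ℝ) * Real.log p +
                ((K h - β h l : ℕ) : ℝ) * Real.log q))) := by
              rw [← Finset.prod_pow_eq_pow_sum, ← Finset.prod_mul_distrib]
              apply Finset.prod_congr rfl
              intro l _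
              rw [mul_assoc, mul_pow]
              congr 1
              rw [Real.exp_nat_mul, Real.exp_add, Real.exp_log (hA h l)]
              congr 2
              split_ifs
              · rw [Real.exp_zero]
              · rw [Real.exp_add, Real.exp_nat_mul, Real.exp_nat_mul, Real.exp_log hp0,
                  Real.exp_log hq0]
            rw [h5]
            apply mul_le_mul_of_nonneg_right
            · apply pow_le_pow_right₀ hn1
              rw [← ha' h]
              exact Finset.sum_le_sum (fun l _ => Nat.sub_le _ _)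
            · exact Finset.prod_nonneg (fun l _ => (Real.exp_pos _).le)
          calc _ ≤ (2 : ℝ) ^ (r h) * ((n : ℝ) ^ (r h) *
              Real.exp (∑ l, (Z h l : ℝ) * (Real.log (A h l) + (if l = Y then 0 else
              ((L h - α h l : ℕ) : ℝ) * Real.log p +
                ((K h - β h l : ℕ) : ℝ) * Real.log q)))) := by
                apply mul_le_mul h1 h4 _ (by positivity)
                apply Finset.prod_nonneg
                intro l _
                have := hA h l
                split_ifs <;> positivity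
            _ = _ := by ring
      have hexp : ∑ h, ∑ l, (Z h l : ℝ) * (Real.log (A h l) + (if l = Y then 0 else
            ((L h - α h l : ℕ) : ℝ) * Real.log p + ((K h - β h l : ℕ) : ℝ) * Real.log q)) ≤
          -(S * γ) + S * sμ + S * sν + 3 * (n * (R0 * m * η)) := by
        have e1 : ∑ h, ∑ l, (Z h l : ℝ) * (Real.log (A h l) + (if l = Y then 0 else
            ((L h - α h l : ℕ) : ℝ) * Real.log p + ((K h - β h l : ℕ) : ℝ) * Real.log q)) =
            ∑ l, ∑ h, (Z h l : ℝ) * Real.log (A h l) +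
            (∑ l ∈ univ.erase Y, ∑ h, (Z h l : ℝ) * (((L h - α h l : ℕ) : ℝ) * Real.log p) +
            ∑ l ∈ univ.erase Y, ∑ h, (Z h l : ℝ) * (((K h - β h l : ℕ) : ℝ) * Real.log q)) := by
          rw [Finset.sum_comm]
          have e2 : ∀ l, ∑ h, (Z h l : ℝ) * (Real.log (A h l) + (if l = Y then 0 else
            ((L h - α h l : ℕ) : ℝ) * Real.log p + ((K h - β h l : ℕ) : ℝ) * Real.log q)) =
            ∑ h, (Z h l : ℝ) * Real.log (A h l) + if l = Y then 0 else
            (∑ h, (Z h l : ℝ) * (((L h - α h l : ℕ) : ℝ) * Real.log p) +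
            ∑ h, (Z h l : ℝ) * (((K h - β h l : ℕ) : ℝ) * Real.log q)) := by
            intro l
            split_ifs
            · rw [add_zero]
              apply Finset.sum_congr rfl
              intro h _; ring
            · rw [← Finset.sum_add_distrib, ← Finset.sum_add_distrib]
              apply Finset.sum_congr rfl
              intro h _; ring
          rw [Finset.sum_congr rfl (fun l _ => e2 l), Finset.sum_add_distrib]
          congr 1
          rw [← Finset.add_sum_erase _ _ (Finset.mem_univ Y), if_pos rfl, zero_add,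
            ← Finset.sum_add_distrib]
          apply Finset.sum_congr rfl
          intro l hl
          rw [if_neg (by simpa using hl)]
        rw [e1]
        have e3 := (abs_le.1 (hsumE a ha hb
          (fun h l => ((L h - α h l : ℕ) : ℝ) * Real.log p) μ hLα hμ)).2
        have e4 := (abs_le.1 (hsumE a ha hb
          (fun h l => ((K h - β h l : ℕ) : ℝ) * Real.log q) ν hKβ hν)).2
        have e5 : |∑ l, ∑ h, (Z h l : ℝ) * Real.log (A h l) - S * ∑ l, -aa l| ≤
            n * (R0 * m * η) := by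
          rw [Finset.mul_sum, ← Finset.sum_sub_distrib]
          refine (Finset.abs_sum_le_sum_abs _ _).trans ?_
          refine (Finset.sum_le_card_nsmul _ _ (R0 * m * η) (fun l _ =>
            hbs a ha hb (fun h => Real.log (A h l)) (-aa l) l (fun h => hAα h l)
              (by rw [abs_neg]; exact haa l))).trans ?_
          rw [nsmul_eq_mul, Finset.card_univ, Fintype.card_fin]
        have e6 := (abs_le.1 e5).2
        have hSp : 0 ≤ S := by rw [hS]; positivity
        have e7 : S * ∑ l, -aa l ≤ -(S * γ) := by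
          rw [Finset.sum_neg_distrib, mul_neg, neg_le_neg_iff]
          exact mul_le_mul_of_nonneg_left hγ hSp
        simp only [Z] at e6 ⊢
        linarith
      have h9 : |(c a : ℝ)| * ∏ h, (((a h j1).choose (k h) : ℝ) *
          ∏ l, (n * A h l * (if l = Y then 1 else (p : ℝ) ^ (L h - α h l) *
          (q : ℝ) ^ (K h - β h l))) ^ (Z h l)) ≤ C ^ P * (((2 : ℝ) ^ P * (n : ℝ) ^ P) *
          Real.exp (-(S * γ) + S * sμ + S * sν + 3 * (n * (R0 * m * η)))) := by
        apply mul_le_mul (hcC a ha) _ _ (by positivity)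
        · refine hprod.trans ?_
          apply mul_le_mul_of_nonneg_left _ (by positivity)
          exact Real.exp_le_exp.2 hexp
        · apply Finset.prod_nonneg
          intro h _
          apply mul_nonneg (by positivity)
          apply Finset.prod_nonneg
          intro l _
          have := hA h l
          split_ifs <;> positivity
      refine h9.trans (le_of_eq ?_)
      ring
    -- sum up
    have hsumle : ∑ a ∈ Dset m n r, |(c a : ℝ)| * ∏ h, (((a h j1).choose (k h) : ℝ) *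
        ∏ l, (n * A h l * (if l = Y then 1 else (p : ℝ) ^ (L h - α h l) *
          (q : ℝ) ^ (K h - β h l))) ^ (a h l - if l = j1 then k h else 0)) ≤
        (2 : ℝ) ^ (n * P) * (C ^ P * ((2 : ℝ) ^ P * (n : ℝ) ^ P) *
          Real.exp (-(S * γ) + S * sμ + S * sν + 3 * (n * (R0 * m * η)))) := by
      refine (Finset.sum_le_card_nsmul _ _ _ hterm).trans ?_
      rw [nsmul_eq_mul]
      apply mul_le_mul_of_nonneg_right _ (by positivity)
      exact_mod_cast card_Dset_le (n := n) r
    refine lt_of_le_of_lt hsumle ?_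
    set Q : ℝ := 2 ^ n * C * 2 * n with hQ
    have hQ1 : 1 ≤ Q := by
      have h1 : (1 : ℝ) ≤ 2 ^ n := one_le_pow₀ (by norm_num)
      have h2 : (1 : ℝ) ≤ 2 ^ n * C := by nlinarith
      have h3 : (1 : ℝ) ≤ 2 ^ n * C * 2 := by linarith
      nlinarith
    have hQ0 : 0 < Q := by linarith
    have e1 : (2 : ℝ) ^ (n * P) * (C ^ P * ((2 : ℝ) ^ P * (n : ℝ) ^ P) *
          Real.exp (-(S * γ) + S * sμ + S * sν + 3 * (n * (R0 * m * η)))) =
        Real.exp (P * Real.log Q + (-(S * γ) + S * sμ + S * sν + 3 * (n * (R0 * m * η)))) := by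
      generalize (-(S * γ) + S * sμ + S * sν + 3 * (n * (R0 * m * η))) = V
      rw [Real.exp_add, Real.exp_nat_mul, Real.exp_log hQ0, hQ, pow_mul]
      rw [mul_pow, mul_pow, mul_pow]
      ring
    rw [e1]
    have e2 : (p : ℝ) ^ ⌊(S * sμ - n * (R0 * m * η)) / Real.log p⌋₊ *
        (q : ℝ) ^ ⌊(S * sν - n * (R0 * m * η)) / Real.log q⌋₊ =
        Real.exp ((⌊(S * sμ - n * (R0 * m * η)) / Real.log p⌋₊ : ℝ) * Real.log p +
          (⌊(S * sν - n * (R0 * m * η)) / Real.log q⌋₊ : ℝ) * Real.log q) := by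
      rw [Real.exp_add, Real.exp_nat_mul, Real.exp_nat_mul, Real.exp_log hp0, Real.exp_log hq0]
    rw [e2]
    apply Real.exp_lt_exp.2
    have f1 : (S * sμ - n * (R0 * m * η)) - Real.log p <
        (⌊(S * sμ - n * (R0 * m * η)) / Real.log p⌋₊ : ℝ) * Real.log p := by
      have h1 := Nat.lt_floor_add_one ((S * sμ - n * (R0 * m * η)) / Real.log p)
      rw [div_lt_iff₀ hlogp] at h1
      linarith
    have f2 : (S * sν - n * (R0 * m * η)) - Real.log q <
        (⌊(S * sν - n * (R0 * m * η)) / Real.log q⌋₊ : ℝ) * Real.log q := by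
      have h1 := Nat.lt_floor_add_one ((S * sν - n * (R0 * m * η)) / Real.log q)
      rw [div_lt_iff₀ hlogq] at h1
      linarith
    have hlogQ : 0 ≤ Real.log Q := Real.log_nonneg hQ1
    have hNmR0 : Nm ≤ R0 := by
      have h1 : (1 : ℝ) ≤ r ⟨0, hm⟩ := by exact_mod_cast hr ⟨0, hm⟩
      have h2 := hrN2 ⟨0, hm⟩
      have h3 := hN ⟨0, hm⟩
      nlinarith [hNpos ⟨0, hm⟩]
    have g1 : (P : ℝ) * Real.log Q ≤ R0 * m * (γ / (4 * n)) := by
      calc (P : ℝ) * Real.log Q ≤ (m * R0 / Nm) * Real.log Q :=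
            mul_le_mul_of_nonneg_right hsr hlogQ
        _ = R0 * m * (Real.log Q / Nm) := by ring
        _ ≤ _ := mul_le_mul_of_nonneg_left hNγ (by positivity)
    have g2 : Real.log p + Real.log q ≤ R0 * m * (γ / (4 * n)) := by
      rw [div_le_iff₀ hNm] at hNγ2
      calc Real.log p + Real.log q ≤ γ / (4 * n) * Nm := hNγ2
        _ ≤ γ / (4 * n) * R0 := mul_le_mul_of_nonneg_left hNmR0 (by positivity)
        _ = R0 * 1 * (γ / (4 * n)) := by ring
        _ ≤ R0 * m * (γ / (4 * n)) := by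
          apply mul_le_mul_of_nonneg_right _ (by positivity)
          exact mul_le_mul_of_nonneg_left hm1 hR0.le
    have g3 : 5 * (n * (R0 * m * η)) ≤ R0 * m * (γ / (4 * n)) := by
      calc 5 * (n * (R0 * m * η)) = R0 * m * (5 * n * η) := by ring
        _ ≤ _ := mul_le_mul_of_nonneg_left hτγ (by positivity)
    have g4 : S * γ = 4 * (R0 * m * (γ / (4 * n))) := by
      rw [hS]; field_simp
    have g5 : 0 < R0 * m * (γ / (4 * n)) := by positivity
    linarith

end Pool.Agent.H547R3.Sub
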