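import Mathlib
import Pool.Agent.H393R2.Vanish

set_option autoImplicit false

open Finset

namespace Pool.Agent.H547R3.Sub

open Pool.Agent.H393R2 (bterm)

variable {σ : Type*} {p : ℕ} [Fact p.Prime]

/-- all coefficients have `p`-adic norm at most `C` -/
def Bd (f : MvPolynomial σ ℚ_[p]) (C : ℝ) : Prop := ∀ κ, ‖f.coeff κ‖ ≤ C

lemma Bd.nonneg {f : MvPolynomial σ ℚ_[p]} {C : ℝ} (h : Bd f C) : 0 ≤ C :=
  (norm_nonneg _).trans (h 0)

lemma Bd.mono {f : MvPolynomial σ ℚ_[p]} {C D : ℝ} (h : Bd f C) (hCD : C ≤ D) : Bd f D :=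
  fun κ => (h κ).trans hCD

lemma Bd.add {f g : MvPolynomial σ ℚ_[p]} {C : ℝ} (hf : Bd f C) (hg : Bd g C) :
    Bd (f + g) C := by
  intro κ
  rw [MvPolynomial.coeff_add]
  exact (Padic.nonarchimedean _ _).trans (max_le (hf κ) (hg κ))

lemma Bd.zero {C : ℝ} (hC : 0 ≤ C) : Bd (0 : MvPolynomial σ ℚ_[p]) C := by
  intro κ
  rw [MvPolynomial.coeff_zero, norm_zero]
  exact hC

lemma Bd.sum {ι : Type*} (s : Finset ι) (f : ι → MvPolynomial σ ℚ_[p]) {C : ℝ} (hC : 0 ≤ C)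
    (h : ∀ i ∈ s, Bd (f i) C) : Bd (∑ i ∈ s, f i) C := by
  classical
  induction s using Finset.induction_on with
  | empty => rw [Finset.sum_empty]; exact Bd.zero hC
  | insert a s ha ih =>
    rw [Finset.sum_insert ha]
    exact (h a (Finset.mem_insert_self _ _)).add
      (ih (fun i hi => h i (Finset.mem_insert_of_mem hi)))

lemma Bd.mul {f g : MvPolynomial σ ℚ_[p]} {C D : ℝ} (hf : Bd f C) (hg : Bd g D) :
    Bd (f * g) (C * D) := by
  classical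
  intro κ
  rw [MvPolynomial.coeff_mul]
  apply IsUltrametricDist.norm_sum_le_of_forall_le_of_nonneg (mul_nonneg hf.nonneg hg.nonneg)
  intro x _
  rw [norm_mul]
  exact mul_le_mul (hf _) (hg _) (norm_nonneg _) hf.nonneg

lemma Bd.C {z : ℚ_[p]} {D : ℝ} (hz : ‖z‖ ≤ D) : Bd (MvPolynomial.C z : MvPolynomial σ ℚ_[p]) D := by
  classical
  intro κ
  rw [MvPolynomial.coeff_C]
  split_ifs
  · exact hz
  · rw [norm_zero]; exact (norm_nonneg _).trans hz

lemma Bd.X (i : σ) : Bd (MvPolynomial.X i : MvPolynomial σ ℚ_[p]) 1 := by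
  classical
  intro κ
  rw [MvPolynomial.coeff_X]
  split_ifs
  · rw [norm_one]
  · rw [norm_zero]; norm_num

lemma Bd.one : Bd (1 : MvPolynomial σ ℚ_[p]) 1 := by
  rw [← MvPolynomial.C_1]
  exact Bd.C (by rw [norm_one])

lemma Bd.intCast (z : ℤ) : Bd ((z : ℤ) : MvPolynomial σ ℚ_[p]) 1 := by
  have : ((z : ℤ) : MvPolynomial σ ℚ_[p]) = MvPolynomial.C (z : ℚ_[p]) := by simp
  rw [this]
  exact Bd.C (Padic.norm_int_le_one z)

lemma Bd.natCast (z : ℕ) : Bd ((z : ℕ) : MvPolynomial σ ℚ_[p]) 1 := by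
  have := Bd.intCast (σ := σ) (p := p) (z : ℤ)
  simpa using this

lemma Bd.prod {ι : Type*} (s : Finset ι) (f : ι → MvPolynomial σ ℚ_[p]) (C : ι → ℝ)
    (h : ∀ i ∈ s, Bd (f i) (C i)) : Bd (∏ i ∈ s, f i) (∏ i ∈ s, C i) := by
  classical
  induction s using Finset.induction_on with
  | empty => rw [Finset.prod_empty, Finset.prod_empty]; exact Bd.one
  | insert a s ha ih =>
    rw [Finset.prod_insert ha, Finset.prod_insert ha]
    exact (h a (Finset.mem_insert_self _ _)).mul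
      (ih (fun i hi => h i (Finset.mem_insert_of_mem hi)))

lemma Bd.pow {f : MvPolynomial σ ℚ_[p]} {C : ℝ} (h : Bd f C) (k : ℕ) : Bd (f ^ k) (C ^ k) := by
  induction k with
  | zero => rw [pow_zero, pow_zero]; exact Bd.one
  | succ k ih => rw [pow_succ, pow_succ]; exact ih.mul h

lemma Bd.bterm {n : ℕ} (j1 : Fin n) (k : ℕ) (a : Fin n → ℕ)
    (M : Fin n → MvPolynomial σ ℚ_[p]) (B : Fin n → ℝ) (hB : ∀ l, Bd (M l) (B l)) :
    Bd (bterm j1 k a M) (∏ l, B l ^ (a l - if l = j1 then k else 0)) := by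
  unfold Pool.Agent.H393R2.bterm
  have h := (Bd.natCast (σ := σ) (p := p) ((a j1).choose k)).mul
    (Bd.prod Finset.univ _ _ (fun l _ => (hB l).pow (a l - if l = j1 then k else 0)))
  rwa [one_mul] at h

/-- The rational numbers whose denominator is composed of `p` and `q`. -/
def denS (p q : ℕ) : Subring ℚ where
  carrier := {z | ∃ x : ℕ, ∃ g : ℤ, z * ((p * q : ℕ) : ℚ) ^ x = g}
  mul_mem' := by
    rintro a b ⟨x, g, hx⟩ ⟨y, g', hy⟩
    refine ⟨x + y, g * g', ?_⟩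
    rw [pow_add]
    push_cast
    push_cast at hx hy
    rw [← hx, ← hy]; ring
  one_mem' := ⟨0, 1, by simp⟩
  add_mem' := by
    rintro a b ⟨x, g, hx⟩ ⟨y, g', hy⟩
    refine ⟨x + y, g * ((p * q : ℕ) : ℤ) ^ y + g' * ((p * q : ℕ) : ℤ) ^ x, ?_⟩
    rw [pow_add]
    push_cast
    push_cast at hx hy
    rw [← hx, ← hy]; ring
  zero_mem' := ⟨0, 0, by simp⟩
  neg_mem' := by
    rintro a ⟨x, g, hx⟩
    refine ⟨x, -g, ?_⟩
    push_cast
    push_cast at hx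
    rw [← hx]; ring

/-- product formula for elements of `denS p q` -/
lemma denS_eq_zero {p q : ℕ} [Fact p.Prime] [Fact q.Prime] (hpq : p ≠ q) {z : ℚ}
    (hz : z ∈ denS p q) (E F : ℕ) (h1 : ‖(z : ℚ_[p])‖ ≤ ((p : ℝ) ^ E)⁻¹)
    (h2 : ‖(z : ℚ_[q])‖ ≤ ((q : ℝ) ^ F)⁻¹) (h3 : |(z : ℝ)| < (p : ℝ) ^ E * (q : ℝ) ^ F) :
    z = 0 := by
  have hp : p.Prime := Fact.out
  have hq : q.Prime := Fact.out
  by_contra hz0
  obtain ⟨x, g, hg⟩ := hz
  have hp0 : (0 : ℝ) < p := by exact_mod_cast hp.pos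
  have hq0 : (0 : ℝ) < q := by exact_mod_cast hq.pos
  have hcop : p.Coprime q := (Nat.coprime_primes hp hq).2 hpq
  -- `p`-adic
  have hpd : ((p : ℤ)) ^ (x + E) ∣ g := by
    have e1 : (g : ℚ_[p]) = (z : ℚ_[p]) * ((p : ℚ_[p]) * (q : ℚ_[p])) ^ x := by
      have := congrArg (fun t : ℚ => (t : ℚ_[p])) hg
      push_cast at this
      rw [← this]
    have e2 : ‖(q : ℚ_[p])‖ = 1 := Padic.norm_natCast_eq_one_iff.2 hcop
    rw [← Padic.norm_int_le_pow_iff_dvd, e1, norm_mul, norm_pow, norm_mul, e2, mul_one,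
      Padic.norm_p]
    calc ‖(z : ℚ_[p])‖ * ((p : ℝ)⁻¹) ^ x ≤ ((p : ℝ) ^ E)⁻¹ * ((p : ℝ)⁻¹) ^ x :=
          mul_le_mul_of_nonneg_right h1 (by positivity)
      _ = (p : ℝ) ^ (-((x + E : ℕ) : ℤ)) := by
        rw [zpow_neg, zpow_natCast, pow_add, mul_inv, inv_pow]; ring
  have hqd : ((q : ℤ)) ^ (x + F) ∣ g := by
    have e1 : (g : ℚ_[q]) = (z : ℚ_[q]) * ((p : ℚ_[q]) * (q : ℚ_[q])) ^ x := by
      have := congrArg (fun t : ℚ => (t : ℚ_[q])) hg
      push_cast at this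
      rw [← this]
    have e2 : ‖(p : ℚ_[q])‖ = 1 := Padic.norm_natCast_eq_one_iff.2 hcop.symm
    rw [← Padic.norm_int_le_pow_iff_dvd, e1, norm_mul, norm_pow, norm_mul, e2, one_mul,
      Padic.norm_p]
    calc ‖(z : ℚ_[q])‖ * ((q : ℝ)⁻¹) ^ x ≤ ((q : ℝ) ^ F)⁻¹ * ((q : ℝ)⁻¹) ^ x :=
          mul_le_mul_of_nonneg_right h2 (by positivity)
      _ = (q : ℝ) ^ (-((x + F : ℕ) : ℤ)) := by
        rw [zpow_neg, zpow_natCast, pow_add, mul_inv, inv_pow]; ring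
  have hg0 : g ≠ 0 := by
    rintro rfl
    rw [Int.cast_zero] at hg
    rcases mul_eq_zero.1 hg with h | h
    · exact hz0 h
    · have h5 : ((p * q : ℕ) : ℚ) ≠ 0 := by
        have : p * q ≠ 0 := Nat.mul_ne_zero hp.ne_zero hq.ne_zero
        exact_mod_cast this
      exact pow_ne_zero _ h5 h
  have hdvd : ((p : ℤ)) ^ (x + E) * (q : ℤ) ^ (x + F) ∣ g := by
    apply IsCoprime.mul_dvd _ hpd hqd
    apply IsCoprime.pow
    exact Nat.isCoprime_iff_coprime.2 hcop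
  have hle := Int.le_of_dvd (abs_pos.2 hg0) ((dvd_abs _ _).2 hdvd)
  have hle' : (p : ℝ) ^ (x + E) * (q : ℝ) ^ (x + F) ≤ |(g : ℝ)| := by exact_mod_cast hle
  have e3 : |(g : ℝ)| = |(z : ℝ)| * ((p : ℝ) * q) ^ x := by
    have := congrArg (fun t : ℚ => (t : ℝ)) hg
    push_cast at this
    rw [← this, abs_mul, abs_of_pos (by positivity : (0 : ℝ) < ((p : ℝ) * q) ^ x)]
  rw [e3] at hle'
  have e4 : (p : ℝ) ^ (x + E) * (q : ℝ) ^ (x + F) =
      ((p : ℝ) ^ E * (q : ℝ) ^ F) * ((p : ℝ) * q) ^ x := by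
    rw [pow_add, pow_add, mul_pow]; ring
  rw [e4] at hle'
  have := le_of_mul_le_mul_right hle' (by positivity)
  linarith

end Pool.Agent.H547R3.Sub
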