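import Mathlib
import Pool.Agent.H547R3.Sub.PA

set_option autoImplicit false

open Finset

namespace Pool.Agent.H547R3.Sub

open Pool.Agent.H393R2 (bterm Sk dJ Dset mem_Dset Sk_cv map_Sk map_dJ map_bterm l1 l1_nonneg
  l1_sum_le l1_mul_le l1_prod_le l1_bterm_le l1_X l1_C abs_coeff_le_l1)

lemma prod_inv_pow {m n : ℕ} (Y : Fin n) (b : ℝ) (hb : 0 < b) (u Z : Fin m → Fin n → ℕ) :
    ∏ h, ∏ l, (if l = Y then (1 : ℝ) else ((b ^ (u h l))⁻¹)) ^ (Z h l) =
      (b ^ (∑ h, ∑ l ∈ univ.erase Y, u h l * Z h l))⁻¹ := by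
  classical
  rw [← Finset.prod_pow_eq_pow_sum, ← Finset.prod_inv_distrib]
  apply Finset.prod_congr rfl
  intro h _
  rw [← Finset.mul_prod_erase Finset.univ _ (Finset.mem_univ Y), if_pos rfl, one_pow, one_mul,
    ← Finset.prod_pow_eq_pow_sum, ← Finset.prod_inv_distrib]
  apply Finset.prod_congr rfl
  intro l hl
  rw [if_neg (by simpa using hl), inv_pow, ← pow_mul]

theorem Sk_vanish2 {p q : ℕ} [Fact p.Prime] [Fact q.Prime] (hpq : p ≠ q) {m n : ℕ}
    (r : Fin m → ℕ) (Y j1 : Fin n) (hj : j1 ≠ Y)
    (k : Fin m → ℕ) (c : (Fin m → Fin n → ℕ) → ℤ)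
    (α β : Fin m → Fin n → ℕ) (hαY : ∀ h, α h Y = 0) (hβY : ∀ h, β h Y = 0) (L K : Fin m → ℕ)
    (hαL : ∀ h l, α h l ≤ L h) (hβK : ∀ h l, β h l ≤ K h)
    (w : Fin m → Fin (n - 1) → Fin n → ℤ)
    (hwp : ∀ h i l, l ≠ Y → (p : ℤ) ^ L h ∣ w h i l)
    (hwq : ∀ h i l, l ≠ Y → (q : ℤ) ^ K h ∣ w h i l - (p : ℤ) ^ α h l * (q : ℤ) ^ β h l * w h i Y)
    (B : Fin m → Fin n → ℝ)
    (hB : ∀ h l, ∑ i, |(w h i l : ℝ) / ((p : ℝ) ^ α h l * (q : ℝ) ^ β h l)| ≤ B h l)
    (E F : ℕ)
    (hE : ∀ a ∈ Dset m n r, c a ≠ 0 → E ≤ ∑ h, ∑ l ∈ univ.erase Y,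
      (L h - α h l) * (a h l - if l = j1 then k h else 0))
    (hF : ∀ J ∈ Dset m n r, dJ r Y (1 : ℝ) c J ≠ 0 → F ≤ ∑ h, ∑ l ∈ univ.erase Y,
      (K h - β h l) * (J h l - if l = j1 then k h else 0))
    (hsmall : ∑ a ∈ Dset m n r, |(c a : ℝ)| * ∏ h, (((a h j1).choose (k h) : ℝ) *
      ∏ l, B h l ^ (a h l - if l = j1 then k h else 0)) < (p : ℝ) ^ E * (q : ℝ) ^ F) :
    ∀ u : Fin m → Fin (n - 1) → ℝ,
      Sk r j1 k c (fun h l => ∑ i, u h i *
        ((w h i l : ℝ) / ((p : ℝ) ^ α h l * (q : ℝ) ^ β h l))) = 0 := by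
  classical
  have hp : p.Prime := Fact.out
  have hq : q.Prime := Fact.out
  have hp0 : (0 : ℝ) < p := by exact_mod_cast hp.pos
  have hq0 : (0 : ℝ) < q := by exact_mod_cast hq.pos
  have hcop : p.Coprime q := (Nat.coprime_primes hp hq).2 hpq
  let σ := Fin m × Fin (n - 1)
  let co : Fin m → Fin (n - 1) → Fin n → ℚ := fun h i l =>
    (w h i l : ℚ) / ((p : ℚ) ^ α h l * (q : ℚ) ^ β h l)
  let WQ : Fin m → Fin n → MvPolynomial σ ℚ := fun h l =>
    ∑ i, MvPolynomial.X (h, i) * MvPolynomial.C (co h i l)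
  let FQ : MvPolynomial σ ℚ := Sk r j1 k c WQ
  have hFQ : FQ = 0 := by
    ext κ
    rw [MvPolynomial.coeff_zero]
    apply denS_eq_zero hpq (E := E) (F := F)
    · -- denominators
      have hmem : ∀ h i l, co h i l ∈ denS p q := by
        intro h i l
        refine ⟨α h l + β h l, w h i l * (p : ℤ) ^ β h l * (q : ℤ) ^ α h l, ?_⟩
        have e1 : (p : ℚ) ≠ 0 := by exact_mod_cast hp.ne_zero
        have e2 : (q : ℚ) ≠ 0 := by exact_mod_cast hq.ne_zero
        simp only [co]
        push_cast
        rw [mul_pow, pow_add, pow_add]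
        field_simp
      let WS : Fin m → Fin n → MvPolynomial σ (denS p q) := fun h l =>
        ∑ i, MvPolynomial.X (h, i) * MvPolynomial.C (⟨co h i l, hmem h i l⟩ : denS p q)
      have h1 : FQ = MvPolynomial.map (denS p q).subtype (Sk r j1 k c WS) := by
        rw [map_Sk]
        simp only [FQ]
        congr 1
        funext h l
        simp only [WQ, WS]
        rw [map_sum]
        apply Finset.sum_congr rfl
        intro i _
        rw [map_mul, MvPolynomial.map_X, MvPolynomial.map_C]
        rfl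
      rw [h1, MvPolynomial.coeff_map]
      exact (MvPolynomial.coeff κ (Sk r j1 k c WS)).2
    · -- p-adic bound
      let Wp : Fin m → Fin n → MvPolynomial σ ℚ_[p] := fun h l =>
        ∑ i, MvPolynomial.X (h, i) * MvPolynomial.C ((co h i l : ℚ) : ℚ_[p])
      have h1 : MvPolynomial.map (Rat.castHom ℚ_[p]) FQ = Sk r j1 k c Wp := by
        rw [map_Sk]
        congr 1
        funext h l
        simp only [WQ, Wp]
        rw [map_sum]
        apply Finset.sum_congr rfl
        intro i _
        rw [map_mul, MvPolynomial.map_X, MvPolynomial.map_C]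
        rfl
      have h2 : ((FQ.coeff κ : ℚ) : ℚ_[p]) = (Sk r j1 k c Wp).coeff κ := by
        rw [← h1, MvPolynomial.coeff_map]; rfl
      rw [h2]
      have hco : ∀ h i l, ‖((co h i l : ℚ) : ℚ_[p])‖ ≤
          if l = Y then (1 : ℝ) else ((p : ℝ) ^ (L h - α h l))⁻¹ := by
        intro h i l
        have e2 : ‖(q : ℚ_[p])‖ = 1 := Padic.norm_natCast_eq_one_iff.2 hcop
        have e3 : ‖((co h i l : ℚ) : ℚ_[p])‖ = ‖((w h i l : ℤ) : ℚ_[p])‖ * (p : ℝ) ^ α h l := by
          simp only [co]
          push_cast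
          rw [norm_div, norm_mul, norm_pow, norm_pow, e2, one_pow, mul_one, Padic.norm_p,
            inv_pow, div_inv_eq_mul]
        rw [e3]
        split_ifs with hl
        · subst hl
          rw [hαY, pow_zero, mul_one]
          exact Padic.norm_int_le_one _
        · have e4 := (Padic.norm_int_le_pow_iff_dvd (p := p) (w h i l) (L h)).2 (by
            exact_mod_cast hwp h i l hl)
          rw [zpow_neg, zpow_natCast] at e4
          calc ‖((w h i l : ℤ) : ℚ_[p])‖ * (p : ℝ) ^ α h l ≤
              ((p : ℝ) ^ L h)⁻¹ * (p : ℝ) ^ α h l :=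
                mul_le_mul_of_nonneg_right e4 (by positivity)
            _ = ((p : ℝ) ^ (L h - α h l))⁻¹ := by
              have e5 : (p : ℝ) ^ L h = (p : ℝ) ^ (L h - α h l) * (p : ℝ) ^ α h l := by
                rw [← pow_add, Nat.sub_add_cancel (hαL h l)]
              rw [e5, mul_inv, mul_assoc, inv_mul_cancel₀ (by positivity), mul_one]
      have hW : ∀ h l, Bd (Wp h l) (if l = Y then (1 : ℝ) else ((p : ℝ) ^ (L h - α h l))⁻¹) := by
        intro h l
        apply Bd.sum
        · split_ifs <;> positivity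
        · intro i _
          have := (Bd.X (p := p) (h, i)).mul (Bd.C (σ := σ) (hco h i l))
          rwa [one_mul] at this
      have h3 : Bd (Sk r j1 k c Wp) ((p : ℝ) ^ E)⁻¹ := by
        unfold Pool.Agent.H393R2.Sk
        apply Bd.sum _ _ (by positivity)
        intro a ha
        by_cases hca : c a = 0
        · rw [hca, Int.cast_zero, zero_mul]; exact Bd.zero (by positivity)
        · have h4 := (Bd.intCast (σ := σ) (p := p) (c a)).mul
            (Bd.prod Finset.univ _ _ (fun h _ => Bd.bterm j1 (k h) (a h) (Wp h) _ (hW h)))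
          rw [one_mul] at h4
          refine h4.mono ?_
          rw [prod_inv_pow Y (p : ℝ) hp0 (fun h l => L h - α h l)
            (fun h l => a h l - if l = j1 then k h else 0)]
          apply inv_anti₀ (by positivity)
          exact pow_le_pow_right₀ (by exact_mod_cast hp.one_le) (hE a ha hca)
      exact h3 κ
    · -- q-adic bound
      let Wq : Fin m → Fin n → MvPolynomial σ ℚ_[q] := fun h l =>
        ∑ i, MvPolynomial.X (h, i) * MvPolynomial.C ((co h i l : ℚ) : ℚ_[q])
      let Mq : Fin m → Fin n → MvPolynomial σ ℚ_[q] := fun h l =>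
        ∑ i, MvPolynomial.X (h, i) * MvPolynomial.C
          (((co h i l - if l = Y then 0 else co h i Y : ℚ)) : ℚ_[q])
      have h1 : MvPolynomial.map (Rat.castHom ℚ_[q]) FQ = Sk r j1 k c Wq := by
        rw [map_Sk]
        congr 1
        funext h l
        simp only [WQ, Wq]
        rw [map_sum]
        apply Finset.sum_congr rfl
        intro i _
        rw [map_mul, MvPolynomial.map_X, MvPolynomial.map_C]
        rfl
      have h2 : ((FQ.coeff κ : ℚ) : ℚ_[q]) = (Sk r j1 k c Wq).coeff κ := by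
        rw [← h1, MvPolynomial.coeff_map]; rfl
      rw [h2]
      have h5 : Sk r j1 k c Wq = ∑ J ∈ Dset m n r, dJ r Y (1 : MvPolynomial σ ℚ_[q]) c J *
          ∏ h, bterm j1 (k h) (J h) (Mq h) := by
        apply Sk_cv r Y j1 hj (1 : MvPolynomial σ ℚ_[q]) k c Mq Wq
        · intro h
          simp only [Wq, Mq, if_true, sub_zero]
        · intro h l hl
          simp only [Wq, Mq, if_neg hl, if_true, sub_zero]
          rw [one_mul, ← Finset.sum_add_distrib]
          apply Finset.sum_congr rfl
          intro i _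
          rw [← mul_add, ← MvPolynomial.C_add]
          congr 2
          push_cast
          ring
      rw [h5]
      have hco : ∀ h i l, ‖(((co h i l - if l = Y then 0 else co h i Y : ℚ)) : ℚ_[q])‖ ≤
          if l = Y then (1 : ℝ) else ((q : ℝ) ^ (K h - β h l))⁻¹ := by
        intro h i l
        have e2 : ‖(p : ℚ_[q])‖ = 1 := Padic.norm_natCast_eq_one_iff.2 hcop.symm
        split_ifs with hl
        · subst hl
          simp only [sub_zero, co]
          rw [hαY, hβY, pow_zero, pow_zero, mul_one, div_one]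
          push_cast
          exact Padic.norm_int_le_one _
        · have e1 : (p : ℚ) ≠ 0 := by exact_mod_cast hp.ne_zero
          have e1' : (q : ℚ) ≠ 0 := by exact_mod_cast hq.ne_zero
          have e0 : co h i l - co h i Y = ((w h i l - (p : ℤ) ^ α h l * (q : ℤ) ^ β h l *
              w h i Y : ℤ) : ℚ) / ((p : ℚ) ^ α h l * (q : ℚ) ^ β h l) := by
            simp only [co]
            rw [hαY, hβY]
            push_cast
            field_simp
          rw [e0]
          have e3 : ‖((((w h i l - (p : ℤ) ^ α h l * (q : ℤ) ^ β h l *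
              w h i Y : ℤ) : ℚ) / ((p : ℚ) ^ α h l * (q : ℚ) ^ β h l) : ℚ) : ℚ_[q])‖ =
              ‖((w h i l - (p : ℤ) ^ α h l * (q : ℤ) ^ β h l * w h i Y : ℤ) : ℚ_[q])‖ *
                (q : ℝ) ^ β h l := by
            rw [Rat.cast_div, Rat.cast_mul, Rat.cast_pow, Rat.cast_pow, Rat.cast_natCast,
              Rat.cast_natCast, Rat.cast_intCast, norm_div, norm_mul, norm_pow, norm_pow, e2,
              one_pow, one_mul, Padic.norm_p, inv_pow, div_inv_eq_mul]
          rw [e3]
          have e4 := (Padic.norm_int_le_pow_iff_dvd (p := q)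
            (w h i l - (p : ℤ) ^ α h l * (q : ℤ) ^ β h l * w h i Y) (K h)).2 (by
            exact_mod_cast hwq h i l hl)
          rw [zpow_neg, zpow_natCast] at e4
          calc _ ≤ ((q : ℝ) ^ K h)⁻¹ * (q : ℝ) ^ β h l :=
                mul_le_mul_of_nonneg_right e4 (by positivity)
            _ = ((q : ℝ) ^ (K h - β h l))⁻¹ := by
              have e5 : (q : ℝ) ^ K h = (q : ℝ) ^ (K h - β h l) * (q : ℝ) ^ β h l := by
                rw [← pow_add, Nat.sub_add_cancel (hβK h l)]
              rw [e5, mul_inv, mul_assoc, inv_mul_cancel₀ (by positivity), mul_one]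
      have hW : ∀ h l, Bd (Mq h l) (if l = Y then (1 : ℝ) else ((q : ℝ) ^ (K h - β h l))⁻¹) := by
        intro h l
        apply Bd.sum
        · split_ifs <;> positivity
        · intro i _
          have := (Bd.X (p := q) (h, i)).mul (Bd.C (σ := σ) (hco h i l))
          rwa [one_mul] at this
      have h3 : Bd (∑ J ∈ Dset m n r, dJ r Y (1 : MvPolynomial σ ℚ_[q]) c J *
          ∏ h, bterm j1 (k h) (J h) (Mq h)) ((q : ℝ) ^ F)⁻¹ := by
        apply Bd.sum _ _ (by positivity)
        intro J hJ
        have e6 : dJ r Y (1 : MvPolynomial σ ℚ_[q]) c J =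
            ((dJ r Y (1 : ℤ) c J : ℤ) : MvPolynomial σ ℚ_[q]) := by
          have := map_dJ (Int.castRingHom (MvPolynomial σ ℚ_[q])) r Y (1 : ℤ) c J
          simpa using this.symm
        by_cases hcJ : dJ r Y (1 : ℝ) c J = 0
        · have e7 : dJ r Y (1 : ℤ) c J = 0 := by
            have := map_dJ (Int.castRingHom ℝ) r Y (1 : ℤ) c J
            rw [map_one, hcJ] at this
            have e8 : ((dJ r Y (1 : ℤ) c J : ℤ) : ℝ) = 0 := by simpa using this
            exact_mod_cast e8
          rw [e6, e7, Int.cast_zero, zero_mul]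
          exact Bd.zero (by positivity)
        · rw [e6]
          have h4 := (Bd.intCast (σ := σ) (p := q) (dJ r Y (1 : ℤ) c J)).mul
            (Bd.prod Finset.univ _ _ (fun h _ => Bd.bterm j1 (k h) (J h) (Mq h) _ (hW h)))
          rw [one_mul] at h4
          refine h4.mono ?_
          rw [prod_inv_pow Y (q : ℝ) hq0 (fun h l => K h - β h l)
            (fun h l => J h l - if l = j1 then k h else 0)]
          apply inv_anti₀ (by positivity)
          exact pow_le_pow_right₀ (by exact_mod_cast hq.one_le) (hF J hJ hcJ)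
      exact h3 κ
    · -- real bound
      let Wr : Fin m → Fin n → MvPolynomial σ ℝ := fun h l =>
        ∑ i, MvPolynomial.X (h, i) * MvPolynomial.C ((co h i l : ℚ) : ℝ)
      have h1 : MvPolynomial.map (Rat.castHom ℝ) FQ = Sk r j1 k c Wr := by
        rw [map_Sk]
        congr 1
        funext h l
        simp only [WQ, Wr]
        rw [map_sum]
        apply Finset.sum_congr rfl
        intro i _
        rw [map_mul, MvPolynomial.map_X, MvPolynomial.map_C]
        rfl
      have h2 : ((FQ.coeff κ : ℚ) : ℝ) = (Sk r j1 k c Wr).coeff κ := by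
        rw [← h1, MvPolynomial.coeff_map]; rfl
      rw [h2]
      refine lt_of_le_of_lt (abs_coeff_le_l1 _ _) (lt_of_le_of_lt ?_ hsmall)
      unfold Pool.Agent.H393R2.Sk
      refine (l1_sum_le _ _).trans ?_
      apply Finset.sum_le_sum
      intro a _
      refine (l1_mul_le _ _).trans ?_
      have e1 : ((c a : ℤ) : MvPolynomial σ ℝ) = MvPolynomial.C (c a : ℝ) := by simp
      rw [e1, l1_C]
      apply mul_le_mul_of_nonneg_left _ (abs_nonneg _)
      refine (l1_prod_le _ _).trans ?_
      apply Finset.prod_le_prod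
      · intro h _; exact l1_nonneg _
      · intro h _
        apply l1_bterm_le
        intro l
        refine le_trans ?_ (hB h l)
        simp only [Wr]
        refine (l1_sum_le _ _).trans ?_
        apply Finset.sum_le_sum
        intro i _
        refine (l1_mul_le _ _).trans ?_
        rw [l1_X, l1_C, one_mul]
        simp only [co]
        push_cast
        exact le_refl _
  intro u
  have h1 := congrArg (MvPolynomial.eval (fun x : σ => u x.1 x.2))
    (congrArg (MvPolynomial.map (Rat.castHom ℝ)) hFQ)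
  simp only [FQ] at h1
  rw [map_Sk, map_Sk, map_zero, map_zero] at h1
  rw [← h1]
  congr 1
  funext h l
  simp only [WQ]
  rw [map_sum, map_sum]
  apply Finset.sum_congr rfl
  intro i _
  simp only [co]
  simp

end Pool.Agent.H547R3.Sub
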