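import Mathlib
import Pool.Agent.H547R3.Sub.Core
import Pool.Agent.H547R3.Sub.Bad
import Pool.Agent.H393R2.ThmA
import Pool.Agent.H393R2.Glue814
import Pool.Agent.H393R2.Geom4

set_option autoImplicit false

open Finset

namespace Pool.Agent.H547R3.Sub

open Pool.Agent.H393R2 (AuxPolyStmt RothStmt GeomStmt geom_apply exists_pq
  auxPolyStmt rothStmt geometry)

/-- The dual vectors in the coordinates of the lattice. -/
lemma transfer {s : ℕ} {p q : ℕ} [Fact p.Prime] [Fact q.Prime] (hpq : p ≠ q) (L K : ℕ)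
    (u : Fin (s + 1) → ℤ) :
    ∃ g : Fin (s + 1) → ℤ, (∀ j, (p : ℤ) ^ L ∣ g j) ∧ (∀ j, (q : ℤ) ^ K ∣ g j + u j) := by
  have hp : p.Prime := Fact.out
  have hq : q.Prime := Fact.out
  have hcop : p.Coprime q := (Nat.coprime_primes hp hq).2 hpq
  have h1 : IsCoprime ((p : ℤ) ^ L) ((q : ℤ) ^ K) :=
    IsCoprime.pow (Nat.isCoprime_iff_coprime.2 hcop)
  obtain ⟨a, b, hab⟩ := h1
  refine ⟨fun j => -(u j * a * (p : ℤ) ^ L), fun j => ?_, fun j => ?_⟩
  · exact (Dvd.intro_left _ rfl).neg_right
  · refine ⟨u j * b, ?_⟩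
    have : -(u j * a * (p : ℤ) ^ L) + u j = u j * (1 - a * (p : ℤ) ^ L) := by ring
    rw [this, ← hab]; ring

theorem bad_step (hAux : AuxPolyStmt) (hRoth : RothStmt) (hGeom : GeomStmt) {p q : ℕ}
    [Fact p.Prime] [Fact q.Prime] (hpq : p ≠ q) {s : ℕ}
    (hIH : ∀ δ : ℝ, 0 < δ → ¬ Bad p q s δ) (δ : ℝ) (hδ : 0 < δ) :
    ¬ Bad p q (s + 1) δ := by
  intro hB
  have hp : p.Prime := Fact.out
  have hq : q.Prime := Fact.out
  have hcop : p.Coprime q := (Nat.coprime_primes hp hq).2 hpq
  have hp0 : (0 : ℝ) < p := by exact_mod_cast hp.pos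
  have hq0' : (0 : ℝ) < q := by exact_mod_cast hq.pos
  have hpZ : (p : ℤ) ≠ 0 := by exact_mod_cast hp.ne_zero
  have hqZ : (q : ℤ) ≠ 0 := by exact_mod_cast hq.ne_zero
  have hlogp : 0 < Real.log p := Real.log_pos (by exact_mod_cast hp.one_lt)
  have hlogq : 0 < Real.log q := Real.log_pos (by exact_mod_cast hq.one_lt)
  obtain ⟨ε1', hε1', N1, hgap⟩ := gap hpq δ (δ / 2) hδ (by positivity) hIH
  obtain ⟨εu, hεu, Nu, hunif⟩ := not_bad_iff (hIH δ hδ)
  obtain ⟨j1, j2, hj1, hj12, hheights⟩ := heights hpq s δ hδ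
  obtain ⟨C, hC, hgeom⟩ := hGeom (s + 2) (by omega)
  set ε1 : ℝ := min ε1' (δ / 2) with hε1def
  have hε1 : 0 < ε1 := by rw [hε1def]; apply lt_min hε1'; positivity
  have hε11 : ε1 ≤ ε1' := min_le_left _ _
  have hε1δ : ε1 ≤ δ / 2 := min_le_right _ _
  set ε0 : ℝ := min (ε1 / 2) (min εu (δ / 8)) with hε0def
  have hε0 : 0 < ε0 := by
    rw [hε0def]; apply lt_min (by positivity); apply lt_min hεu; positivity
  have hε01 : ε0 ≤ ε1 / 2 := min_le_left _ _
  have hε0u : ε0 ≤ εu := le_trans (min_le_right _ _) (min_le_left _ _)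
  have hε0δ : ε0 ≤ δ / 8 := le_trans (min_le_right _ _) (min_le_right _ _)
  set Nmin : ℕ := max (max N1 Nu) (max 1 (max ⌈(4 * Real.log C + 1) / ε1⌉₊
    ⌈Real.log C + 1⌉₊)) with hNmin
  have hdata := fun t : ℕ => hB ε0 hε0 (max t Nmin)
  choose Nt hNt Lt Kt al be hadm lam hlam hle x hxp hxq hxle using hdata
  have hNt' : ∀ t, t ≤ Nt t := fun t => le_trans (le_max_left _ _) (hNt t)
  have hNm : ∀ t, Nmin ≤ Nt t := fun t => le_trans (le_max_right _ _) (hNt t)
  have hN1 : ∀ t, N1 ≤ Nt t := fun t => le_trans (by rw [hNmin]; simp) (hNm t)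
  have hNu : ∀ t, Nu ≤ Nt t := fun t => le_trans (by rw [hNmin]; simp) (hNm t)
  have hN11 : ∀ t, 1 ≤ Nt t := fun t => le_trans (by rw [hNmin]; simp) (hNm t)
  have hNc1 : ∀ t, ((4 * Real.log C + 1) / ε1) ≤ Nt t := by
    intro t
    refine le_trans (Nat.le_ceil _) ?_
    exact_mod_cast le_trans (by rw [hNmin]; simp) (hNm t)
  have hNc2 : ∀ t, (Real.log C + 1) ≤ Nt t := by
    intro t
    refine le_trans (Nat.le_ceil _) ?_
    exact_mod_cast le_trans (by rw [hNmin]; simp) (hNm t)
  have hNpos : ∀ t, (0 : ℝ) < Nt t := fun t => by exact_mod_cast hN11 t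
  -- nonvanishing coefficients
  have hlamne : ∀ t i, lam t i ≠ 0 := by
    intro t i h0
    have h2 : ∑ j, lam t j * ((p : ℤ) ^ al t j * (q : ℤ) ^ be t j) =
        ∑ k, lam t (i.succAbove k) * ((p : ℤ) ^ al t (i.succAbove k) *
          (q : ℤ) ^ be t (i.succAbove k)) := by
      rw [Fin.sum_univ_succAbove _ i, h0, zero_mul, zero_add]
    have h1 := hunif (Nt t) (hNu t) (Lt t) (Kt t) (fun k => al t (i.succAbove k))
      (fun k => be t (i.succAbove k))
      ((hadm t).comp _ Fin.succAbove_right_injective) (fun k => lam t (i.succAbove k))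
      (by
        intro hz
        apply hlam t
        funext l
        rcases Fin.eq_self_or_eq_succAbove i l with h1 | ⟨k, h1⟩
        · rw [h1]; exact h0
        · rw [h1]; exact congrFun hz k)
      (by
        intro k
        refine le_trans (hle t _) ?_
        apply Real.exp_le_exp.mpr
        exact mul_le_mul_of_nonneg_right hε0u (hNpos t).le) (x t) (hxp t)
      (by rw [← h2]; exact hxq t)
    exact absurd (hxle t) (not_le.mpr h1)
  -- the CRT coefficients
  choose g hgp hgq using fun t => transfer hpq (Lt t) (Kt t)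
    (fun j => (p : ℤ) ^ al t j * (q : ℤ) ^ be t j)
  set DZ : ℕ → ℤ := fun t => (p : ℤ) ^ Lt t * (q : ℤ) ^ Kt t with hDZ
  set D : ℕ → ℝ := fun t => (p : ℝ) ^ Lt t * (q : ℝ) ^ Kt t with hD
  have hDpos : ∀ t, 0 < D t := fun t => by simp only [hD]; positivity
  have hDD : ∀ t, ((DZ t : ℤ) : ℝ) = D t := fun t => by simp only [hDZ, hD]; push_cast; rfl
  have hDZ0 : ∀ t, DZ t ≠ 0 := fun t => mul_ne_zero (pow_ne_zero _ hpZ) (pow_ne_zero _ hqZ)
  have hcopt : ∀ t, IsCoprime ((p : ℤ) ^ Lt t) ((q : ℤ) ^ Kt t) := fun t =>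
    IsCoprime.pow (Nat.isCoprime_iff_coprime.2 hcop)
  -- integrality of the first coordinate
  have hz : ∀ t, ∃ z : ℤ, x t - ∑ j, g t j * lam t j = DZ t * z := by
    intro t
    apply (hcopt t).mul_dvd
    · apply (hxp t).sub
      exact Finset.dvd_sum (fun j _ => (hgp t j).mul_right _)
    · have h1 : x t - ∑ j, g t j * lam t j =
          (x t + ∑ j, lam t j * ((p : ℤ) ^ al t j * (q : ℤ) ^ be t j)) -
          ∑ j, (g t j + (p : ℤ) ^ al t j * (q : ℤ) ^ be t j) * lam t j := by
        have : ∑ j, (g t j + (p : ℤ) ^ al t j * (q : ℤ) ^ be t j) * lam t j =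
            ∑ j, g t j * lam t j + ∑ j, lam t j * ((p : ℤ) ^ al t j * (q : ℤ) ^ be t j) := by
          rw [← Finset.sum_add_distrib]
          apply Finset.sum_congr rfl
          intro j _; ring
        rw [this]; ring
      rw [h1]
      apply (hxq t).sub
      exact Finset.dvd_sum (fun j _ => (hgq t j).mul_right _)
  choose z hz using hz
  set θ : ℕ → Fin (s + 1) → ℝ := fun t j => (g t j : ℝ) / D t with hθ
  have hform : ∀ t (lam : Fin (s + 1) → ℤ) (P : ℤ), ∑ i, θ t i * (lam i : ℝ) - P =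
      ((DZ t * (-P) + ∑ j, g t j * lam j : ℤ) : ℝ) / D t := by
    intro t lam P
    push_cast
    rw [hDD, add_div, mul_div_assoc, mul_comm (D t), div_mul_cancel₀ _ (hDpos t).ne',
      Finset.sum_div]
    simp only [hθ]
    have : ∀ j, (g t j : ℝ) / D t * (lam j : ℝ) = (g t j : ℝ) * (lam j : ℝ) / D t := by
      intro j; ring
    simp only [this]
    ring
  have hga : ∀ t, ∃ (A : Fin (s + 2) → ℝ) (w : Fin (s + 1) → Fin (s + 2) → ℤ), (∀ l, 0 < A l) ∧
      (∀ l, |-Real.log (A l)| ≤ (2 * δ + 1) * (Nt t : ℝ)) ∧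
      (ε1 / 4 * (Nt t : ℝ) ≤ ∑ l, -Real.log (A l)) ∧ LinearIndependent ℤ w ∧
      (∀ i, ∑ l, (Fin.cons (-(-(z t))) (lam t) : Fin (s + 2) → ℤ) l * w i l = 0) ∧
      (∀ i, |(w i 0 : ℝ)| ≤ A 0) ∧ (∀ i (j : Fin (s + 1)),
        |(w i j.succ : ℝ) - θ t j * w i 0| ≤ A j.succ) := by
    intro t
    apply geom_apply C hC hgeom δ ε1 ε0 hδ hε1 hε0 hε01 hε1δ (Nt t : ℝ) (hNc1 t) (hNc2 t)
      (θ t) (lam t) (hlam t) (-(z t)) (hle t)
    · rw [hform, neg_neg, ← hz t, abs_div, abs_of_pos (hDpos t), div_le_iff₀ (hDpos t)]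
      have h1 : x t - ∑ j, g t j * lam t j + ∑ j, g t j * lam t j = x t := by ring
      rw [h1, mul_comm]
      exact hxle t
    · intro lam' P' h1 h2 h3
      rw [hform, abs_div, abs_of_pos (hDpos t), div_le_iff₀ (hDpos t)] at h2
      apply hgap (Nt t) (hN1 t) (Lt t) (Kt t) (al t) (be t) (hadm t) (lam t) lam' (x t)
        (DZ t * (-P') + ∑ j, g t j * lam' j) (hlam t)
      · intro i
        refine le_trans (hle t i) (Real.exp_le_exp.mpr ?_)
        apply mul_le_mul_of_nonneg_right _ (hNpos t).le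
        linarith
      · intro i
        refine le_trans (h1 i) (Real.exp_le_exp.mpr ?_)
        exact mul_le_mul_of_nonneg_right hε11 (hNpos t).le
      · exact hxp t
      · exact hxq t
      · apply dvd_add
        · exact Dvd.dvd.mul_right (Dvd.intro _ rfl) _
        · exact Finset.dvd_sum (fun j _ => (hgp t j).mul_right _)
      · have h4 : DZ t * (-P') + ∑ j, g t j * lam' j +
            ∑ j, lam' j * ((p : ℤ) ^ al t j * (q : ℤ) ^ be t j) =
            DZ t * (-P') + ∑ j, (g t j + (p : ℤ) ^ al t j * (q : ℤ) ^ be t j) * lam' j := by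
          rw [add_assoc, ← Finset.sum_add_distrib]
          congr 1
          apply Finset.sum_congr rfl
          intro j _; ring
        rw [h4]
        apply dvd_add
        · exact Dvd.dvd.mul_right (Dvd.intro_left _ rfl) _
        · exact Finset.dvd_sum (fun j _ => (hgq t j).mul_right _)
      · refine le_trans (hxle t) ?_
        apply mul_le_mul_of_nonneg_left _ (hDpos t).le
        apply Real.exp_le_exp.2
        have := hNpos t
        nlinarith
      · rw [mul_comm (Real.exp _) (D t)] at h2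
        exact h2
      · intro u v h4 h5
        apply h3 u v h4
        have h6 : DZ t * (u * (-(z t)) - v * P') = 0 := by
          have e1 : x t = DZ t * z t + ∑ j, g t j * lam t j := by rw [← hz t]; ring
          rw [e1] at h5
          have e2 : ∑ j, g t j * (u * lam t j - v * lam' j) = 0 := by
            apply Finset.sum_eq_zero
            intro j _
            rw [h4 j, mul_zero]
          have e3 : ∑ j, g t j * (u * lam t j - v * lam' j) =
              u * ∑ j, g t j * lam t j - v * ∑ j, g t j * lam' j := by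
            rw [Finset.mul_sum, Finset.mul_sum, ← Finset.sum_sub_distrib]
            apply Finset.sum_congr rfl
            intro j _; ring
          rw [e3] at e2
          linear_combination (-1 : ℤ) * h5 + e2
        rcases mul_eq_zero.1 h6 with h7 | h7
        · exact absurd h7 (hDZ0 t)
        · exact h7
  choose A w hApos hAlog hAsum hwind hworth hw0 hwj using hga
  -- the dual vectors
  set v : ℕ → Fin (s + 1) → Fin (s + 2) → ℤ := fun t i =>
    Fin.cons (w t i 0) (fun j => DZ t * w t i j.succ - g t j * w t i 0) with hv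
  choose P Q hPQ hrat hQ0 using fun t => exists_pq
    ((Fin.cons (x t) (lam t) : Fin (s + 2) → ℤ) j1 * ((p : ℤ) ^
            ((Fin.cons 0 (al t) : Fin (s + 2) → ℕ) j1) * (q : ℤ) ^
            ((Fin.cons 0 (be t) : Fin (s + 2) → ℕ) j1)))
    (-((Fin.cons (x t) (lam t) : Fin (s + 2) → ℤ) j2 * ((p : ℤ) ^
            ((Fin.cons 0 (al t) : Fin (s + 2) → ℕ) j2) * (q : ℤ) ^
            ((Fin.cons 0 (be t) : Fin (s + 2) → ℕ) j2))))
    (by
      obtain ⟨j, hj⟩ := Fin.exists_succ_eq.mpr hj1
      rw [← hj]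
      simp only [Fin.cons_succ]
      exact mul_ne_zero (hlamne t j) (mul_ne_zero (pow_ne_zero _ hpZ) (pow_ne_zero _ hqZ)))
  set c : ℝ := max 1 (4 / δ) + (2 * δ + 1) + Real.log p / δ + Real.log q / δ with hc
  have hc4 : (1 : ℝ) ≤ max 1 (4 / δ) := le_max_left _ _
  have hcp : 0 < Real.log p / δ := by positivity
  have hcq : 0 < Real.log q / δ := by positivity
  have hc1 : 1 ≤ c := by rw [hc]; linarith
  have hLN : ∀ t, (Lt t : ℝ) ≤ Nt t / δ := fun t => by
    rw [le_div_iff₀ hδ]; linarith [(hadm t).1]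
  have hKN : ∀ t, (Kt t : ℝ) ≤ Nt t / δ := fun t => by
    rw [le_div_iff₀ hδ]; linarith [(hadm t).2.1]
  have haL : ∀ t j, al t j ≤ Lt t := fun t j => by
    have h1 := (hadm t).2.2.1 j
    have h2 : 0 ≤ δ * (Nt t : ℝ) := mul_nonneg hδ.le (hNpos t).le
    have h3 : (al t j : ℝ) ≤ Lt t := by linarith
    exact_mod_cast h3
  have hbK : ∀ t j, be t j ≤ Kt t := fun t j => by
    have h1 := (hadm t).2.2.2.1 j
    have h2 : 0 ≤ δ * (Nt t : ℝ) := mul_nonneg hδ.le (hNpos t).le
    have h3 : (be t j : ℝ) ≤ Kt t := by linarith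
    exact_mod_cast h3
  refine core2 hAux hRoth (s + 1) (by omega) hpq 0 j1 j2 hj1 hj12 c (ε1 / 4) hc1
    (by positivity) (fun t => (Nt t : ℝ)) ?_ hNpos
    (fun t => (Fin.cons 0 (al t) : Fin (s + 2) → ℕ)) (fun t => (Fin.cons 0 (be t) : Fin (s + 2) → ℕ))
    (fun t => rfl) (fun t => rfl) Lt Kt ?_ ?_ ?_ ?_
    (fun t => (Fin.cons (x t) (lam t) : Fin (s + 2) → ℤ)) A hApos ?_ hAsum v ?_ ?_ ?_ ?_ ?_ ?_
    P Q hPQ (fun t => by rw [hrat t]; ring) hQ0 ?_
  · apply tendsto_natCast_atTop_atTop.comp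
    exact Filter.tendsto_atTop_mono hNt' Filter.tendsto_id
  · intro t l
    refine Fin.cases ?_ (fun j => ?_) l
    · simp
    · simp only [Fin.cons_succ]; exact haL t j
  · intro t l
    refine Fin.cases ?_ (fun j => ?_) l
    · simp
    · simp only [Fin.cons_succ]; exact hbK t j
  · intro t
    calc (Lt t : ℝ) * Real.log p ≤ Nt t / δ * Real.log p :=
          mul_le_mul_of_nonneg_right (hLN t) hlogp.le
      _ = Real.log p / δ * Nt t := by ring
      _ ≤ c * Nt t := by
        apply mul_le_mul_of_nonneg_right _ (hNpos t).le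
        rw [hc]; linarith
  · intro t
    calc (Kt t : ℝ) * Real.log q ≤ Nt t / δ * Real.log q :=
          mul_le_mul_of_nonneg_right (hKN t) hlogq.le
      _ = Real.log q / δ * Nt t := by ring
      _ ≤ c * Nt t := by
        apply mul_le_mul_of_nonneg_right _ (hNpos t).le
        rw [hc]; linarith
  · intro t l
    refine le_trans (hAlog t l) ?_
    apply mul_le_mul_of_nonneg_right _ (hNpos t).le
    rw [hc]; linarith
  · -- independence
    intro t
    have hw := hwind t
    rw [Fintype.linearIndependent_iff] at hw ⊢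
    intro a ha
    apply hw a
    have h0 : ∑ i, a i * w t i 0 = 0 := by
      have := congrFun ha 0
      rw [Finset.sum_apply] at this
      simpa [hv] using this
    funext l
    rw [Finset.sum_apply]
    refine Fin.cases ?_ (fun j => ?_) l
    · simpa using h0
    · have h1 := congrFun ha j.succ
      rw [Finset.sum_apply] at h1
      have h2 : ∑ i, a i * (DZ t * w t i j.succ - g t j * w t i 0) = 0 := by
        simpa [hv] using h1
      have h3 : DZ t * ∑ i, a i * w t i j.succ = 0 := by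
        have e1 : ∑ i, a i * (DZ t * w t i j.succ - g t j * w t i 0) =
            DZ t * ∑ i, a i * w t i j.succ - g t j * ∑ i, a i * w t i 0 := by
          rw [Finset.mul_sum, Finset.mul_sum, ← Finset.sum_sub_distrib]
          apply Finset.sum_congr rfl
          intro i _; ring
        rw [e1, h0, mul_zero, sub_zero] at h2
        exact h2
      rcases mul_eq_zero.1 h3 with h4 | h4
      · exact absurd h4 (hDZ0 t)
      · simpa using h4
  · -- orthogonality
    intro t i
    have h1 := hworth t i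
    rw [Fin.sum_univ_succ] at h1 ⊢
    simp only [Fin.cons_zero, Fin.cons_succ, hv] at h1 ⊢
    have e1 : x t = DZ t * z t + ∑ j, g t j * lam t j := by rw [← hz t]; ring
    have e2 : ∑ j, lam t j * (DZ t * w t i j.succ - g t j * w t i 0) =
        DZ t * ∑ j, lam t j * w t i j.succ - (∑ j, g t j * lam t j) * w t i 0 := by
      rw [Finset.mul_sum, Finset.sum_mul, ← Finset.sum_sub_distrib]
      apply Finset.sum_congr rfl
      intro j _; ring
    rw [e2, e1]
    linear_combination DZ t * h1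
  · -- p-divisibility
    intro t i l hl
    obtain ⟨j, rfl⟩ := Fin.exists_succ_eq.mpr hl
    simp only [hv, Fin.cons_succ]
    apply dvd_sub
    · exact Dvd.dvd.mul_right (Dvd.intro _ rfl) _
    · exact (hgp t j).mul_right _
  · -- q-divisibility
    intro t i l hl
    obtain ⟨j, rfl⟩ := Fin.exists_succ_eq.mpr hl
    simp only [hv, Fin.cons_succ, Fin.cons_zero]
    have e1 : DZ t * w t i j.succ - g t j * w t i 0 -
        (p : ℤ) ^ al t j * (q : ℤ) ^ be t j * w t i 0 =
        DZ t * w t i j.succ - (g t j + (p : ℤ) ^ al t j * (q : ℤ) ^ be t j) * w t i 0 := by ring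
    rw [e1]
    apply dvd_sub
    · exact Dvd.dvd.mul_right (Dvd.intro_left _ rfl) _
    · exact (hgq t j).mul_right _
  · -- sizes
    intro t i l
    refine Fin.cases ?_ (fun j => ?_) l
    · simp only [hv, Fin.cons_zero, if_true, mul_one]
      exact hw0 t i
    · rw [if_neg (Fin.succ_ne_zero j)]
      simp only [hv, Fin.cons_succ]
      have h1 := hwj t i j
      have e1 : ((DZ t * w t i j.succ - g t j * w t i 0 : ℤ) : ℝ) =
          ((w t i j.succ : ℝ) - θ t j * w t i 0) * D t := by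
        push_cast
        rw [hDD]
        simp only [hθ]
        have := (hDpos t).ne'
        field_simp
      rw [e1, abs_mul, abs_of_pos (hDpos t)]
      exact mul_le_mul_of_nonneg_right h1 (hDpos t).le
  · intro t
    obtain ⟨j, hj⟩ := Fin.exists_succ_eq.mpr hj1
    rw [← hj]
    simp only [Fin.cons_succ]
    exact hlamne t j
  · intro t
    have h1 := hheights (Nt t) (hN11 t) (Lt t) (Kt t) (al t) (be t) (hadm t) (lam t) (x t)
      (hlamne t)
      (by
        intro i
        refine le_trans (hle t i) (Real.exp_le_exp.mpr ?_)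
        exact mul_le_mul_of_nonneg_right hε0δ (hNpos t).le) (hxp t) (hxq t) (P t) (Q t) (hQ0 t)
      (by rw [hrat t]; ring)
    refine le_trans ?_ h1
    apply div_le_div_of_nonneg_left (hNpos t).le (by linarith)
    rw [hc]; linarith

theorem not_bad {p q : ℕ} [Fact p.Prime] [Fact q.Prime] (hpq : p ≠ q) :
    ∀ (s : ℕ) (δ : ℝ), 0 < δ → ¬ Bad p q s δ := by
  intro s
  induction s with
  | zero =>
    intro δ _ hB
    obtain ⟨N, _, _, _, _, _, _, lam, hlam, _⟩ := hB 1 one_pos 0
    apply hlam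
    funext i
    exact Fin.elim0 i
  | succ s ih =>
    intro δ hδ
    exact bad_step auxPolyStmt rothStmt (fun n hn => geometry n hn) hpq ih δ hδ

end Pool.Agent.H547R3.Sub
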