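import Mathlib
import Pool.Agent.H547R3.Sub.Thm

set_option autoImplicit false

open Finset

namespace Pool.Agent.H547R3.Sub

lemma zero_of_small {p q : ℕ} [Fact p.Prime] [Fact q.Prime] (hpq : p ≠ q) {L K : ℕ} {x : ℤ}
    (h1 : (p : ℤ) ^ L ∣ x) (h2 : (q : ℤ) ^ K ∣ x)
    (h3 : |(x : ℝ)| < (p : ℝ) ^ L * (q : ℝ) ^ K) : x = 0 := by
  have hp : p.Prime := Fact.out
  have hq : q.Prime := Fact.out
  have hcop : p.Coprime q := (Nat.coprime_primes hp hq).2 hpq
  by_contra hne
  have h4 : (p : ℤ) ^ L * (q : ℤ) ^ K ∣ x := by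
    apply IsCoprime.mul_dvd _ h1 h2
    apply IsCoprime.pow
    exact Nat.isCoprime_iff_coprime.2 hcop
  have h5 := Int.le_of_dvd (abs_pos.2 hne) ((dvd_abs _ _).2 h4)
  have h6 : (p : ℝ) ^ L * (q : ℝ) ^ K ≤ |(x : ℝ)| := by exact_mod_cast h5
  linarith

lemma pow_le_exp {p : ℕ} [Fact p.Prime] {a b : ℕ} {T : ℝ} (h : |(a : ℝ) - b| ≤ T) :
    (p : ℝ) ^ (a - min a b) ≤ Real.exp (T * Real.log p) := by
  have hp : p.Prime := Fact.out
  have hp0 : (0 : ℝ) < p := by exact_mod_cast hp.pos
  have hlogp : 0 < Real.log p := Real.log_pos (by exact_mod_cast hp.one_lt)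
  have h1 : (p : ℝ) ^ (a - min a b) = Real.exp ((a - min a b : ℕ) * Real.log p) := by
    rw [Real.exp_nat_mul, Real.exp_log hp0]
  rw [h1]
  apply Real.exp_le_exp.2
  apply mul_le_mul_of_nonneg_right _ hlogp.le
  rcases le_total a b with h2 | h2
  · rw [min_eq_left h2, Nat.sub_self, Nat.cast_zero]
    exact (abs_nonneg _).trans h
  · rw [min_eq_right h2, Nat.cast_sub h2]
    exact (le_abs_self _).trans h

/-- The subspace theorem for sums of `D` terms, no separation needed. -/
theorem merge {p q : ℕ} [Fact p.Prime] [Fact q.Prime] (hpq : p ≠ q) (D : ℕ) :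
    ∀ δ : ℝ, 0 < δ →
    ∃ ε : ℝ, 0 < ε ∧ ∃ N0 : ℕ, ∀ N : ℕ, N0 ≤ N → ∀ (L K : ℕ) (α β : Fin D → ℕ),
      δ * L ≤ N → δ * K ≤ N → (∀ i, (α i : ℝ) + δ * N ≤ L) → (∀ i, (β i : ℝ) + δ * N ≤ K) →
      ∀ lam : Fin D → ℤ, (∀ j, |(lam j : ℝ)| ≤ Real.exp (ε * N)) → ∀ x : ℤ,
      (p : ℤ) ^ L ∣ x → (q : ℤ) ^ K ∣ x + ∑ j, lam j * ((p : ℤ) ^ α j * (q : ℤ) ^ β j) →
      |(x : ℝ)| ≤ (p : ℝ) ^ L * (q : ℝ) ^ K * Real.exp (-(δ * N)) → x = 0 := by
  have hp : p.Prime := Fact.out
  have hq : q.Prime := Fact.out
  have hp0 : (0 : ℝ) < p := by exact_mod_cast hp.pos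
  have hq0 : (0 : ℝ) < q := by exact_mod_cast hq.pos
  have hlogp : 0 < Real.log p := Real.log_pos (by exact_mod_cast hp.one_lt)
  have hlogq : 0 < Real.log q := Real.log_pos (by exact_mod_cast hq.one_lt)
  have hlt : ∀ (δ : ℝ), 0 < δ → ∀ N : ℕ, 1 ≤ N → ∀ (L K : ℕ),
      (p : ℝ) ^ L * (q : ℝ) ^ K * Real.exp (-(δ * N)) < (p : ℝ) ^ L * (q : ℝ) ^ K := by
    intro δ hδ N hN L K
    have h1 : Real.exp (-(δ * N)) < 1 := by
      rw [Real.exp_lt_one_iff]
      have : (1 : ℝ) ≤ N := by exact_mod_cast hN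
      have : 0 < δ * N := by positivity
      linarith
    have h2 : 0 < (p : ℝ) ^ L * (q : ℝ) ^ K := by positivity
    nlinarith
  induction D with
  | zero =>
    intro δ hδ
    refine ⟨1, one_pos, 1, ?_⟩
    intro N hN L K α β _ _ _ _ lam _ x hxp hxq hx
    apply zero_of_small hpq hxp
    · simpa using hxq
    · exact lt_of_le_of_lt hx (hlt δ hδ N hN L K)
  | succ D ih =>
    intro δ hδ
    obtain ⟨ε', hε', N1, h1⟩ := ih δ hδ
    set G : ℝ := Real.log p + Real.log q with hG
    have hG0 : 0 < G := by positivity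
    set δ' : ℝ := min δ (ε' / (4 * G)) with hδ'
    have hδ'0 : 0 < δ' := by rw [hδ']; apply lt_min hδ; positivity
    have hδ'1 : δ' ≤ δ := min_le_left _ _
    have hδ'2 : δ' * G ≤ ε' / 4 := by
      have : δ' ≤ ε' / (4 * G) := min_le_right _ _
      calc δ' * G ≤ ε' / (4 * G) * G := mul_le_mul_of_nonneg_right this hG0.le
        _ = ε' / 4 := by field_simp
    obtain ⟨ε2, hε2, N2, h2⟩ := not_bad_iff (not_bad hpq (D + 1) δ' hδ'0)
    set ε : ℝ := min ε2 (ε' / 4) with hεd
    have hε : 0 < ε := by rw [hεd]; apply lt_min hε2; positivity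
    have hεε : ε ≤ ε' / 4 := min_le_right _ _
    refine ⟨ε, hε, max (max 1 N1) (max N2 ⌈2 / ε'⌉₊), ?_⟩
    intro N hN L K α β hL hK hα hβ lam hlam x hxp hxq hx
    have hN1 : N1 ≤ N := le_trans (le_max_right _ _) (le_trans (le_max_left _ _) hN)
    have hN11 : 1 ≤ N := le_trans (le_max_left _ _) (le_trans (le_max_left _ _) hN)
    have hN2 : N2 ≤ N := le_trans (le_trans (le_max_left _ _) (le_max_right _ _)) hN
    have hN3 : 2 / ε' ≤ N := by
      refine le_trans (Nat.le_ceil _) ?_
      exact_mod_cast le_trans (le_trans (le_max_right _ _) (le_max_right _ _)) hN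
    have hN0 : (0 : ℝ) ≤ N := Nat.cast_nonneg _
    have hδN : δ' * N ≤ δ * N := mul_le_mul_of_nonneg_right hδ'1 hN0
    have htwo : 2 ≤ Real.exp (ε' / 2 * N) := by
      apply two_le_exp'
      rw [div_le_iff₀ hε'] at hN3
      linarith
    by_cases hsep : ∀ i j, i ≠ j → δ' * N ≤ |(α i : ℝ) - α j| ∨ δ' * N ≤ |(β i : ℝ) - β j|
    · by_cases hl0 : lam = 0
      · rw [hl0] at hxq
        apply zero_of_small hpq hxp
        · simpa using hxq
        · exact lt_of_le_of_lt hx (hlt δ hδ N hN11 L K)
      · exfalso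
        have h3 := h2 N hN2 L K α β
          ⟨(mul_le_mul_of_nonneg_right hδ'1 (Nat.cast_nonneg _)).trans hL,
            (mul_le_mul_of_nonneg_right hδ'1 (Nat.cast_nonneg _)).trans hK,
            fun i => by linarith [hα i], fun i => by linarith [hβ i], hsep⟩ lam hl0
          (fun j => le_trans (hlam j) (Real.exp_le_exp.mpr
            (mul_le_mul_of_nonneg_right (min_le_left _ _) hN0))) x hxp hxq
        have h4 : (p : ℝ) ^ L * (q : ℝ) ^ K * Real.exp (-(δ * N)) ≤
            (p : ℝ) ^ L * (q : ℝ) ^ K * Real.exp (-(δ' * N)) := by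
          apply mul_le_mul_of_nonneg_left _ (by positivity)
          apply Real.exp_le_exp.2
          linarith
        linarith
    · push Not at hsep
      obtain ⟨i, j, hij, hlta, hltb⟩ := hsep
      obtain ⟨k, hk⟩ := Fin.exists_succAbove_eq (Ne.symm hij)
      set α' : Fin D → ℕ := fun l => if l = k then min (α i) (α j) else α (i.succAbove l) with hα'
      set β' : Fin D → ℕ := fun l => if l = k then min (β i) (β j) else β (i.succAbove l) with hβ'
      set lam' : Fin D → ℤ := fun l => if l = k then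
        lam i * ((p : ℤ) ^ (α i - min (α i) (α j)) * (q : ℤ) ^ (β i - min (β i) (β j))) +
        lam j * ((p : ℤ) ^ (α j - min (α i) (α j)) * (q : ℤ) ^ (β j - min (β i) (β j)))
        else lam (i.succAbove l) with hlam'
      have hsumZ : ∑ l, lam' l * ((p : ℤ) ^ (α' l) * (q : ℤ) ^ (β' l)) =
          ∑ l, lam l * ((p : ℤ) ^ (α l) * (q : ℤ) ^ (β l)) := by
        rw [Fin.sum_univ_succAbove _ i]
        rw [← Finset.add_sum_erase _ _ (Finset.mem_univ k),
          ← Finset.add_sum_erase _ (fun l => lam (i.succAbove l) *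
            ((p : ℤ) ^ (α (i.succAbove l)) * (q : ℤ) ^ (β (i.succAbove l)))) (Finset.mem_univ k)]
        rw [← add_assoc]
        congr 1
        · simp only [hlam', hα', hβ', if_true, hk]
          have e1 : (p : ℤ) ^ α i = (p : ℤ) ^ (α i - min (α i) (α j)) *
              (p : ℤ) ^ (min (α i) (α j)) := by
            rw [← pow_add]; congr 1; have := min_le_left (α i) (α j); omega
          have e2 : (p : ℤ) ^ α j = (p : ℤ) ^ (α j - min (α i) (α j)) *
              (p : ℤ) ^ (min (α i) (α j)) := by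
            rw [← pow_add]; congr 1; have := min_le_right (α i) (α j); omega
          have e3 : (q : ℤ) ^ β i = (q : ℤ) ^ (β i - min (β i) (β j)) *
              (q : ℤ) ^ (min (β i) (β j)) := by
            rw [← pow_add]; congr 1; have := min_le_left (β i) (β j); omega
          have e4 : (q : ℤ) ^ β j = (q : ℤ) ^ (β j - min (β i) (β j)) *
              (q : ℤ) ^ (min (β i) (β j)) := by
            rw [← pow_add]; congr 1; have := min_le_right (β i) (β j); omega
          rw [e1, e2, e3, e4]
          ring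
        · apply Finset.sum_congr rfl
          intro l hl
          have hlk : l ≠ k := by simpa using hl
          simp only [hlam', hα', hβ', if_neg hlk]
      refine h1 N hN1 L K α' β' hL hK ?_ ?_ lam' ?_ x hxp ?_ hx
      · intro l
        simp only [hα']
        split_ifs
        · have h3 : ((min (α i) (α j) : ℕ) : ℝ) ≤ α i := by exact_mod_cast min_le_left _ _
          linarith [hα i]
        · exact hα _
      · intro l
        simp only [hβ']
        split_ifs
        · have h3 : ((min (β i) (β j) : ℕ) : ℝ) ≤ β i := by exact_mod_cast min_le_left _ _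
          linarith [hβ i]
        · exact hβ _
      · intro l
        have hq4 : Real.exp (ε * N) ≤ Real.exp (ε' / 4 * N) :=
          Real.exp_le_exp.2 (mul_le_mul_of_nonneg_right hεε hN0)
        simp only [hlam']
        split_ifs
        · have a1 := pow_le_exp (p := p) (a := α i) (b := α j) hlta.le
          have a2 := pow_le_exp (p := p) (a := α j) (b := α i) (T := δ' * N)
            (by rw [abs_sub_comm]; exact hlta.le)
          have b1 := pow_le_exp (p := q) (a := β i) (b := β j) hltb.le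
          have b2 := pow_le_exp (p := q) (a := β j) (b := β i) (T := δ' * N)
            (by rw [abs_sub_comm]; exact hltb.le)
          rw [min_comm] at a2 b2
          have hGN : Real.exp (δ' * N * Real.log p) * Real.exp (δ' * N * Real.log q) ≤
              Real.exp (ε' / 4 * N) := by
            rw [← Real.exp_add]
            apply Real.exp_le_exp.2
            have : δ' * N * Real.log p + δ' * N * Real.log q = δ' * G * N := by rw [hG]; ring
            rw [this]
            exact mul_le_mul_of_nonneg_right hδ'2 hN0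
          have hterm : ∀ (m : ℤ) (u v : ℝ), |(m : ℝ)| ≤ Real.exp (ε * N) → 0 ≤ u → 0 ≤ v →
              u ≤ Real.exp (δ' * N * Real.log p) → v ≤ Real.exp (δ' * N * Real.log q) →
              |(m : ℝ)| * (u * v) ≤ Real.exp (ε' / 2 * N) := by
            intro m u v hm hu hv hu1 hv1
            calc |(m : ℝ)| * (u * v) ≤ Real.exp (ε' / 4 * N) * Real.exp (ε' / 4 * N) := by
                  apply mul_le_mul (hm.trans hq4) _ (by positivity) (Real.exp_pos _).le
                  exact (mul_le_mul hu1 hv1 hv (Real.exp_pos _).le).trans hGN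
              _ = Real.exp (ε' / 2 * N) := by rw [← Real.exp_add]; congr 1; ring
          have t1 := hterm (lam i) _ _ (hlam i) (by positivity) (by positivity) a1 b1
          have t2 := hterm (lam j) _ _ (hlam j) (by positivity) (by positivity) a2 b2
          push_cast
          refine (abs_add_le _ _).trans ?_
          rw [abs_mul (lam i : ℝ), abs_mul (lam j : ℝ), abs_of_nonneg (by positivity : (0 : ℝ) ≤
            (p : ℝ) ^ (α i - min (α i) (α j)) * (q : ℝ) ^ (β i - min (β i) (β j))),
            abs_of_nonneg (by positivity : (0 : ℝ) ≤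
            (p : ℝ) ^ (α j - min (α i) (α j)) * (q : ℝ) ^ (β j - min (β i) (β j)))]
          calc _ ≤ Real.exp (ε' / 2 * N) + Real.exp (ε' / 2 * N) := add_le_add t1 t2
            _ = 2 * Real.exp (ε' / 2 * N) := by ring
            _ ≤ Real.exp (ε' / 2 * N) * Real.exp (ε' / 2 * N) :=
              mul_le_mul_of_nonneg_right htwo (Real.exp_pos _).le
            _ = Real.exp (ε' * N) := by rw [← Real.exp_add]; congr 1; ring
        · refine (hlam _).trans (hq4.trans ?_)
          apply Real.exp_le_exp.2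
          nlinarith
      · rw [hsumZ]; exact hxq

end Pool.Agent.H547R3.Sub
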