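import Mathlib

set_option autoImplicit false

open Finset

namespace Pool.Agent.H547R3.Sub

/-- `κ(a,b) = e a + ... + e (b-1)` -/
def kap (e : ℕ → ℕ) (a b : ℕ) : ℕ := ∑ j ∈ Finset.Ico a b, e j

lemma kap_self (e : ℕ → ℕ) (a : ℕ) : kap e a a = 0 := by simp [kap]

lemma kap_succ (e : ℕ → ℕ) {a b : ℕ} (h : a ≤ b) : kap e a (b + 1) = kap e a b + e b := by
  unfold kap
  rw [Finset.sum_Ico_succ_top h]

lemma kap_add (e : ℕ → ℕ) {a b c : ℕ} (h1 : a ≤ b) (h2 : b ≤ c) :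
    kap e a c = kap e a b + kap e b c := by
  unfold kap
  rw [Finset.sum_Ico_consecutive _ h1 h2]

lemma kap_le (e : ℕ → ℕ) {E a b : ℕ} (h : ∀ j, a ≤ j → j < b → e j ≤ E) :
    kap e a b ≤ E * (b - a) := by
  unfold kap
  calc ∑ j ∈ Finset.Ico a b, e j ≤ ∑ _j ∈ Finset.Ico a b, E := by
        apply Finset.sum_le_sum
        intro j hj
        rw [Finset.mem_Ico] at hj
        exact h j hj.1 hj.2
    _ = E * (b - a) := by rw [Finset.sum_const, Nat.card_Ico, smul_eq_mul, mul_comm]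

/-- a product over all the possible denominators -/
def bigM (p q ℓ E : ℕ) : ℤ :=
  ∏ i ∈ Finset.Icc 1 ℓ, ∏ g ∈ Finset.range (E * ℓ + 1), ((p : ℤ) ^ i - (q : ℤ) ^ g)

lemma pow_ne_pow {p q : ℕ} (hp : p.Prime) (hq : q.Prime) (hpq : p ≠ q) {i g : ℕ} (hi : 1 ≤ i) :
    (p : ℤ) ^ i - (q : ℤ) ^ g ≠ 0 := by
  intro h
  have h1 : (p : ℤ) ^ i = (q : ℤ) ^ g := by linarith
  have h2 : p ^ i = q ^ g := by exact_mod_cast h1
  have h3 : p ∣ q ^ g := by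
    rw [← h2]; exact dvd_pow_self p (by omega)
  have h4 := hp.dvd_of_dvd_pow h3
  exact hpq ((Nat.prime_dvd_prime_iff_eq hp hq).1 h4)

lemma bigM_ne {p q : ℕ} (hp : p.Prime) (hq : q.Prime) (hpq : p ≠ q) (ℓ E : ℕ) :
    bigM p q ℓ E ≠ 0 := by
  unfold bigM
  apply Finset.prod_ne_zero_iff.2
  intro i hi
  apply Finset.prod_ne_zero_iff.2
  intro g _
  exact pow_ne_pow hp hq hpq (Finset.mem_Icc.1 hi).1

lemma dvd_bigM {p q ℓ E i g : ℕ} (hi : 1 ≤ i) (hil : i ≤ ℓ) (hg : g ≤ E * ℓ) :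
    (p : ℤ) ^ i - (q : ℤ) ^ g ∣ bigM p q ℓ E := by
  unfold bigM
  have h1 : (p : ℤ) ^ i - (q : ℤ) ^ g ∣
      ∏ g ∈ Finset.range (E * ℓ + 1), ((p : ℤ) ^ i - (q : ℤ) ^ g) :=
    Finset.dvd_prod_of_mem (fun g => (p : ℤ) ^ i - (q : ℤ) ^ g) (Finset.mem_range.2 (by omega))
  exact h1.trans (Finset.dvd_prod_of_mem (fun i => ∏ g ∈ Finset.range (E * ℓ + 1),
    ((p : ℤ) ^ i - (q : ℤ) ^ g)) (Finset.mem_Icc.2 ⟨hi, hil⟩))

/-- the constant in the bound for the fixed points -/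
noncomputable def bigC (p q ℓ E : ℕ) : ℝ :=
  |((bigM p q ℓ E : ℤ) : ℝ)| * (ℓ * ((p : ℝ) * (q : ℝ) ^ E) ^ ℓ)

/-- bound for the inhomogeneous part -/
lemma rem_le {p q E : ℕ} (hp : 1 ≤ p) (hq : 1 ≤ q) (x : ℕ → ℤ) (e : ℕ → ℕ) (r : ℕ → ℤ) (ρ : ℝ)
    (hρ : 0 ≤ ρ) {a b : ℕ} (hab : a ≤ b)
    (hrec : ∀ j, a ≤ j → j < b → (p : ℤ) * x (j + 1) = (q : ℤ) ^ e j * x j + r j ∧ e j ≤ E ∧
      |(r j : ℝ)| ≤ ρ) :
    |(((p : ℤ) ^ (b - a) * x b - (q : ℤ) ^ kap e a b * x a : ℤ) : ℝ)| ≤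
      ((b - a : ℕ) : ℝ) * ρ * ((p : ℝ) * (q : ℝ) ^ E) ^ (b - a) := by
  have hpR : (1 : ℝ) ≤ p := by exact_mod_cast hp
  have hqR : (1 : ℝ) ≤ q := by exact_mod_cast hq
  induction b, hab using Nat.le_induction with
  | base => simp [kap_self]
  | succ b hab ih =>
    have ih' := ih (fun j h1 h2 => hrec j h1 (by omega))
    obtain ⟨h1, h2, h3⟩ := hrec b hab (by omega)
    have e1 : b + 1 - a = (b - a) + 1 := by omega
    have e2 : (((p : ℤ) ^ (b + 1 - a) * x (b + 1) - (q : ℤ) ^ kap e a (b + 1) * x a : ℤ) : ℝ) =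
        (q : ℝ) ^ e b * (((p : ℤ) ^ (b - a) * x b - (q : ℤ) ^ kap e a b * x a : ℤ) : ℝ) +
        (p : ℝ) ^ (b - a) * r b := by
      have h4 : (p : ℤ) ^ (b + 1 - a) * x (b + 1) - (q : ℤ) ^ kap e a (b + 1) * x a =
          (q : ℤ) ^ e b * ((p : ℤ) ^ (b - a) * x b - (q : ℤ) ^ kap e a b * x a) +
          (p : ℤ) ^ (b - a) * r b := by
        rw [e1, kap_succ e hab, pow_succ, pow_add]
        linear_combination (p : ℤ) ^ (b - a) * h1
      rw [h4]; push_cast; ring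
    rw [e2, e1]
    set B : ℝ := (p : ℝ) * (q : ℝ) ^ E with hB
    have hqE : (1 : ℝ) ≤ (q : ℝ) ^ E := one_le_pow₀ hqR
    have hpB : (p : ℝ) ≤ B := le_mul_of_one_le_right (by linarith) hqE
    have hB1 : 1 ≤ B := hpR.trans hpB
    have hqeB : (q : ℝ) ^ e b ≤ B := by
      calc (q : ℝ) ^ e b ≤ (q : ℝ) ^ E := pow_le_pow_right₀ hqR h2
        _ ≤ B := le_mul_of_one_le_left (by positivity) hpR
    have hpm : (p : ℝ) ^ (b - a) ≤ B ^ (b - a + 1) := by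
      calc (p : ℝ) ^ (b - a) ≤ B ^ (b - a) := pow_le_pow_left₀ (by linarith) hpB _
        _ ≤ B ^ (b - a + 1) := pow_le_pow_right₀ hB1 (by omega)
    refine (abs_add_le _ _).trans ?_
    rw [abs_mul, abs_mul, abs_of_nonneg (by positivity : (0 : ℝ) ≤ (q : ℝ) ^ e b),
      abs_of_nonneg (by positivity : (0 : ℝ) ≤ (p : ℝ) ^ (b - a))]
    have t1 : (q : ℝ) ^ e b * |(((p : ℤ) ^ (b - a) * x b - (q : ℤ) ^ kap e a b * x a : ℤ) : ℝ)| ≤
        B * (((b - a : ℕ) : ℝ) * ρ * B ^ (b - a)) :=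
      mul_le_mul hqeB ih' (abs_nonneg _) (by positivity)
    have t2 : (p : ℝ) ^ (b - a) * |(r b : ℝ)| ≤ B ^ (b - a + 1) * ρ :=
      mul_le_mul hpm h3 (abs_nonneg _) (by positivity)
    refine (add_le_add t1 t2).trans (le_of_eq ?_)
    rw [pow_succ]
    push_cast
    ring

/-- size bound -/
lemma size_le {p q : ℕ} (hp : 2 ≤ p) (hq : 1 ≤ q) (x : ℕ → ℤ) (e : ℕ → ℕ) (r : ℕ → ℤ) (ρ : ℝ)
    (hρ : 0 ≤ ρ) {a b : ℕ} (hab : a ≤ b)
    (hrec : ∀ j, a ≤ j → j < b → (p : ℤ) * x (j + 1) = (q : ℤ) ^ e j * x j + r j ∧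
      |(r j : ℝ)| ≤ ρ) :
    (p : ℝ) ^ (b - a) * |(x b : ℝ)| ≤ (q : ℝ) ^ kap e a b * (|(x a : ℝ)| + ρ * (p : ℝ) ^ (b - a)) := by
  have hpR : (2 : ℝ) ≤ p := by exact_mod_cast hp
  have hqR : (1 : ℝ) ≤ q := by exact_mod_cast hq
  induction b, hab using Nat.le_induction with
  | base =>
    simp only [Nat.sub_self, pow_zero, one_mul, kap_self, mul_one]
    linarith
  | succ b hab ih =>
    have ih' := ih (fun j h1 h2 => hrec j h1 (by omega))
    obtain ⟨h1, h3⟩ := hrec b hab (by omega)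
    have e1 : b + 1 - a = (b - a) + 1 := by omega
    have h1R : (p : ℝ) * (x (b + 1) : ℝ) = (q : ℝ) ^ e b * (x b : ℝ) + r b := by exact_mod_cast h1
    have hqe : (1 : ℝ) ≤ (q : ℝ) ^ e b := one_le_pow₀ hqR
    have hqk : (1 : ℝ) ≤ (q : ℝ) ^ kap e a b := one_le_pow₀ hqR
    have h4 : (p : ℝ) * |(x (b + 1) : ℝ)| ≤ (q : ℝ) ^ e b * |(x b : ℝ)| + ρ := by
      have h5 : (p : ℝ) * |(x (b + 1) : ℝ)| = |(q : ℝ) ^ e b * (x b : ℝ) + r b| := by
        rw [← h1R, abs_mul, abs_of_pos (by linarith : (0 : ℝ) < p)]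
      rw [h5]
      refine (abs_add_le _ _).trans ?_
      rw [abs_mul, abs_of_nonneg (by positivity : (0 : ℝ) ≤ (q : ℝ) ^ e b)]
      linarith
    rw [e1, kap_succ e hab, pow_succ, pow_add]
    have hpm : (0 : ℝ) < (p : ℝ) ^ (b - a) := by positivity
    have h6 : (p : ℝ) ^ (b - a) * p * |(x (b + 1) : ℝ)| ≤
        (q : ℝ) ^ e b * ((p : ℝ) ^ (b - a) * |(x b : ℝ)|) + (p : ℝ) ^ (b - a) * ρ := by
      have := mul_le_mul_of_nonneg_left h4 hpm.le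
      nlinarith
    have h7 : (q : ℝ) ^ e b * ((p : ℝ) ^ (b - a) * |(x b : ℝ)|) ≤ (q : ℝ) ^ e b *
        ((q : ℝ) ^ kap e a b * (|(x a : ℝ)| + ρ * (p : ℝ) ^ (b - a))) :=
      mul_le_mul_of_nonneg_left ih' (by positivity)
    have h8 : (p : ℝ) ^ (b - a) * ρ ≤ (q : ℝ) ^ kap e a b * (q : ℝ) ^ e b *
        (ρ * (p : ℝ) ^ (b - a)) := by
      have h9 : (1 : ℝ) ≤ (q : ℝ) ^ kap e a b * (q : ℝ) ^ e b :=
        one_le_mul_of_one_le_of_one_le hqk hqe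
      have h10 : 0 ≤ ρ * (p : ℝ) ^ (b - a) := by positivity
      nlinarith
    have h11 : (q : ℝ) ^ kap e a b * (q : ℝ) ^ e b * (|(x a : ℝ)| + ρ * (p : ℝ) ^ (b - a) +
        ρ * (p : ℝ) ^ (b - a)) ≤ (q : ℝ) ^ kap e a b * (q : ℝ) ^ e b *
        (|(x a : ℝ)| + ρ * ((p : ℝ) ^ (b - a) * p)) := by
      apply mul_le_mul_of_nonneg_left _ (by positivity)
      have : 0 ≤ ρ * (p : ℝ) ^ (b - a) := by positivity
      nlinarith
    nlinarith

/-- **The piece lemma.** -/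
theorem piece {p q : ℕ} (hp : p.Prime) (hq : q.Prime) (hpq : p ≠ q) (ℓ E : ℕ) (x : ℕ → ℤ)
    (e : ℕ → ℕ) (r : ℕ → ℤ) (ρ : ℝ) (hρ : 0 ≤ ρ) {a b : ℕ} (hab : a < b)
    (hrec : ∀ j, a ≤ j → j < b → (p : ℤ) * x (j + 1) = (q : ℤ) ^ e j * x j + r j ∧ e j ≤ E ∧
      |(r j : ℝ)| ≤ ρ)
    (hper : ∃ π, 1 ≤ π ∧ π ≤ ℓ ∧ ∀ j, a ≤ j → j + π < b → e (j + π) = e j ∧ r (j + π) = r j) :
    ∃ F G : ℤ, |(F : ℝ)| ≤ bigC p q ℓ E * ρ ∧ |(G : ℝ)| ≤ bigC p q ℓ E * ρ ∧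
      (p : ℤ) ^ (b - a) * (bigM p q ℓ E * x b - G) =
        (q : ℤ) ^ kap e a b * (bigM p q ℓ E * x a - F) ∧
      (bigM p q ℓ E * x a - F = 0 → ∃ π, 1 ≤ π ∧ π ≤ ℓ ∧ a + π ≤ b ∧ x (a + π) = x a) := by
  -- choose a period `≤ b - a`
  obtain ⟨π, hπ1, hπℓ, hπb, hπ⟩ : ∃ π, 1 ≤ π ∧ π ≤ ℓ ∧ a + π ≤ b ∧
      ∀ j, a ≤ j → j + π < b → e (j + π) = e j ∧ r (j + π) = r j := by
    obtain ⟨π, h1, h2, h3⟩ := hper
    rcases le_total (a + π) b with h | h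
    · exact ⟨π, h1, h2, h, h3⟩
    · exact ⟨b - a, by omega, by omega, by omega, fun j h4 h5 => by omega⟩
  set g : ℕ := kap e a (a + π) with hg
  have hgE : g ≤ E * ℓ := by
    refine (kap_le e (E := E) (fun j h1 h2 => (hrec j h1 (by omega)).2.1)).trans ?_
    have : a + π - a ≤ ℓ := by omega
    exact Nat.mul_le_mul_left _ this
  obtain ⟨M', hM'⟩ := dvd_bigM (p := p) (q := q) (E := E) hπ1 hπℓ hgE
  have hM'0 : M' ≠ 0 := by
    rintro rfl
    rw [mul_zero] at hM'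
    exact bigM_ne hp hq hpq ℓ E hM'
  have hD0 : (p : ℤ) ^ π - (q : ℤ) ^ g ≠ 0 := pow_ne_pow hp hq hpq hπ1
  have hM'le : |(M' : ℝ)| ≤ |((bigM p q ℓ E : ℤ) : ℝ)| := by
    have h1 : |M'| ≤ |bigM p q ℓ E| := by
      rw [hM', abs_mul]
      have : 1 ≤ |(p : ℤ) ^ π - (q : ℤ) ^ g| := Int.one_le_abs hD0
      nlinarith [abs_nonneg M']
    exact_mod_cast h1
  -- windows
  have hwin : ∀ j, a ≤ j → j + π ≤ b → kap e j (j + π) = g := by
    intro j hj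
    induction j, hj using Nat.le_induction with
    | base => intro _; rfl
    | succ j hj ih =>
      intro h1
      have h2 := ih (by omega)
      have h3 : kap e j (j + 1 + π) = kap e j (j + π) + e (j + π) := by
        rw [show j + 1 + π = (j + π) + 1 by ring]
        exact kap_succ e (by omega)
      have h4 : kap e j (j + 1 + π) = kap e j (j + 1) + kap e (j + 1) (j + 1 + π) :=
        kap_add e (by omega) (by omega)
      have h5 : kap e j (j + 1) = e j := by rw [kap_succ e (le_refl j), kap_self, zero_add]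
      have h6 := (hπ j hj (by omega)).1
      omega
  -- differences
  have hdiff : ∀ j, a ≤ j → j + π ≤ b → (p : ℤ) ^ (j - a) * (x (j + π) - x j) =
      (q : ℤ) ^ kap e a j * (x (a + π) - x a) := by
    intro j hj
    induction j, hj using Nat.le_induction with
    | base => intro _; simp [kap_self]
    | succ j hj ih =>
      intro h1
      have h2 := ih (by omega)
      have h3 := (hrec j hj (by omega)).1
      have h4 := (hrec (j + π) (by omega) (by omega)).1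
      obtain ⟨h5, h6⟩ := hπ j hj (by omega)
      rw [h5, h6] at h4
      have e1 : j + 1 - a = (j - a) + 1 := by omega
      rw [e1, kap_succ e hj, pow_succ, pow_add, show j + 1 + π = j + π + 1 by ring]
      linear_combination (p : ℤ) ^ (j - a) * h4 - (p : ℤ) ^ (j - a) * h3 + (q : ℤ) ^ e j * h2
  set F : ℤ := M' * ((p : ℤ) ^ π * x (a + π) - (q : ℤ) ^ g * x a) with hF
  set G : ℤ := M' * ((p : ℤ) ^ π * x b - (q : ℤ) ^ g * x (b - π)) with hG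
  have hbound : ∀ (j : ℕ), a ≤ j → j + π ≤ b →
      |((M' * ((p : ℤ) ^ π * x (j + π) - (q : ℤ) ^ g * x j) : ℤ) : ℝ)| ≤
        bigC p q ℓ E * ρ := by
    intro j h1 h2
    have h3 := rem_le hp.one_le hq.one_le x e r ρ hρ (show j ≤ j + π by omega)
      (fun i h4 h5 => hrec i (by omega) (by omega))
    rw [hwin j h1 h2, Nat.add_sub_cancel_left] at h3
    have hB1 : (1 : ℝ) ≤ (p : ℝ) * (q : ℝ) ^ E := by
      have h4 : (1 : ℝ) ≤ p := by exact_mod_cast hp.one_le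
      have h5 : (1 : ℝ) ≤ (q : ℝ) ^ E := one_le_pow₀ (by exact_mod_cast hq.one_le)
      exact one_le_mul_of_one_le_of_one_le h4 h5
    have h6 : (π : ℝ) * ρ * ((p : ℝ) * (q : ℝ) ^ E) ^ π ≤
        ℓ * ρ * ((p : ℝ) * (q : ℝ) ^ E) ^ ℓ := by
      apply mul_le_mul _ (pow_le_pow_right₀ hB1 hπℓ) (by positivity) (by positivity)
      exact mul_le_mul_of_nonneg_right (by exact_mod_cast hπℓ) hρ
    rw [Int.cast_mul, abs_mul]
    calc _ ≤ |((bigM p q ℓ E : ℤ) : ℝ)| * (ℓ * ρ * ((p : ℝ) * (q : ℝ) ^ E) ^ ℓ) :=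
          mul_le_mul hM'le (h3.trans h6) (abs_nonneg _) (abs_nonneg _)
      _ = bigC p q ℓ E * ρ := by unfold bigC; ring
  refine ⟨F, G, hbound a le_rfl hπb, ?_, ?_, ?_⟩
  · have h1 := hbound (b - π) (by omega) (by omega)
    have e1 : b - π + π = b := by omega
    rw [e1] at h1
    exact h1
  · have e1 : b - π + π = b := by omega
    have h1 := hdiff (b - π) (by omega) (by omega)
    rw [e1] at h1
    have h2 : kap e a b = kap e a (b - π) + g := by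
      rw [kap_add e (show a ≤ b - π by omega) (show b - π ≤ b by omega)]
      congr 1
      have h3 := hwin (b - π) (by omega) (by omega)
      rw [e1] at h3
      exact h3
    have h4 : b - a = (b - π - a) + π := by omega
    rw [h2, h4, pow_add, pow_add, hF, hG, hM']
    linear_combination (-(M' * (p : ℤ) ^ π * (q : ℤ) ^ g)) * h1
  · intro h0
    refine ⟨π, hπ1, hπℓ, hπb, ?_⟩
    have h1 : bigM p q ℓ E * x a - F = M' * ((p : ℤ) ^ π * (x a - x (a + π))) := by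
      rw [hM', hF]; ring
    rw [h1] at h0
    have hpπ : (p : ℤ) ^ π ≠ 0 := pow_ne_zero _ (by exact_mod_cast hp.ne_zero)
    rcases mul_eq_zero.1 h0 with h2 | h2
    · exact absurd h2 hM'0
    · rcases mul_eq_zero.1 h2 with h3 | h3
      · exact absurd h3 hpπ
      · linarith

end Pool.Agent.H547R3.Sub
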