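import Mathlib
import Pool.Agent.H547R3.Sub.Merge
import Pool.Agent.H547R3.Sub.Piece

set_option autoImplicit false

open Finset

namespace Pool.Agent.H547R3.Sub

lemma mono_le {s : ℕ} {t : ℕ → ℕ} (h : ∀ i < s, t i ≤ t (i + 1)) {i j : ℕ} (hij : i ≤ j)
    (hj : j ≤ s) : t i ≤ t j := by
  induction j, hij using Nat.le_induction with
  | base => exact le_rfl
  | succ j hij ih => exact (ih (by omega)).trans (h j (by omega))

lemma natpow_exp {p : ℕ} (hp : 0 < p) (n : ℕ) : (p : ℝ) ^ n = Real.exp (Real.log p * n) := by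
  have hp0 : (0 : ℝ) < p := by exact_mod_cast hp
  rw [mul_comm, Real.exp_nat_mul, Real.exp_log hp0]

/-- The main case: the last piece is long, and (if there are other pieces) the first piece has
a large `q`-exponent. -/
theorem growth_main {p q : ℕ} [Fact p.Prime] [Fact q.Prime] (hpq : p ≠ q) (E ℓ s : ℕ)
    (η δa δb : ℝ) (hη : 0 < η) (hδa : 0 < δa) (hδb : 0 < δb) :
    ∃ ε : ℝ, 0 < ε ∧ ∃ n0 : ℕ, ∀ n : ℕ, n0 ≤ n →
      ∀ (x : ℕ → ℤ) (e : ℕ → ℕ) (r : ℕ → ℤ) (t : ℕ → ℕ), t (s + 1) = t 0 + n →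
      (∀ i < s + 1, t i ≤ t (i + 1)) →
      (∀ j, t 0 ≤ j → j < t (s + 1) → (p : ℤ) * x (j + 1) = (q : ℤ) ^ e j * x j + r j ∧ e j ≤ E ∧
        |(r j : ℝ)| ≤ Real.exp (ε * n)) →
      (∀ i < s + 1, ∃ π, 1 ≤ π ∧ π ≤ ℓ ∧ ∀ j, t i ≤ j → j + π < t (i + 1) →
        e (j + π) = e j ∧ r (j + π) = r j) →
      |(x (t 0) : ℝ)| ≤ (p : ℝ) ^ n * Real.exp (-(η * n)) →
      ((t s : ℝ) + δb * n ≤ t (s + 1)) → (1 ≤ s → δa * n ≤ kap e (t 0) (t 1)) →
      ∃ j π, t 0 ≤ j ∧ 1 ≤ π ∧ π ≤ ℓ ∧ j + π ≤ t (s + 1) ∧ x (j + π) = x j := by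
  have hp : p.Prime := Fact.out
  have hq : q.Prime := Fact.out
  have hp0 : (0 : ℝ) < p := by exact_mod_cast hp.pos
  have hq0 : (0 : ℝ) < q := by exact_mod_cast hq.pos
  have hp1 : (1 : ℝ) ≤ p := by exact_mod_cast hp.one_le
  have hq1 : (1 : ℝ) ≤ q := by exact_mod_cast hq.one_le
  set lp := Real.log p with hlp
  have hlp0 : 0 < lp := Real.log_pos (by exact_mod_cast hp.one_lt)
  set M := bigM p q ℓ E with hM
  set C := bigC p q ℓ E with hC
  have hC0 : 0 ≤ C := by rw [hC]; unfold bigC; positivity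
  set δ : ℝ := min (min (η / 2) (δb * lp / 4)) (min (min δb δa) (1 / ((E : ℝ) + 1))) with hδ
  have hδ0 : 0 < δ := by
    rw [hδ]; apply lt_min <;> apply lt_min <;> first | positivity | (apply lt_min <;> positivity)
  have hδη : δ ≤ η / 2 := le_trans (min_le_left _ _) (min_le_left _ _)
  have hδlp : δ ≤ δb * lp / 4 := le_trans (min_le_left _ _) (min_le_right _ _)
  have hδδb : δ ≤ δb := le_trans (min_le_right _ _) (le_trans (min_le_left _ _) (min_le_left _ _))
  have hδδa : δ ≤ δa := le_trans (min_le_right _ _) (le_trans (min_le_left _ _) (min_le_right _ _))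
  have hδE : δ ≤ 1 / ((E : ℝ) + 1) := le_trans (min_le_right _ _) (min_le_right _ _)
  have hδE' : δ * (E + 1) ≤ 1 := by
    rw [le_div_iff₀ (by positivity)] at hδE; exact hδE
  have hδ1 : δ ≤ 1 := by
    have : (0 : ℝ) ≤ E := Nat.cast_nonneg _
    nlinarith
  obtain ⟨εm, hεm, Nm, hmerge⟩ := merge hpq s δ hδ0
  set ε : ℝ := min (δb * lp / 4) (εm / 2) with hε
  have hε0 : 0 < ε := by rw [hε]; apply lt_min <;> positivity
  have hε1 : ε ≤ δb * lp / 4 := min_le_left _ _
  have hε2 : ε ≤ εm / 2 := min_le_right _ _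
  refine ⟨ε, hε0, 1 + Nm + ⌈(|(M : ℝ)| + (2 * s + 1) * C) / δ⌉₊ + ⌈4 * C / εm⌉₊, ?_⟩
  intro n hn x e r t htn hmono hrec hper hx hlast hfirst
  have hn1 : 1 ≤ n := by omega
  have hnm : Nm ≤ n := by omega
  have hn3 : (|(M : ℝ)| + (2 * s + 1) * C) / δ ≤ n :=
    le_trans (Nat.le_ceil _) (by exact_mod_cast (by omega :
      ⌈(|(M : ℝ)| + (2 * s + 1) * C) / δ⌉₊ ≤ n))
  have hn4 : 4 * C / εm ≤ n :=
    le_trans (Nat.le_ceil _) (by exact_mod_cast (by omega : ⌈4 * C / εm⌉₊ ≤ n))
  have hnR : (1 : ℝ) ≤ n := by exact_mod_cast hn1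
  have hn0 : (0 : ℝ) ≤ n := by linarith
  set ρ : ℝ := Real.exp (ε * n) with hρ
  have hρ0 : 0 < ρ := Real.exp_pos _
  have hts : ∀ i ≤ s + 1, t i ≤ t (s + 1) := fun i hi => mono_le hmono hi le_rfl
  have ht0 : ∀ i ≤ s + 1, t 0 ≤ t i := fun i hi => mono_le hmono (Nat.zero_le _) hi
  -- the pieces
  have hpiece : ∀ i, i < s + 1 → ∃ F G : ℤ, |(F : ℝ)| ≤ C * ρ ∧ |(G : ℝ)| ≤ C * ρ ∧
      (p : ℤ) ^ (t (i + 1) - t i) * (M * x (t (i + 1)) - G) =
        (q : ℤ) ^ kap e (t i) (t (i + 1)) * (M * x (t i) - F) ∧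
      (t i < t (i + 1) → M * x (t i) - F = 0 → ∃ π, 1 ≤ π ∧ π ≤ ℓ ∧ t i + π ≤ t (i + 1) ∧
        x (t i + π) = x (t i)) := by
    intro i hi
    have h1 := hmono i hi
    rcases Nat.lt_or_ge (t i) (t (i + 1)) with h | h
    · obtain ⟨F, G, h2, h3, h4, h5⟩ := piece hp hq hpq ℓ E x e r ρ hρ0.le h
        (fun j h6 h7 => hrec j ((ht0 i (by omega)).trans h6)
          (lt_of_lt_of_le h7 (hts (i + 1) (by omega)))) (hper i hi)
      exact ⟨F, G, h2, h3, h4, fun _ => h5⟩
    · have h2 : t (i + 1) = t i := le_antisymm h h1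
      refine ⟨0, 0, ?_, ?_, ?_, ?_⟩
      · rw [Int.cast_zero, abs_zero]; positivity
      · rw [Int.cast_zero, abs_zero]; positivity
      · rw [h2, Nat.sub_self, kap_self, pow_zero, pow_zero]
      · intro h3; omega
  choose! F G hF hG hFG hrep using hpiece
  -- the units
  set A : ℕ → ℤ := fun i => (p : ℤ) ^ (t i - t 0) * (q : ℤ) ^ kap e (t i) (t (s + 1)) with hA
  set K := kap e (t 0) (t (s + 1)) with hK
  have hA0 : A 0 = (q : ℤ) ^ K := by simp [hA, hK]
  have hAs : A (s + 1) = (p : ℤ) ^ n := by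
    simp only [hA]
    rw [kap_self, pow_zero, mul_one, htn, Nat.add_sub_cancel_left]
  have hstep : ∀ i, i < s + 1 → A (i + 1) * (M * x (t (i + 1)) - G i) =
      A i * (M * x (t i) - F i) := by
    intro i hi
    have h1 := hFG i hi
    have h2 := hmono i hi
    have h3 := ht0 i (by omega)
    have h4 := hts (i + 1) (by omega)
    simp only [hA]
    have e1 : t (i + 1) - t 0 = (t i - t 0) + (t (i + 1) - t i) := by omega
    have e2 : kap e (t i) (t (s + 1)) = kap e (t i) (t (i + 1)) + kap e (t (i + 1)) (t (s + 1)) :=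
      kap_add e h2 h4
    rw [e1, e2, pow_add, pow_add]
    linear_combination (p : ℤ) ^ (t i - t 0) * (q : ℤ) ^ kap e (t (i + 1)) (t (s + 1)) * h1
  have htele : ∀ k, k ≤ s + 1 → A k * (M * x (t k)) = A 0 * (M * x (t 0)) +
      ∑ i ∈ Finset.range k, (G i * A (i + 1) - F i * A i) := by
    intro k
    induction k with
    | zero => intro _; simp
    | succ k ih =>
      intro hk
      have h1 := ih (by omega)
      have h2 := hstep k (by omega)
      rw [Finset.sum_range_succ, ← add_assoc, ← h1]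
      linear_combination h2
  set X : ℤ := (p : ℤ) ^ n * (M * x (t (s + 1)) - G s) with hX
  set lam : Fin s → ℤ := fun i => -(G i - F (i + 1)) with hlam
  set α : Fin s → ℕ := fun i => t (i + 1) - t 0 with hα
  set β : Fin s → ℕ := fun i => kap e (t (i + 1)) (t (s + 1)) with hβ
  have hsumX : X + ∑ j, lam j * ((p : ℤ) ^ α j * (q : ℤ) ^ β j) =
      (q : ℤ) ^ K * (M * x (t 0) - F 0) := by
    have h1 := htele (s + 1) le_rfl
    have h2 : ∑ i ∈ Finset.range (s + 1), (G i * A (i + 1) - F i * A i) =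
        G s * A (s + 1) - F 0 * A 0 + ∑ i ∈ Finset.range s, (G i - F (i + 1)) * A (i + 1) := by
      rw [Finset.sum_sub_distrib, Finset.sum_range_succ, Finset.sum_range_succ']
      have : ∑ i ∈ Finset.range s, (G i - F (i + 1)) * A (i + 1) =
          ∑ i ∈ Finset.range s, G i * A (i + 1) - ∑ i ∈ Finset.range s, F (i + 1) * A (i + 1) := by
        rw [← Finset.sum_sub_distrib]
        apply Finset.sum_congr rfl
        intro i _; ring
      rw [this]; ring
    have h3 : ∑ j, lam j * ((p : ℤ) ^ α j * (q : ℤ) ^ β j) =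
        -∑ i ∈ Finset.range s, (G i - F (i + 1)) * A (i + 1) := by
      rw [← Fin.sum_univ_eq_sum_range (fun i => (G i - F (i + 1)) * A (i + 1)),
        ← Finset.sum_neg_distrib]
      apply Finset.sum_congr rfl
      intro i _
      simp only [hlam, hα, hβ, hA]
      ring
    rw [h3, hX]
    rw [h2, hAs, hA0] at h1
    linear_combination h1
  have hβK : ∀ j, (q : ℝ) ^ β j ≤ (q : ℝ) ^ K := by
    intro j
    apply pow_le_pow_right₀ hq1
    rw [hK, kap_add e (ht0 (j + 1) (by omega)) (hts (j + 1) (by omega))]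
    exact Nat.le_add_left _ _
  have htsle : ∀ j : Fin s, (α j : ℝ) ≤ n - δb * n := by
    intro j
    have h1 : t (j + 1) ≤ t s := mono_le hmono (by omega) (by omega)
    have h2 : α j + t 0 ≤ t s := by
      simp only [hα]
      have := ht0 (j + 1) (by omega)
      omega
    have h3 : (α j : ℝ) + t 0 ≤ t s := by exact_mod_cast h2
    have h4 : (t (s + 1) : ℝ) = t 0 + n := by exact_mod_cast htn
    linarith
  have hlamle : ∀ j, |(lam j : ℝ)| ≤ 2 * C * ρ := by
    intro j
    simp only [hlam]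
    push_cast
    rw [abs_neg]
    refine (abs_sub _ _).trans ?_
    have h1 := hG j (by omega)
    have h2 := hF (j + 1) (by omega)
    linarith
  have hexpδ : |(M : ℝ)| + (2 * s + 1) * C ≤ Real.exp (δ * n) := by
    rw [div_le_iff₀ hδ0] at hn3
    have := Real.add_one_le_exp (δ * n)
    linarith
  have hpn : (p : ℝ) ^ n = Real.exp (lp * n) := natpow_exp hp.pos n
  -- conclusion from the subspace theorem
  have hX0 : X = 0 := by
    refine hmerge n hnm n K α β ?_ ?_ ?_ ?_ lam ?_ X (Dvd.intro _ rfl)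
      (by rw [hsumX]; exact Dvd.intro _ rfl) ?_
    · nlinarith
    · have h1 : K ≤ E * n := by
        have h2 := kap_le e (E := E) (a := t 0) (b := t (s + 1)) (fun j h1 h2 => (hrec j h1 h2).2.1)
        rw [htn, Nat.add_sub_cancel_left] at h2
        rw [hK, htn]; exact h2
      have h2 : (K : ℝ) ≤ E * n := by exact_mod_cast h1
      calc δ * K ≤ δ * (E * n) := mul_le_mul_of_nonneg_left h2 hδ0.le
        _ ≤ (δ * (E + 1)) * n := by nlinarith
        _ ≤ 1 * n := mul_le_mul_of_nonneg_right hδE' hn0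
        _ = n := one_mul _
    · intro j
      have h1 := htsle j
      have h2 : δ * n ≤ δb * n := mul_le_mul_of_nonneg_right hδδb hn0
      linarith
    · intro j
      have hs1 : 1 ≤ s := by have := j.2; omega
      have h1 := hfirst hs1
      have h2 : kap e (t 0) (t 1) + β j ≤ K := by
        rw [hK, kap_add e (ht0 1 (by omega)) (hts 1 (by omega))]
        simp only [hβ]
        have h3 : t 1 ≤ t (j + 1) := mono_le hmono (by omega) (by omega)
        rw [kap_add e h3 (hts (j + 1) (by omega))]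
        omega
      have h3 : (kap e (t 0) (t 1) : ℝ) + β j ≤ K := by exact_mod_cast h2
      have h4 : δ * n ≤ δa * n := mul_le_mul_of_nonneg_right hδδa hn0
      linarith
    · intro j
      refine (hlamle j).trans ?_
      have h1 : 2 * C ≤ Real.exp (εm / 2 * n) := by
        rw [div_le_iff₀ hεm] at hn4
        have := Real.add_one_le_exp (εm / 2 * n)
        linarith
      have h2 : ρ ≤ Real.exp (εm / 2 * n) := by
        rw [hρ]
        exact Real.exp_le_exp.2 (mul_le_mul_of_nonneg_right hε2 hn0)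
      calc 2 * C * ρ ≤ Real.exp (εm / 2 * n) * Real.exp (εm / 2 * n) :=
            mul_le_mul h1 h2 hρ0.le (Real.exp_pos _).le
        _ = Real.exp (εm * n) := by rw [← Real.exp_add]; congr 1; ring
    · -- the size of X
      have hXR : (X : ℝ) = (q : ℝ) ^ K * ((M : ℝ) * x (t 0) - F 0) -
          ∑ j, (lam j : ℝ) * ((p : ℝ) ^ α j * (q : ℝ) ^ β j) := by
        have := congrArg (Int.cast (R := ℝ)) hsumX
        push_cast at this
        linarith
      have hb1 : |(M : ℝ) * x (t 0) - F 0| ≤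
          (p : ℝ) ^ n * (|(M : ℝ)| * Real.exp (-(η * n)) + C * Real.exp (ε * n - δb * lp * n)) := by
        refine (abs_sub _ _).trans ?_
        rw [abs_mul]
        have h1 := hF 0 (by omega)
        have h2 : |(M : ℝ)| * |(x (t 0) : ℝ)| ≤ |(M : ℝ)| * ((p : ℝ) ^ n * Real.exp (-(η * n))) :=
          mul_le_mul_of_nonneg_left hx (abs_nonneg _)
        have h3 : ρ ≤ (p : ℝ) ^ n * Real.exp (ε * n - δb * lp * n) := by
          rw [hρ, hpn, ← Real.exp_add]
          apply Real.exp_le_exp.2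
          have h4 : δb * n ≤ n := by
            have h5 : (t s : ℝ) + δb * n ≤ t 0 + n := by
              have : (t (s + 1) : ℝ) = t 0 + n := by exact_mod_cast htn
              linarith
            have h6 : (t 0 : ℝ) ≤ t s := by exact_mod_cast ht0 s (by omega)
            linarith
          nlinarith
        have h4 : C * ρ ≤ C * ((p : ℝ) ^ n * Real.exp (ε * n - δb * lp * n)) :=
          mul_le_mul_of_nonneg_left h3 hC0
        linarith
      have hb2 : ∀ j, |(lam j : ℝ) * ((p : ℝ) ^ α j * (q : ℝ) ^ β j)| ≤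
          (q : ℝ) ^ K * ((p : ℝ) ^ n * (2 * C * Real.exp (ε * n - δb * lp * n))) := by
        intro j
        rw [abs_mul, abs_of_nonneg (by positivity : (0 : ℝ) ≤ (p : ℝ) ^ α j * (q : ℝ) ^ β j)]
        have h1 : (p : ℝ) ^ α j ≤ (p : ℝ) ^ n * Real.exp (-(δb * lp * n)) := by
          rw [natpow_exp hp.pos (α j), hpn, ← Real.exp_add]
          apply Real.exp_le_exp.2
          have := htsle j
          nlinarith
        calc |(lam j : ℝ)| * ((p : ℝ) ^ α j * (q : ℝ) ^ β j) ≤
            (2 * C * ρ) * (((p : ℝ) ^ n * Real.exp (-(δb * lp * n))) * (q : ℝ) ^ K) := by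
              apply mul_le_mul (hlamle j) _ (by positivity) (by positivity)
              exact mul_le_mul h1 (hβK j) (by positivity) (by positivity)
          _ = _ := by
            rw [hρ, sub_eq_add_neg, Real.exp_add]; ring
      rw [hXR]
      refine (abs_sub _ _).trans ?_
      rw [abs_mul, abs_of_nonneg (by positivity : (0 : ℝ) ≤ (q : ℝ) ^ K)]
      have hb3 : |∑ j, (lam j : ℝ) * ((p : ℝ) ^ α j * (q : ℝ) ^ β j)| ≤
          s * ((q : ℝ) ^ K * ((p : ℝ) ^ n * (2 * C * Real.exp (ε * n - δb * lp * n)))) := by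
        refine (Finset.abs_sum_le_sum_abs _ _).trans ?_
        refine (Finset.sum_le_card_nsmul _ _ _ (fun j _ => hb2 j)).trans ?_
        rw [nsmul_eq_mul, Finset.card_univ, Fintype.card_fin]
      have hb4 := mul_le_mul_of_nonneg_left hb1 (by positivity : (0 : ℝ) ≤ (q : ℝ) ^ K)
      have hc1 : Real.exp (-(η * n)) ≤ Real.exp (-(2 * δ * n)) := by
        apply Real.exp_le_exp.2
        nlinarith
      have hc2 : Real.exp (ε * n - δb * lp * n) ≤ Real.exp (-(2 * δ * n)) := by
        apply Real.exp_le_exp.2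
        nlinarith
      have hpq0 : (0 : ℝ) < (q : ℝ) ^ K * (p : ℝ) ^ n := by positivity
      calc _ ≤ (q : ℝ) ^ K * ((p : ℝ) ^ n * (|(M : ℝ)| * Real.exp (-(η * n)) +
            C * Real.exp (ε * n - δb * lp * n))) +
            s * ((q : ℝ) ^ K * ((p : ℝ) ^ n * (2 * C * Real.exp (ε * n - δb * lp * n)))) :=
            add_le_add hb4 hb3
        _ = (q : ℝ) ^ K * (p : ℝ) ^ n * (|(M : ℝ)| * Real.exp (-(η * n)) +
            ((2 * s + 1) * C) * Real.exp (ε * n - δb * lp * n)) := by ring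
        _ ≤ (q : ℝ) ^ K * (p : ℝ) ^ n * (|(M : ℝ)| * Real.exp (-(2 * δ * n)) +
            ((2 * s + 1) * C) * Real.exp (-(2 * δ * n))) := by
            apply mul_le_mul_of_nonneg_left _ hpq0.le
            apply add_le_add
            · exact mul_le_mul_of_nonneg_left hc1 (abs_nonneg _)
            · exact mul_le_mul_of_nonneg_left hc2 (by positivity)
        _ = (q : ℝ) ^ K * (p : ℝ) ^ n * ((|(M : ℝ)| + (2 * s + 1) * C) *
            Real.exp (-(2 * δ * n))) := by ring
        _ ≤ (q : ℝ) ^ K * (p : ℝ) ^ n * (Real.exp (δ * n) * Real.exp (-(2 * δ * n))) := by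
            apply mul_le_mul_of_nonneg_left _ hpq0.le
            exact mul_le_mul_of_nonneg_right hexpδ (Real.exp_pos _).le
        _ = (p : ℝ) ^ n * (q : ℝ) ^ K * Real.exp (-(δ * n)) := by
            rw [← Real.exp_add]
            have : δ * n + -(2 * δ * n) = -(δ * n) := by ring
            rw [this]; ring
  -- finish
  have hlt : t s < t (s + 1) := by
    have h1 : (0 : ℝ) < δb * n := by positivity
    have h2 : (t s : ℝ) < t (s + 1) := by linarith
    exact_mod_cast h2
  have h1 : M * x (t (s + 1)) - G s = 0 := by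
    rw [hX] at hX0
    rcases mul_eq_zero.1 hX0 with h | h
    · exact absurd h (pow_ne_zero _ (by exact_mod_cast hp.ne_zero))
    · exact h
  have h2 := hFG s (by omega)
  rw [h1, mul_zero] at h2
  have h3 : M * x (t s) - F s = 0 := by
    rcases mul_eq_zero.1 h2.symm with h | h
    · exact absurd h (pow_ne_zero _ (by exact_mod_cast hq.ne_zero))
    · exact h
  obtain ⟨π, hπ1, hπℓ, hπt, hπx⟩ := hrep s (by omega) hlt h3
  exact ⟨t s, π, ht0 s (by omega), hπ1, hπℓ, hπt, hπx⟩

end Pool.Agent.H547R3.Sub
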