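import Mathlib
import Pool.Agent.H547R3.Sub.Growth

set_option autoImplicit false

open Finset

namespace Pool.Agent.H547R3.Sub

/-- **Growth theorem.**  Let `p x_{j+1} = q^{e_j} x_j + r_j`.  If the sequence `(e_j, r_j)` on
`[t_0, t_0 + n)` is a concatenation of `s` words with periods at most `ℓ` and
`|x_{t_0}| ≤ p^n exp(-η n)`, with `n` large, then `x_{j+π} = x_j` for some `j` and `1 ≤ π ≤ ℓ`. -/
theorem growth {p q : ℕ} [Fact p.Prime] [Fact q.Prime] (hpq : p ≠ q) (E ℓ : ℕ) (s : ℕ) :
    ∀ η : ℝ, 0 < η → ∃ ε : ℝ, 0 < ε ∧ ∃ n0 : ℕ, ∀ n : ℕ, n0 ≤ n →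
      ∀ (x : ℕ → ℤ) (e : ℕ → ℕ) (r : ℕ → ℤ) (t : ℕ → ℕ), t s = t 0 + n →
      (∀ i < s, t i ≤ t (i + 1)) →
      (∀ j, t 0 ≤ j → j < t s → (p : ℤ) * x (j + 1) = (q : ℤ) ^ e j * x j + r j ∧ e j ≤ E ∧
        |(r j : ℝ)| ≤ Real.exp (ε * n)) →
      (∀ i < s, ∃ π, 1 ≤ π ∧ π ≤ ℓ ∧ ∀ j, t i ≤ j → j + π < t (i + 1) →
        e (j + π) = e j ∧ r (j + π) = r j) →
      |(x (t 0) : ℝ)| ≤ (p : ℝ) ^ n * Real.exp (-(η * n)) →
      ∃ j π, t 0 ≤ j ∧ 1 ≤ π ∧ π ≤ ℓ ∧ j + π ≤ t s ∧ x (j + π) = x j := by
  have hp : p.Prime := Fact.out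
  have hq : q.Prime := Fact.out
  have hp0 : (0 : ℝ) < p := by exact_mod_cast hp.pos
  have hq0 : (0 : ℝ) < q := by exact_mod_cast hq.pos
  set lp := Real.log p with hlp
  set lq := Real.log q with hlq
  have hlp0 : 0 < lp := Real.log_pos (by exact_mod_cast hp.one_lt)
  have hlq0 : 0 < lq := Real.log_pos (by exact_mod_cast hq.one_lt)
  induction s with
  | zero =>
    intro η hη
    refine ⟨1, one_pos, 1, ?_⟩
    intro n hn x e r t htn
    omega
  | succ s ih =>
    intro η hη
    set δb : ℝ := min (1 / 2) (η / (4 * lp)) with hδb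
    have hδb0 : 0 < δb := by rw [hδb]; apply lt_min <;> positivity
    have hδb1 : δb ≤ 1 / 2 := min_le_left _ _
    have hδb2 : δb * lp ≤ η / 4 := by
      have : δb ≤ η / (4 * lp) := min_le_right _ _
      calc δb * lp ≤ η / (4 * lp) * lp := mul_le_mul_of_nonneg_right this hlp0.le
        _ = η / 4 := by field_simp
    set δa : ℝ := δb * lp / (4 * lq) with hδa
    have hδa0 : 0 < δa := by rw [hδa]; positivity
    have hδalq : δa * lq = δb * lp / 4 := by rw [hδa]; field_simp
    set η2 : ℝ := min (η / 4) (lp / 4) with hη2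
    have hη20 : 0 < η2 := by rw [hη2]; apply lt_min <;> positivity
    have hη21 : η2 ≤ η / 4 := min_le_left _ _
    have hη22 : η2 ≤ lp / 4 := min_le_right _ _
    obtain ⟨ε1, hε1, n1, h1⟩ := ih (η / 2) (by positivity)
    obtain ⟨ε2, hε2, n2, h2⟩ := ih η2 hη20
    obtain ⟨ε3, hε3, n3, h3⟩ := growth_main hpq E ℓ s η δa δb hη hδa0 hδb0
    set ε : ℝ := min (min (ε1 / 2) (ε2 * δb)) (min ε3 (δb * lp / 4)) with hε
    have hε0 : 0 < ε := by rw [hε]; apply lt_min <;> apply lt_min <;> positivity
    have hεa : ε ≤ ε1 / 2 := le_trans (min_le_left _ _) (min_le_left _ _)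
    have hεb : ε ≤ ε2 * δb := le_trans (min_le_left _ _) (min_le_right _ _)
    have hεc : ε ≤ ε3 := le_trans (min_le_right _ _) (min_le_left _ _)
    have hεd : ε ≤ δb * lp / 4 := le_trans (min_le_right _ _) (min_le_right _ _)
    refine ⟨ε, hε0, 1 + 2 * n1 + ⌈(n2 : ℝ) / δb⌉₊ + n3 + ⌈2 / η / δb⌉₊ + ⌈4 / lp / δb⌉₊, ?_⟩
    intro n hn x e r t htn hmono hrec hper hx
    have hn1 : 1 ≤ n := by omega
    have hnR : (1 : ℝ) ≤ n := by exact_mod_cast hn1
    have hn0 : (0 : ℝ) ≤ n := by linarith
    have hna : 2 * n1 ≤ n := by omega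
    have hnb : (n2 : ℝ) / δb ≤ n := le_trans (Nat.le_ceil _) (by
      exact_mod_cast (by omega : ⌈(n2 : ℝ) / δb⌉₊ ≤ n))
    have hnc : n3 ≤ n := by omega
    have hnd : 2 / η / δb ≤ n := le_trans (Nat.le_ceil _) (by
      exact_mod_cast (by omega : ⌈2 / η / δb⌉₊ ≤ n))
    have hne : 4 / lp / δb ≤ n := le_trans (Nat.le_ceil _) (by
      exact_mod_cast (by omega : ⌈4 / lp / δb⌉₊ ≤ n))
    rw [div_le_iff₀ hδb0] at hnb hnd hne
    rw [div_le_iff₀ hη] at hnd
    rw [div_le_iff₀ hlp0] at hne
    have hpn : (p : ℝ) ^ n = Real.exp (lp * n) := natpow_exp hp.pos n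
    have hts : ∀ i ≤ s + 1, t i ≤ t (s + 1) := fun i hi => mono_le hmono hi le_rfl
    have ht0 : ∀ i ≤ s + 1, t 0 ≤ t i := fun i hi => mono_le hmono (Nat.zero_le _) hi
    have htnR : (t (s + 1) : ℝ) = t 0 + n := by exact_mod_cast htn
    by_cases hA : (t s : ℝ) + δb * n < t (s + 1)
    · by_cases hB : 1 ≤ s ∧ (kap e (t 0) (t 1) : ℝ) < δa * n
      · -- case B: drop the first piece
        obtain ⟨hs1, hB⟩ := hB
        set n'' : ℕ := t (s + 1) - t 1 with hn''
        have ht1s : t 1 ≤ t s := mono_le hmono hs1 (by omega)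
        have hn''eq : t (s + 1) = t 1 + n'' := by have := hts 1 (by omega); omega
        have hn''R : (t (s + 1) : ℝ) = t 1 + n'' := by exact_mod_cast hn''eq
        have hn''1 : δb * n ≤ n'' := by
          have : (t 1 : ℝ) ≤ t s := by exact_mod_cast ht1s
          linarith
        have hn''n : n'' ≤ n := by have := ht0 1 (by omega); omega
        have hn''nR : (n'' : ℝ) ≤ n := by exact_mod_cast hn''n
        have hn''0 : (0 : ℝ) ≤ n'' := Nat.cast_nonneg _
        have hm : n = n'' + (t 1 - t 0) := by have := ht0 1 (by omega); omega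
        have hkap : kap e (t 0) (t 1) ≤ kap e (t 0) (t 1) := le_rfl
        obtain ⟨j, π, g1, g2, g3, g4, g5⟩ := h2 n'' (by
            have : (n2 : ℝ) ≤ n'' := by linarith
            exact_mod_cast this) x e r (fun i => t (i + 1)) hn''eq
          (fun i hi => hmono (i + 1) (by omega))
          (fun j hj1 hj2 => by
            obtain ⟨f1, f2, f3⟩ := hrec j ((ht0 1 (by omega)).trans hj1) hj2
            refine ⟨f1, f2, f3.trans (Real.exp_le_exp.2 ?_)⟩
            calc ε * n ≤ ε2 * δb * n := mul_le_mul_of_nonneg_right hεb hn0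
              _ = ε2 * (δb * n) := by ring
              _ ≤ ε2 * n'' := mul_le_mul_of_nonneg_left hn''1 hε2.le)
          (fun i hi => hper (i + 1) (by omega))
          (by
            show |(x (t 1) : ℝ)| ≤ _
            have f1 := size_le hp.two_le hq.one_le x e r (Real.exp (ε * n)) (Real.exp_pos _).le
              (ht0 1 (by omega)) (fun j hj1 hj2 => by
                obtain ⟨f1, _, f3⟩ := hrec j hj1 (lt_of_lt_of_le hj2 (hts 1 (by omega)))
                exact ⟨f1, f3⟩)
            set m : ℕ := t 1 - t 0 with hmdef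
            have hpm : (p : ℝ) ^ m = Real.exp (lp * m) := natpow_exp hp.pos m
            have hpm0 : (0 : ℝ) < (p : ℝ) ^ m := by positivity
            have hmR : (n : ℝ) = n'' + m := by exact_mod_cast hm
            have hqk : (q : ℝ) ^ kap e (t 0) (t 1) ≤ Real.exp (δa * lq * n) := by
              rw [natpow_exp hq.pos]
              apply Real.exp_le_exp.2
              nlinarith
            have hlog2 : Real.log 2 ≤ 1 := by
              have := Real.log_two_lt_d9; linarith
            have h2exp : (2 : ℝ) = Real.exp (Real.log 2) := (Real.exp_log (by norm_num)).symm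
            have f2 : (p : ℝ) ^ m * |(x (t 1) : ℝ)| ≤ Real.exp (δa * lq * n) *
                ((p : ℝ) ^ n * Real.exp (-(η * n)) + Real.exp (ε * n) * (p : ℝ) ^ m) := by
              refine f1.trans ?_
              apply mul_le_mul hqk _ (by positivity) (Real.exp_pos _).le
              linarith
            have f3 : |(x (t 1) : ℝ)| ≤ Real.exp (δa * lq * n) *
                ((p : ℝ) ^ n'' * Real.exp (-(η * n)) + Real.exp (ε * n)) := by
              have e1 : Real.exp (δa * lq * n) *
                ((p : ℝ) ^ n * Real.exp (-(η * n)) + Real.exp (ε * n) * (p : ℝ) ^ m) =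
                (p : ℝ) ^ m * (Real.exp (δa * lq * n) *
                ((p : ℝ) ^ n'' * Real.exp (-(η * n)) + Real.exp (ε * n))) := by
                rw [hm, pow_add]; push_cast; ring
              rw [e1] at f2
              exact le_of_mul_le_mul_left f2 hpm0
            refine f3.trans ?_
            have hpn'' : (p : ℝ) ^ n'' = Real.exp (lp * n'') := natpow_exp hp.pos n''
            have hη4 : δb * lp / 4 * n ≤ η / 16 * n := by
              apply mul_le_mul_of_nonneg_right _ hn0
              linarith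
            have a1 : Real.exp (δa * lq * n) * ((p : ℝ) ^ n'' * Real.exp (-(η * n))) ≤
                (1 / 2) * ((p : ℝ) ^ n'' * Real.exp (-(η2 * n''))) := by
              have : (1 / 2 : ℝ) = Real.exp (-Real.log 2) := by
                rw [Real.exp_neg, Real.exp_log (by norm_num)]; norm_num
              rw [this, hpn'', ← Real.exp_add, ← Real.exp_add, ← Real.exp_add, ← Real.exp_add]
              apply Real.exp_le_exp.2
              rw [hδalq]
              have b1 : η2 * n'' ≤ η / 4 * n := by
                calc η2 * n'' ≤ η / 4 * n'' := mul_le_mul_of_nonneg_right hη21 hn''0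
                  _ ≤ η / 4 * n := mul_le_mul_of_nonneg_left hn''nR (by positivity)
              have b2 : 2 ≤ η * n := by
                have : (n : ℝ) * δb ≤ n * 1 := mul_le_mul_of_nonneg_left (by linarith) hn0
                nlinarith
              nlinarith
            have a2 : Real.exp (δa * lq * n) * Real.exp (ε * n) ≤
                (1 / 2) * ((p : ℝ) ^ n'' * Real.exp (-(η2 * n''))) := by
              have : (1 / 2 : ℝ) = Real.exp (-Real.log 2) := by
                rw [Real.exp_neg, Real.exp_log (by norm_num)]; norm_num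
              rw [this, hpn'', ← Real.exp_add, ← Real.exp_add, ← Real.exp_add]
              apply Real.exp_le_exp.2
              rw [hδalq]
              have b1 : η2 * n'' ≤ lp / 4 * n'' := mul_le_mul_of_nonneg_right hη22 hn''0
              have b2 : ε * n ≤ δb * lp / 4 * n := mul_le_mul_of_nonneg_right hεd hn0
              have b3 : lp / 4 * (δb * n) ≤ lp / 4 * n'' :=
                mul_le_mul_of_nonneg_left hn''1 (by positivity)
              have b4 : 1 ≤ lp / 4 * n'' := by
                have : 4 ≤ (n : ℝ) * δb * lp := hne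
                nlinarith
              nlinarith
            rw [mul_add]
            calc _ ≤ (1 / 2) * ((p : ℝ) ^ n'' * Real.exp (-(η2 * n''))) +
                  (1 / 2) * ((p : ℝ) ^ n'' * Real.exp (-(η2 * n''))) := add_le_add a1 a2
              _ = _ := by ring)
        exact ⟨j, π, (ht0 1 (by omega)).trans g1, g2, g3, g4, g5⟩
      · -- the main case
        push Not at hB
        exact h3 n hnc x e r t htn hmono
          (fun j hj1 hj2 => by
            obtain ⟨f1, f2, f3⟩ := hrec j hj1 hj2
            exact ⟨f1, f2, f3.trans (Real.exp_le_exp.2 (mul_le_mul_of_nonneg_right hεc hn0))⟩)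
          hper hx hA.le hB
    · -- case A: drop the last piece
      push Not at hA
      set n' : ℕ := t s - t 0 with hn'
      have hn'eq : t s = t 0 + n' := by have := ht0 s (by omega); omega
      have hn'R : (t s : ℝ) = t 0 + n' := by exact_mod_cast hn'eq
      have hn'n : (n' : ℝ) ≤ n := by
        have : n' ≤ n := by have := hts s (by omega); omega
        exact_mod_cast this
      have hn'1 : (1 - δb) * n ≤ n' := by linarith
      have hn'2 : (1 / 2 : ℝ) * n ≤ n' := by nlinarith
      obtain ⟨j, π, g1, g2, g3, g4, g5⟩ := h1 n' (by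
          have h5 : (2 * n1 : ℝ) ≤ n := by exact_mod_cast hna
          have h6 : (n1 : ℝ) ≤ n' := by linarith
          exact_mod_cast h6) x e r t hn'eq (fun i hi => hmono i (by omega))
        (fun j hj1 hj2 => by
          obtain ⟨f1, f2, f3⟩ := hrec j hj1 (lt_of_lt_of_le hj2 (hts s (by omega)))
          refine ⟨f1, f2, f3.trans (Real.exp_le_exp.2 ?_)⟩
          calc ε * n ≤ ε1 / 2 * n := mul_le_mul_of_nonneg_right hεa hn0
            _ = ε1 * (1 / 2 * n) := by ring
            _ ≤ ε1 * n' := mul_le_mul_of_nonneg_left hn'2 hε1.le)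
        (fun i hi => hper i (by omega))
        (by
          refine hx.trans ?_
          rw [hpn, natpow_exp hp.pos n', ← Real.exp_add, ← Real.exp_add]
          apply Real.exp_le_exp.2
          have b1 : lp * n - lp * n' ≤ η / 4 * n := by
            calc lp * n - lp * n' = lp * (n - n') := by ring
              _ ≤ lp * (δb * n) := mul_le_mul_of_nonneg_left (by linarith) hlp0.le
              _ = δb * lp * n := by ring
              _ ≤ η / 4 * n := mul_le_mul_of_nonneg_right hδb2 hn0
          have b2 : η / 2 * n' ≤ η / 2 * n := mul_le_mul_of_nonneg_left hn'n (by positivity)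
          have b3 : 0 ≤ η * n := by positivity
          linarith)
      exact ⟨j, π, g1, g2, g3, g4.trans (hts s (by omega)), g5⟩

end Pool.Agent.H547R3.Sub
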