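import Mathlib
import Pool.Agent.H547R3.Sub.Growth2

set_option autoImplicit false

open Finset

namespace Pool.Agent.H547R3.Sub

/-- one step of the size -/
lemma step_log {p q : ℕ} (hp : 2 ≤ p) (hq : 1 ≤ q) {E : ℕ} {x y : ℤ} {e : ℕ} {r : ℤ} {ρ : ℝ}
    (hρ : 1 ≤ ρ) (h : (p : ℤ) * y = (q : ℤ) ^ e * x + r) (he : e ≤ E) (hr : |(r : ℝ)| ≤ ρ) :
    Real.log (|(y : ℝ)| + ρ) ≤ Real.log (|(x : ℝ)| + ρ) + Real.log (2 * (q : ℝ) ^ E) := by
  have hpR : (2 : ℝ) ≤ p := by exact_mod_cast hp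
  have hqR : (1 : ℝ) ≤ q := by exact_mod_cast hq
  have hqE : (1 : ℝ) ≤ (q : ℝ) ^ E := one_le_pow₀ hqR
  have hqe : (q : ℝ) ^ e ≤ (q : ℝ) ^ E := pow_le_pow_right₀ hqR he
  have hR : (p : ℝ) * (y : ℝ) = (q : ℝ) ^ e * (x : ℝ) + r := by exact_mod_cast h
  have hx0 : 0 ≤ |(x : ℝ)| := abs_nonneg _
  have hy0 : 0 ≤ |(y : ℝ)| := abs_nonneg _
  rw [← Real.log_mul (by positivity) (by positivity)]
  apply Real.log_le_log (by positivity)
  have h1 : (p : ℝ) * |(y : ℝ)| ≤ (q : ℝ) ^ E * |(x : ℝ)| + ρ := by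
    have h2 : (p : ℝ) * |(y : ℝ)| = |(q : ℝ) ^ e * (x : ℝ) + r| := by
      rw [← hR, abs_mul, abs_of_pos (by linarith : (0 : ℝ) < p)]
    rw [h2]
    refine (abs_add_le _ _).trans ?_
    rw [abs_mul, abs_of_nonneg (by positivity : (0 : ℝ) ≤ (q : ℝ) ^ e)]
    have := mul_le_mul_of_nonneg_right hqe hx0
    linarith
  have h2 : 2 * |(y : ℝ)| ≤ (q : ℝ) ^ E * |(x : ℝ)| + ρ :=
    (mul_le_mul_of_nonneg_right hpR hy0).trans h1
  have h3 : ρ ≤ (q : ℝ) ^ E * ρ := le_mul_of_one_le_left (by linarith) hqE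
  have h4 : 0 ≤ (q : ℝ) ^ E * |(x : ℝ)| := by positivity
  nlinarith

/-- many steps -/
lemma steps_log {p q : ℕ} (hp : 2 ≤ p) (hq : 1 ≤ q) {E : ℕ} (x : ℕ → ℤ) (e : ℕ → ℕ) (r : ℕ → ℤ)
    {ρ : ℝ} (hρ : 1 ≤ ρ) {a b : ℕ} (hab : a ≤ b)
    (hrec : ∀ j, a ≤ j → j < b → (p : ℤ) * x (j + 1) = (q : ℤ) ^ e j * x j + r j ∧ e j ≤ E ∧
      |(r j : ℝ)| ≤ ρ) :
    Real.log (|(x b : ℝ)| + ρ) ≤ Real.log (|(x a : ℝ)| + ρ) +
      Real.log (2 * (q : ℝ) ^ E) * ((b : ℝ) - a) := by
  induction b, hab using Nat.le_induction with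
  | base => simp
  | succ b hab ih =>
    have ih' := ih (fun j h1 h2 => hrec j h1 (by omega))
    obtain ⟨h1, h2, h3⟩ := hrec b hab (by omega)
    have h4 := step_log hp hq hρ h1 h2 h3
    push_cast
    linarith

/-- **Chain theorem.** -/
theorem chain {p q : ℕ} [Fact p.Prime] [Fact q.Prime] (hpq : p ≠ q) (E ℓ : ℕ) (C : ℝ)
    (hC : 0 < C) :
    ∃ A : ℝ, 0 < A ∧ ∀ (x : ℕ → ℤ) (e : ℕ → ℕ) (r : ℕ → ℤ) (t : ℕ → ℕ) (m : ℕ) (ρ : ℝ), 1 ≤ ρ →
      (∀ i < m, t i ≤ t (i + 1)) →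
      (∀ j, t 0 ≤ j → j < t m → (p : ℤ) * x (j + 1) = (q : ℤ) ^ e j * x j + r j ∧ e j ≤ E ∧
        |(r j : ℝ)| ≤ ρ) →
      (∀ i < m, ∃ π, 1 ≤ π ∧ π ≤ ℓ ∧ ∀ j, t i ≤ j → j + π < t (i + 1) →
        e (j + π) = e j ∧ r (j + π) = r j) →
      (∀ j π, t 0 ≤ j → 1 ≤ π → π ≤ ℓ → j + π ≤ t m → x (j + π) ≠ x j) →
      ((t m : ℝ) - t 0) ≤ A * (1 + Real.log (|(x (t 0) : ℝ)| + ρ)) * Real.exp (m / C) := by
  have hp : p.Prime := Fact.out
  have hq : q.Prime := Fact.out
  have hp0 : (0 : ℝ) < p := by exact_mod_cast hp.pos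
  have hq1 : (1 : ℝ) ≤ q := by exact_mod_cast hq.one_le
  set lp := Real.log p with hlp
  have hlp0 : 0 < lp := Real.log_pos (by exact_mod_cast hp.one_lt)
  set E' : ℝ := Real.log (2 * (q : ℝ) ^ E) with hE'
  have hqE : (1 : ℝ) ≤ (q : ℝ) ^ E := one_le_pow₀ hq1
  have hE'0 : 0 < E' := Real.log_pos (by linarith)
  set R : ℝ := 1 + 2 * E' / lp with hR
  have hR1 : 1 < R := by
    rw [hR]
    have : 0 < 2 * E' / lp := by positivity
    linarith
  have hR0 : 0 < R := by linarith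
  have hlogR : 0 < Real.log R := Real.log_pos hR1
  -- the size of the groups
  set s : ℕ := ⌈C * Real.log R⌉₊ + 1 with hs
  have hs1 : 1 ≤ s := by omega
  have hsR : C * Real.log R ≤ s := by
    have := Nat.le_ceil (C * Real.log R)
    rw [hs]; push_cast; linarith
  have hs0 : (0 : ℝ) < s := by exact_mod_cast hs1
  choose εf hεf n0f hgrow using fun s' : ℕ => growth hpq E ℓ s' (lp / 2) (by positivity)
  -- uniform constants for all `s' ≤ s`
  set nn : ℕ := ∑ s' ∈ Finset.range (s + 1), n0f s' with hnn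
  set ie : ℝ := ∑ s' ∈ Finset.range (s + 1), 1 / εf s' with hie
  have hie0 : 0 ≤ ie := Finset.sum_nonneg (fun i _ => by have := hεf i; positivity)
  -- one group
  have hone : ∀ (x : ℕ → ℤ) (e : ℕ → ℕ) (r : ℕ → ℤ) (t : ℕ → ℕ) (m : ℕ) (ρ : ℝ), 1 ≤ ρ → m ≤ s →
      (∀ i < m, t i ≤ t (i + 1)) →
      (∀ j, t 0 ≤ j → j < t m → (p : ℤ) * x (j + 1) = (q : ℤ) ^ e j * x j + r j ∧ e j ≤ E ∧
        |(r j : ℝ)| ≤ ρ) →
      (∀ i < m, ∃ π, 1 ≤ π ∧ π ≤ ℓ ∧ ∀ j, t i ≤ j → j + π < t (i + 1) →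
        e (j + π) = e j ∧ r (j + π) = r j) →
      (∀ j π, t 0 ≤ j → 1 ≤ π → π ≤ ℓ → j + π ≤ t m → x (j + π) ≠ x j) →
      ((t m : ℝ) - t 0) ≤ nn + ie * Real.log ρ + 2 / lp * Real.log (|(x (t 0) : ℝ)| + ρ) := by
    intro x e r t m ρ hρ hm hmono hrec hper hno
    by_contra hcon
    push Not at hcon
    have h0m : t 0 ≤ t m := mono_le hmono (Nat.zero_le _) le_rfl
    set n : ℕ := t m - t 0 with hn
    have hnR : (n : ℝ) = (t m : ℝ) - t 0 := by rw [hn, Nat.cast_sub h0m]
    rw [← hnR] at hcon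
    have hlogρ : 0 ≤ Real.log ρ := Real.log_nonneg hρ
    have hY : 0 ≤ Real.log (|(x (t 0) : ℝ)| + ρ) :=
      Real.log_nonneg (by have := abs_nonneg (x (t 0) : ℝ); linarith)
    have hnn0 : (0 : ℝ) ≤ nn := Nat.cast_nonneg _
    have h2lp : 0 ≤ 2 / lp * Real.log (|(x (t 0) : ℝ)| + ρ) := by positivity
    have hieρ : 0 ≤ ie * Real.log ρ := by positivity
    have hmem : m ∈ Finset.range (s + 1) := Finset.mem_range.2 (by omega)
    have hn0 : n0f m ≤ n := by
      have h1 : n0f m ≤ nn := Finset.single_le_sum (f := n0f) (fun _ _ => Nat.zero_le _) hmem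
      have h2 : (nn : ℝ) ≤ n := by linarith
      exact h1.trans (by exact_mod_cast h2)
    have hε : Real.log ρ ≤ εf m * n := by
      have h1 : 1 / εf m ≤ ie := Finset.single_le_sum (f := fun s' => 1 / εf s')
        (fun i _ => by have := hεf i; positivity) hmem
      have h2 : 1 / εf m * Real.log ρ ≤ n := by
        have := mul_le_mul_of_nonneg_right h1 hlogρ
        linarith
      have h3 := mul_le_mul_of_nonneg_left h2 (hεf m).le
      have h4 : εf m * (1 / εf m * Real.log ρ) = Real.log ρ := by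
        have := (hεf m).ne'
        field_simp
      linarith
    obtain ⟨j, π, g1, g2, g3, g4, g5⟩ := hgrow m n hn0 x e r t (by omega) hmono
      (fun j h1 h2 => by
        obtain ⟨f1, f2, f3⟩ := hrec j h1 h2
        refine ⟨f1, f2, f3.trans ?_⟩
        rw [← Real.log_le_iff_le_exp (by linarith)]
        exact hε)
      hper
      (by
        rw [natpow_exp hp.pos n, ← Real.exp_add]
        have h1 : Real.log (|(x (t 0) : ℝ)| + ρ) ≤ lp / 2 * n := by
          have h2 : 2 / lp * Real.log (|(x (t 0) : ℝ)| + ρ) ≤ n := by linarith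
          have h3 := mul_le_mul_of_nonneg_left h2 (by positivity : 0 ≤ lp / 2)
          have h4 : lp / 2 * (2 / lp * Real.log (|(x (t 0) : ℝ)| + ρ)) =
              Real.log (|(x (t 0) : ℝ)| + ρ) := by
            field_simp
          linarith
        have h5 : |(x (t 0) : ℝ)| + ρ ≤ Real.exp (lp / 2 * n) := by
          rw [← Real.log_le_iff_le_exp (by have := abs_nonneg (x (t 0) : ℝ); linarith)]
          exact h1
        have h6 : Real.log (p : ℝ) * n + -(lp / 2 * n) = lp / 2 * n := by rw [← hlp]; ring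
        rw [h6]
        linarith)
    exact hno j π g1 g2 g3 g4 g5
  -- several groups
  have hmany : ∀ (G : ℕ) (x : ℕ → ℤ) (e : ℕ → ℕ) (r : ℕ → ℤ) (t : ℕ → ℕ) (m : ℕ) (ρ : ℝ), 1 ≤ ρ →
      m ≤ s * G →
      (∀ i < m, t i ≤ t (i + 1)) →
      (∀ j, t 0 ≤ j → j < t m → (p : ℤ) * x (j + 1) = (q : ℤ) ^ e j * x j + r j ∧ e j ≤ E ∧
        |(r j : ℝ)| ≤ ρ) →
      (∀ i < m, ∃ π, 1 ≤ π ∧ π ≤ ℓ ∧ ∀ j, t i ≤ j → j + π < t (i + 1) →
        e (j + π) = e j ∧ r (j + π) = r j) →
      (∀ j π, t 0 ≤ j → 1 ≤ π → π ≤ ℓ → j + π ≤ t m → x (j + π) ≠ x j) →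
      ((t m : ℝ) - t 0) ≤ (Real.log (|(x (t 0) : ℝ)| + ρ) + lp / 2 * (nn + ie * Real.log ρ)) *
        (R ^ G - 1) / E' := by
    intro G
    induction G with
    | zero =>
      intro x e r t m ρ hρ hm _ _ _ _
      have : m = 0 := by omega
      subst this
      simp
    | succ G ih =>
      intro x e r t m ρ hρ hm hmono hrec hper hno
      have hlogρ : 0 ≤ Real.log ρ := Real.log_nonneg hρ
      set Y0 := Real.log (|(x (t 0) : ℝ)| + ρ) with hY0
      set b := lp / 2 * (nn + ie * Real.log ρ) with hb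
      have hb0 : 0 ≤ b := by rw [hb]; positivity
      have hY00 : 0 ≤ Y0 :=
        Real.log_nonneg (by have := abs_nonneg (x (t 0) : ℝ); linarith)
      have hRG : 1 ≤ R ^ G := one_le_pow₀ hR1.le
      have hconv : ∀ Y : ℝ, nn + ie * Real.log ρ + 2 / lp * Y = (Y + b) * (R - 1) / E' := by
        intro Y
        rw [hb, hR]
        field_simp
        ring
      rcases le_total m s with hms | hms
      · have h1 := hone x e r t m ρ hρ hms hmono hrec hper hno
        rw [hconv] at h1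
        refine h1.trans ?_
        apply div_le_div_of_nonneg_right _ hE'0.le
        apply mul_le_mul_of_nonneg_left _ (by positivity)
        rw [pow_succ]
        nlinarith
      · -- first group
        have hts : t s ≤ t m := mono_le hmono hms le_rfl
        have ht0s : t 0 ≤ t s := mono_le hmono (Nat.zero_le _) hms
        have h1 := hone x e r t s ρ hρ le_rfl (fun i hi => hmono i (by omega))
          (fun j h2 h3 => hrec j h2 (lt_of_lt_of_le h3 hts))
          (fun i hi => hper i (by omega))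
          (fun j π h2 h3 h4 h5 => hno j π h2 h3 h4 (h5.trans hts))
        rw [hconv] at h1
        have h2 := ih x e r (fun i => t (i + s)) (m - s) ρ hρ
          (by rw [Nat.mul_succ] at hm; omega)
          (fun i hi => by
            have := hmono (i + s) (by omega)
            rw [show i + 1 + s = i + s + 1 by ring]
            exact this)
          (fun j h3 h4 => by
            simp only [Nat.zero_add] at h3
            rw [Nat.sub_add_cancel hms] at h4
            exact hrec j (ht0s.trans h3) h4)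
          (fun i hi => by
            rw [show i + 1 + s = i + s + 1 by ring]
            exact hper (i + s) (by omega))
          (fun j π h3 h4 h5 h6 => by
            simp only [Nat.zero_add] at h3
            rw [Nat.sub_add_cancel hms] at h6
            exact hno j π (ht0s.trans h3) h4 h5 h6)
        simp only [Nat.zero_add] at h2
        rw [Nat.sub_add_cancel hms] at h2
        have h3 := steps_log hp.two_le hq.one_le x e r hρ ht0s
          (fun j h4 h5 => hrec j h4 (lt_of_lt_of_le h5 hts))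
        rw [← hE', ← hY0] at h3
        set Y1 := Real.log (|(x (t s) : ℝ)| + ρ) with hY1
        have h4 : Y1 + b ≤ (Y0 + b) * R := by
          have h5 : E' * ((t s : ℝ) - t 0) ≤ E' * ((Y0 + b) * (R - 1) / E') :=
            mul_le_mul_of_nonneg_left h1 hE'0.le
          have h6 : E' * ((Y0 + b) * (R - 1) / E') = (Y0 + b) * (R - 1) := by field_simp
          rw [h6] at h5
          nlinarith
        have h7 : (Y1 + b) * (R ^ G - 1) / E' ≤ (Y0 + b) * R * (R ^ G - 1) / E' := by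
          apply div_le_div_of_nonneg_right _ hE'0.le
          exact mul_le_mul_of_nonneg_right h4 (by linarith)
        have h8 : (Y0 + b) * (R - 1) / E' + (Y0 + b) * R * (R ^ G - 1) / E' =
            (Y0 + b) * (R ^ (G + 1) - 1) / E' := by
          rw [pow_succ]; ring
        linarith
  -- conclusion
  refine ⟨(1 + lp / 2 * (nn + ie)) * R / E', by positivity, ?_⟩
  intro x e r t m ρ hρ hmono hrec hper hno
  have hlogρ : 0 ≤ Real.log ρ := Real.log_nonneg hρ
  set Y0 := Real.log (|(x (t 0) : ℝ)| + ρ) with hY0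
  have hY0ρ : Real.log ρ ≤ Y0 := by
    apply Real.log_le_log (by linarith)
    have := abs_nonneg (x (t 0) : ℝ)
    linarith
  set G : ℕ := m / s + 1 with hG
  have hmG : m ≤ s * G := by
    have h1 := Nat.div_add_mod m s
    have h2 := Nat.mod_lt m hs1
    rw [hG, Nat.mul_succ]
    omega
  have h1 := hmany G x e r t m ρ hρ hmG hmono hrec hper hno
  rw [← hY0] at h1
  refine h1.trans ?_
  have hRG : R ^ G ≤ R * Real.exp (m / C) := by
    rw [hG, pow_succ, mul_comm]
    apply mul_le_mul_of_nonneg_left _ hR0.le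
    have h2 : R ^ (m / s) = Real.exp ((m / s : ℕ) * Real.log R) := by
      rw [Real.exp_nat_mul, Real.exp_log hR0]
    rw [h2]
    apply Real.exp_le_exp.2
    have h3 : ((m / s : ℕ) : ℝ) ≤ m / s := Nat.cast_div_le
    calc ((m / s : ℕ) : ℝ) * Real.log R ≤ (m / s : ℝ) * Real.log R :=
          mul_le_mul_of_nonneg_right h3 hlogR.le
      _ = m * Real.log R / s := by ring
      _ ≤ m / C := by
        rw [div_le_div_iff₀ hs0 hC]
        have : (0 : ℝ) ≤ m := Nat.cast_nonneg _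
        nlinarith
  have hb : Y0 + lp / 2 * (nn + ie * Real.log ρ) ≤ (1 + lp / 2 * (nn + ie)) * (1 + Y0) := by
    have h2 : ie * Real.log ρ ≤ ie * Y0 := mul_le_mul_of_nonneg_left hY0ρ hie0
    have h3 : 0 ≤ Y0 := hlogρ.trans hY0ρ
    have hnn0 : (0 : ℝ) ≤ nn := Nat.cast_nonneg _
    have h4 : lp / 2 * (nn + ie * Real.log ρ) ≤ lp / 2 * ((nn + ie) * (1 + Y0)) := by
      apply mul_le_mul_of_nonneg_left _ (by positivity)
      nlinarith
    nlinarith
  have hb0 : 0 ≤ Y0 + lp / 2 * (nn + ie * Real.log ρ) := by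
    have h3 : 0 ≤ Y0 := hlogρ.trans hY0ρ
    positivity
  calc (Y0 + lp / 2 * (nn + ie * Real.log ρ)) * (R ^ G - 1) / E' ≤
      ((1 + lp / 2 * (nn + ie)) * (1 + Y0)) * (R * Real.exp (m / C)) / E' := by
        apply div_le_div_of_nonneg_right _ hE'0.le
        apply mul_le_mul hb (by linarith) _ (hb0.trans hb)
        have : 1 ≤ R ^ G := one_le_pow₀ hR1.le
        linarith
    _ = _ := by ring

end Pool.Agent.H547R3.Sub
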