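import Mathlib
import Pool.Agent.H547R3.Sub.Piece

set_option autoImplicit false

open Finset

namespace Pool.Agent.H547R3.Sub

/-- **The piece lemma**, for an arbitrary nonzero multiple of the denominator. -/
theorem piece2 {p q : ℕ} (hp : p.Prime) (hq : q.Prime) (hpq : p ≠ q) (ℓ E : ℕ) (x : ℕ → ℤ)
    (e : ℕ → ℕ) (r : ℕ → ℤ) (ρ : ℝ) (hρ : 0 ≤ ρ) {a b : ℕ} (hab : a < b)
    (hrec : ∀ j, a ≤ j → j < b → (p : ℤ) * x (j + 1) = (q : ℤ) ^ e j * x j + r j ∧ e j ≤ E ∧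
      |(r j : ℝ)| ≤ ρ)
    (hper : ∃ π, 1 ≤ π ∧ π ≤ ℓ ∧ ∀ j, a ≤ j → j + π < b → e (j + π) = e j ∧ r (j + π) = r j) :
    ∃ D : ℤ, D ≠ 0 ∧ |(D : ℝ)| ≤ ((p : ℝ) * (q : ℝ) ^ E) ^ ℓ ∧ ∀ M : ℤ, M ≠ 0 → D ∣ M →
      ∃ F G : ℤ, |(F : ℝ)| ≤ |(M : ℝ)| * (ℓ * ((p : ℝ) * (q : ℝ) ^ E) ^ ℓ) * ρ ∧
        |(G : ℝ)| ≤ |(M : ℝ)| * (ℓ * ((p : ℝ) * (q : ℝ) ^ E) ^ ℓ) * ρ ∧
        (p : ℤ) ^ (b - a) * (M * x b - G) = (q : ℤ) ^ kap e a b * (M * x a - F) ∧
        (M * x a - F = 0 → ∃ π, 1 ≤ π ∧ π ≤ ℓ ∧ a + π ≤ b ∧ x (a + π) = x a) := by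
  -- choose a period `≤ b - a`
  obtain ⟨π, hπ1, hπℓ, hπb, hπ⟩ : ∃ π, 1 ≤ π ∧ π ≤ ℓ ∧ a + π ≤ b ∧
      ∀ j, a ≤ j → j + π < b → e (j + π) = e j ∧ r (j + π) = r j := by
    obtain ⟨π, h1, h2, h3⟩ := hper
    rcases le_total (a + π) b with h | h
    · exact ⟨π, h1, h2, h, h3⟩
    · exact ⟨b - a, by omega, by omega, by omega, fun j h4 h5 => by omega⟩
  set g : ℕ := kap e a (a + π) with hg
  have hgE : g ≤ E * ℓ := by
    refine (kap_le e (E := E) (fun j h1 h2 => (hrec j h1 (by omega)).2.1)).trans ?_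
    have : a + π - a ≤ ℓ := by omega
    exact Nat.mul_le_mul_left _ this
  have hD0 : (p : ℤ) ^ π - (q : ℤ) ^ g ≠ 0 := pow_ne_pow hp hq hpq hπ1
  refine ⟨(p : ℤ) ^ π - (q : ℤ) ^ g, hD0, ?_, ?_⟩
  · have hp1 : (1 : ℝ) ≤ p := by exact_mod_cast hp.one_le
    have hq1 : (1 : ℝ) ≤ q := by exact_mod_cast hq.one_le
    have hqE1 : (1 : ℝ) ≤ (q : ℝ) ^ E := one_le_pow₀ hq1
    have hgπ : g ≤ E * π := by
      have := kap_le e (E := E) (a := a) (b := a + π)
        (fun j h1 h2 => (hrec j h1 (by omega)).2.1)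
      rwa [Nat.add_sub_cancel_left] at this
    have h1 : (p : ℝ) ^ π ≤ ((p : ℝ) * (q : ℝ) ^ E) ^ ℓ :=
      (pow_le_pow_left₀ (by linarith) (le_mul_of_one_le_right (by linarith) hqE1) π).trans
        (pow_le_pow_right₀ (one_le_mul_of_one_le_of_one_le hp1 hqE1) hπℓ)
    have h2 : (q : ℝ) ^ g ≤ ((p : ℝ) * (q : ℝ) ^ E) ^ ℓ := by
      calc (q : ℝ) ^ g ≤ (q : ℝ) ^ (E * π) := pow_le_pow_right₀ hq1 hgπ
        _ = ((q : ℝ) ^ E) ^ π := by rw [pow_mul]
        _ ≤ ((p : ℝ) * (q : ℝ) ^ E) ^ π :=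
          pow_le_pow_left₀ (by positivity) (le_mul_of_one_le_left (by positivity) hp1) π
        _ ≤ _ := pow_le_pow_right₀ (one_le_mul_of_one_le_of_one_le hp1 hqE1) hπℓ
    push_cast
    have h3 : (0 : ℝ) < (p : ℝ) ^ π := by positivity
    have h4 : (0 : ℝ) < (q : ℝ) ^ g := by have : (0:ℝ) < q := by linarith
                                          positivity
    rw [abs_le]
    constructor <;> linarith
  intro M hM0 hDM
  obtain ⟨M', hM'⟩ := hDM
  have hM'0 : M' ≠ 0 := by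
    rintro rfl
    rw [mul_zero] at hM'
    exact hM0 hM'
  have hM'le : |(M' : ℝ)| ≤ |(M : ℝ)| := by
    have h1 : |M'| ≤ |M| := by
      rw [hM', abs_mul]
      have : 1 ≤ |(p : ℤ) ^ π - (q : ℤ) ^ g| := Int.one_le_abs hD0
      nlinarith [abs_nonneg M']
    exact_mod_cast h1
  -- windows
  have hwin : ∀ j, a ≤ j → j + π ≤ b → kap e j (j + π) = g := by
    intro j hj
    induction j, hj using Nat.le_induction with
    | base => intro _; rfl
    | succ j hj ih =>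
      intro h1
      have h2 := ih (by omega)
      have h3 : kap e j (j + 1 + π) = kap e j (j + π) + e (j + π) := by
        rw [show j + 1 + π = (j + π) + 1 by ring]
        exact kap_succ e (by omega)
      have h4 : kap e j (j + 1 + π) = kap e j (j + 1) + kap e (j + 1) (j + 1 + π) :=
        kap_add e (by omega) (by omega)
      have h5 : kap e j (j + 1) = e j := by rw [kap_succ e (le_refl j), kap_self, zero_add]
      have h6 := (hπ j hj (by omega)).1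
      omega
  -- differences
  have hdiff : ∀ j, a ≤ j → j + π ≤ b → (p : ℤ) ^ (j - a) * (x (j + π) - x j) =
      (q : ℤ) ^ kap e a j * (x (a + π) - x a) := by
    intro j hj
    induction j, hj using Nat.le_induction with
    | base => intro _; simp [kap_self]
    | succ j hj ih =>
      intro h1
      have h2 := ih (by omega)
      have h3 := (hrec j hj (by omega)).1
      have h4 := (hrec (j + π) (by omega) (by omega)).1
      obtain ⟨h5, h6⟩ := hπ j hj (by omega)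
      rw [h5, h6] at h4
      have e1 : j + 1 - a = (j - a) + 1 := by omega
      rw [e1, kap_succ e hj, pow_succ, pow_add, show j + 1 + π = j + π + 1 by ring]
      linear_combination (p : ℤ) ^ (j - a) * h4 - (p : ℤ) ^ (j - a) * h3 + (q : ℤ) ^ e j * h2
  set F : ℤ := M' * ((p : ℤ) ^ π * x (a + π) - (q : ℤ) ^ g * x a) with hF
  set G : ℤ := M' * ((p : ℤ) ^ π * x b - (q : ℤ) ^ g * x (b - π)) with hG
  have hbound : ∀ (j : ℕ), a ≤ j → j + π ≤ b →
      |((M' * ((p : ℤ) ^ π * x (j + π) - (q : ℤ) ^ g * x j) : ℤ) : ℝ)| ≤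
        |(M : ℝ)| * (ℓ * ((p : ℝ) * (q : ℝ) ^ E) ^ ℓ) * ρ := by
    intro j h1 h2
    have h3 := rem_le hp.one_le hq.one_le x e r ρ hρ (show j ≤ j + π by omega)
      (fun i h4 h5 => hrec i (by omega) (by omega))
    rw [hwin j h1 h2, Nat.add_sub_cancel_left] at h3
    have hB1 : (1 : ℝ) ≤ (p : ℝ) * (q : ℝ) ^ E := by
      have h4 : (1 : ℝ) ≤ p := by exact_mod_cast hp.one_le
      have h5 : (1 : ℝ) ≤ (q : ℝ) ^ E := one_le_pow₀ (by exact_mod_cast hq.one_le)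
      exact one_le_mul_of_one_le_of_one_le h4 h5
    have h6 : (π : ℝ) * ρ * ((p : ℝ) * (q : ℝ) ^ E) ^ π ≤
        ℓ * ρ * ((p : ℝ) * (q : ℝ) ^ E) ^ ℓ := by
      apply mul_le_mul _ (pow_le_pow_right₀ hB1 hπℓ) (by positivity) (by positivity)
      exact mul_le_mul_of_nonneg_right (by exact_mod_cast hπℓ) hρ
    rw [Int.cast_mul, abs_mul]
    calc _ ≤ |(M : ℝ)| * (ℓ * ρ * ((p : ℝ) * (q : ℝ) ^ E) ^ ℓ) :=
          mul_le_mul hM'le (h3.trans h6) (abs_nonneg _) (abs_nonneg _)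
      _ = |(M : ℝ)| * (ℓ * ((p : ℝ) * (q : ℝ) ^ E) ^ ℓ) * ρ := by ring
  refine ⟨F, G, hbound a le_rfl hπb, ?_, ?_, ?_⟩
  · have h1 := hbound (b - π) (by omega) (by omega)
    have e1 : b - π + π = b := by omega
    rw [e1] at h1
    exact h1
  · have e1 : b - π + π = b := by omega
    have h1 := hdiff (b - π) (by omega) (by omega)
    rw [e1] at h1
    have h2 : kap e a b = kap e a (b - π) + g := by
      rw [kap_add e (show a ≤ b - π by omega) (show b - π ≤ b by omega)]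
      congr 1
      have h3 := hwin (b - π) (by omega) (by omega)
      rw [e1] at h3
      exact h3
    have h4 : b - a = (b - π - a) + π := by omega
    rw [h2, h4, pow_add, pow_add, hF, hG, hM']
    linear_combination (-(M' * (p : ℤ) ^ π * (q : ℤ) ^ g)) * h1
  · intro h0
    refine ⟨π, hπ1, hπℓ, hπb, ?_⟩
    have h1 : M * x a - F = M' * ((p : ℤ) ^ π * (x a - x (a + π))) := by
      rw [hM', hF]; ring
    rw [h1] at h0
    have hpπ : (p : ℤ) ^ π ≠ 0 := pow_ne_zero _ (by exact_mod_cast hp.ne_zero)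
    rcases mul_eq_zero.1 h0 with h2 | h2
    · exact absurd h2 hM'0
    · rcases mul_eq_zero.1 h2 with h3 | h3
      · exact absurd h3 hpπ
      · linarith

end Pool.Agent.H547R3.Sub
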