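import Mathlib
import Pool.Agent.H547R3.Sub.Growth
import Pool.Agent.H547R3.Sub.Piece2

set_option autoImplicit false

open Finset

namespace Pool.Agent.H547R3.Sub

/-- The main case: the last piece is long, and (if there are other pieces) the first piece has
a large `q`-exponent. -/
theorem growth_main2 {p q : ℕ} [Fact p.Prime] [Fact q.Prime] (hpq : p ≠ q) (E s : ℕ)
    (η δa δb : ℝ) (hη : 0 < η) (hδa : 0 < δa) (hδb : 0 < δb) :
    ∃ ε : ℝ, 0 < ε ∧ ∃ n0 : ℕ, ∀ n : ℕ, n0 ≤ n → ∀ ℓ : ℕ, (ℓ : ℝ) ≤ ε * n →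
      ∀ (x : ℕ → ℤ) (e : ℕ → ℕ) (r : ℕ → ℤ) (t : ℕ → ℕ), t (s + 1) = t 0 + n →
      (∀ i < s + 1, t i ≤ t (i + 1)) →
      (∀ j, t 0 ≤ j → j < t (s + 1) → (p : ℤ) * x (j + 1) = (q : ℤ) ^ e j * x j + r j ∧ e j ≤ E ∧
        |(r j : ℝ)| ≤ Real.exp (ε * n)) →
      (∀ i < s + 1, ∃ π, 1 ≤ π ∧ π ≤ ℓ ∧ ∀ j, t i ≤ j → j + π < t (i + 1) →
        e (j + π) = e j ∧ r (j + π) = r j) →
      |(x (t 0) : ℝ)| ≤ (p : ℝ) ^ n * Real.exp (-(η * n)) →
      ((t s : ℝ) + δb * n ≤ t (s + 1)) → (1 ≤ s → δa * n ≤ kap e (t 0) (t 1)) →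
      ∃ j π, t 0 ≤ j ∧ 1 ≤ π ∧ π ≤ ℓ ∧ j + π ≤ t (s + 1) ∧ x (j + π) = x j := by
  have hp : p.Prime := Fact.out
  have hq : q.Prime := Fact.out
  have hp0 : (0 : ℝ) < p := by exact_mod_cast hp.pos
  have hq0 : (0 : ℝ) < q := by exact_mod_cast hq.pos
  have hp1 : (1 : ℝ) ≤ p := by exact_mod_cast hp.one_le
  have hq1 : (1 : ℝ) ≤ q := by exact_mod_cast hq.one_le
  set lp := Real.log p with hlp
  have hlp0 : 0 < lp := Real.log_pos (by exact_mod_cast hp.one_lt)
  set B : ℝ := (p : ℝ) * (q : ℝ) ^ E with hB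
  have hqE1 : (1 : ℝ) ≤ (q : ℝ) ^ E := one_le_pow₀ hq1
  have hB1 : 1 ≤ B := one_le_mul_of_one_le_of_one_le hp1 hqE1
  have hB0 : 0 < B := by linarith
  set lB := Real.log B with hlB
  have hlB0 : 0 ≤ lB := Real.log_nonneg hB1
  set c : ℝ := (s + 2) * lB + 1 with hc
  have hc0 : 0 < c := by rw [hc]; positivity
  set δ : ℝ := min (min (η / 2) (δb * lp / 4)) (min (min δb δa) (1 / ((E : ℝ) + 1))) with hδ
  have hδ0 : 0 < δ := by
    rw [hδ]; apply lt_min <;> apply lt_min <;> first | positivity | (apply lt_min <;> positivity)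
  have hδη : δ ≤ η / 2 := le_trans (min_le_left _ _) (min_le_left _ _)
  have hδlp : δ ≤ δb * lp / 4 := le_trans (min_le_left _ _) (min_le_right _ _)
  have hδδb : δ ≤ δb := le_trans (min_le_right _ _) (le_trans (min_le_left _ _) (min_le_left _ _))
  have hδδa : δ ≤ δa := le_trans (min_le_right _ _) (le_trans (min_le_left _ _) (min_le_right _ _))
  have hδE : δ ≤ 1 / ((E : ℝ) + 1) := le_trans (min_le_right _ _) (min_le_right _ _)
  have hδE' : δ * (E + 1) ≤ 1 := by
    rw [le_div_iff₀ (by positivity)] at hδE; exact hδE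
  have hδ1 : δ ≤ 1 := by
    have : (0 : ℝ) ≤ E := Nat.cast_nonneg _
    nlinarith
  obtain ⟨εm, hεm, Nm, hmerge⟩ := merge hpq s δ hδ0
  set ε : ℝ := min (min (δb * lp / 4) (εm / 2)) (min (δ / (2 * c)) (εm / (8 * c))) with hε
  have hε0 : 0 < ε := by
    rw [hε]; apply lt_min <;> apply lt_min <;> positivity
  have hε1 : ε ≤ δb * lp / 4 := (min_le_left _ _).trans (min_le_left _ _)
  have hε2 : ε ≤ εm / 2 := (min_le_left _ _).trans (min_le_right _ _)
  have hε3 : ε * c ≤ δ / 2 := by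
    have h : ε ≤ δ / (2 * c) := (min_le_right _ _).trans (min_le_left _ _)
    rw [le_div_iff₀ (by positivity)] at h
    linarith
  have hε4 : ε * c ≤ εm / 8 := by
    have h : ε ≤ εm / (8 * c) := (min_le_right _ _).trans (min_le_right _ _)
    rw [le_div_iff₀ (by positivity)] at h
    linarith
  refine ⟨ε, hε0, 1 + Nm + ⌈(2 * s + 2) * 2 / δ⌉₊ + ⌈4 / εm⌉₊, ?_⟩
  intro n hn ℓ hℓn x e r t htn hmono hrec hper hx hlast hfirst
  have hn1 : 1 ≤ n := by omega
  have hnm : Nm ≤ n := by omega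
  have hn3 : ((2 : ℝ) * s + 2) * 2 / δ ≤ n :=
    le_trans (Nat.le_ceil _) (by exact_mod_cast (by omega :
      ⌈((2 : ℝ) * s + 2) * 2 / δ⌉₊ ≤ n))
  have hn4 : 4 / εm ≤ n :=
    le_trans (Nat.le_ceil _) (by exact_mod_cast (by omega : ⌈4 / εm⌉₊ ≤ n))
  have hnR : (1 : ℝ) ≤ n := by exact_mod_cast hn1
  have hn0 : (0 : ℝ) ≤ n := by linarith
  set ρ : ℝ := Real.exp (ε * n) with hρ
  have hρ0 : 0 < ρ := Real.exp_pos _
  have hts : ∀ i ≤ s + 1, t i ≤ t (s + 1) := fun i hi => mono_le hmono hi le_rfl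
  have ht0 : ∀ i ≤ s + 1, t 0 ≤ t i := fun i hi => mono_le hmono (Nat.zero_le _) hi
  -- the pieces
  have hpieceD : ∀ i, i < s + 1 → ∃ D : ℤ, D ≠ 0 ∧ |(D : ℝ)| ≤ B ^ ℓ ∧
      ∀ M : ℤ, M ≠ 0 → D ∣ M → ∃ F G : ℤ,
      |(F : ℝ)| ≤ |(M : ℝ)| * (ℓ * B ^ ℓ) * ρ ∧ |(G : ℝ)| ≤ |(M : ℝ)| * (ℓ * B ^ ℓ) * ρ ∧
      (p : ℤ) ^ (t (i + 1) - t i) * (M * x (t (i + 1)) - G) =
        (q : ℤ) ^ kap e (t i) (t (i + 1)) * (M * x (t i) - F) ∧
      (t i < t (i + 1) → M * x (t i) - F = 0 → ∃ π, 1 ≤ π ∧ π ≤ ℓ ∧ t i + π ≤ t (i + 1) ∧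
        x (t i + π) = x (t i)) := by
    intro i hi
    have h1 := hmono i hi
    rcases Nat.lt_or_ge (t i) (t (i + 1)) with h | h
    · obtain ⟨D, hD0, hDB, hD⟩ := piece2 hp hq hpq ℓ E x e r ρ hρ0.le h
        (fun j h6 h7 => hrec j ((ht0 i (by omega)).trans h6)
          (lt_of_lt_of_le h7 (hts (i + 1) (by omega)))) (hper i hi)
      refine ⟨D, hD0, hDB, fun M hM0 hDM => ?_⟩
      obtain ⟨F, G, h2, h3, h4, h5⟩ := hD M hM0 hDM
      exact ⟨F, G, h2, h3, h4, fun _ => h5⟩
    · have h2 : t (i + 1) = t i := le_antisymm h h1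
      refine ⟨1, one_ne_zero, ?_, fun M hM0 _ => ⟨0, 0, ?_, ?_, ?_, ?_⟩⟩
      · rw [Int.cast_one, abs_one]; exact one_le_pow₀ hB1
      · rw [Int.cast_zero, abs_zero]; positivity
      · rw [Int.cast_zero, abs_zero]; positivity
      · rw [h2, Nat.sub_self, kap_self, pow_zero, pow_zero]
      · intro h3; omega
  choose! D hD0 hDB hDM using hpieceD
  set M : ℤ := ∏ i ∈ Finset.range (s + 1), D i with hM
  have hM0 : M ≠ 0 := Finset.prod_ne_zero_iff.2 (fun i hi => hD0 i (Finset.mem_range.1 hi))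
  set C : ℝ := |(M : ℝ)| * (ℓ * B ^ ℓ) with hC
  have hC0 : 0 ≤ C := by rw [hC]; positivity
  have hpiece : ∀ i, i < s + 1 → ∃ F G : ℤ, |(F : ℝ)| ≤ C * ρ ∧ |(G : ℝ)| ≤ C * ρ ∧
      (p : ℤ) ^ (t (i + 1) - t i) * (M * x (t (i + 1)) - G) =
        (q : ℤ) ^ kap e (t i) (t (i + 1)) * (M * x (t i) - F) ∧
      (t i < t (i + 1) → M * x (t i) - F = 0 → ∃ π, 1 ≤ π ∧ π ≤ ℓ ∧ t i + π ≤ t (i + 1) ∧
        x (t i + π) = x (t i)) := by
    intro i hi
    exact hDM i hi M hM0 (Finset.dvd_prod_of_mem D (Finset.mem_range.2 hi))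
  choose! F G hF hG hFG hrep using hpiece
  -- sizes of `M` and `C`
  have hBℓ : B ^ ℓ ≤ Real.exp (lB * (ε * n)) := by
    rw [← Real.exp_log (show 0 < B ^ ℓ by positivity), Real.log_pow]
    apply Real.exp_le_exp.2
    rw [mul_comm]
    exact mul_le_mul_of_nonneg_left hℓn hlB0
  have hεn0 : 0 ≤ ε * n := by positivity
  have hMle : |(M : ℝ)| ≤ Real.exp ((s + 1) * (lB * (ε * n))) := by
    have h1 : |(M : ℝ)| ≤ (B ^ ℓ) ^ (s + 1) := by
      rw [hM]
      push_cast
      rw [Finset.abs_prod]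
      calc ∏ i ∈ Finset.range (s + 1), |(D i : ℝ)| ≤ ∏ _i ∈ Finset.range (s + 1), B ^ ℓ :=
            Finset.prod_le_prod (fun i _ => abs_nonneg _)
              (fun i hi => hDB i (Finset.mem_range.1 hi))
        _ = _ := by rw [Finset.prod_const, Finset.card_range]
    refine h1.trans ?_
    calc (B ^ ℓ) ^ (s + 1) ≤ Real.exp (lB * (ε * n)) ^ (s + 1) :=
          pow_le_pow_left₀ (by positivity) hBℓ _
      _ = _ := by rw [← Real.exp_nat_mul]; push_cast; ring_nf
  have hMle' : |(M : ℝ)| ≤ Real.exp (ε * c * n) := by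
    refine hMle.trans (Real.exp_le_exp.2 ?_)
    have h1 : 0 ≤ lB * (ε * n) := by positivity
    have h2 : ε * c * n = (s + 1) * (lB * (ε * n)) + lB * (ε * n) + ε * n := by rw [hc]; ring
    linarith
  have hCle : C ≤ Real.exp (ε * c * n) := by
    have h1 : (ℓ : ℝ) ≤ Real.exp (ε * n) := by
      have := Real.add_one_le_exp (ε * n)
      linarith
    calc C ≤ Real.exp ((s + 1) * (lB * (ε * n))) * (Real.exp (ε * n) * Real.exp (lB * (ε * n))) := by
          rw [hC]
          apply mul_le_mul hMle _ (by positivity) (Real.exp_pos _).le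
          exact mul_le_mul h1 hBℓ (by positivity) (Real.exp_pos _).le
      _ = Real.exp (ε * c * n) := by
          rw [← Real.exp_add, ← Real.exp_add]; congr 1; rw [hc]; ring
  -- the units
  set A : ℕ → ℤ := fun i => (p : ℤ) ^ (t i - t 0) * (q : ℤ) ^ kap e (t i) (t (s + 1)) with hA
  set K := kap e (t 0) (t (s + 1)) with hK
  have hA0 : A 0 = (q : ℤ) ^ K := by simp [hA, hK]
  have hAs : A (s + 1) = (p : ℤ) ^ n := by
    simp only [hA]
    rw [kap_self, pow_zero, mul_one, htn, Nat.add_sub_cancel_left]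
  have hstep : ∀ i, i < s + 1 → A (i + 1) * (M * x (t (i + 1)) - G i) =
      A i * (M * x (t i) - F i) := by
    intro i hi
    have h1 := hFG i hi
    have h2 := hmono i hi
    have h3 := ht0 i (by omega)
    have h4 := hts (i + 1) (by omega)
    simp only [hA]
    have e1 : t (i + 1) - t 0 = (t i - t 0) + (t (i + 1) - t i) := by omega
    have e2 : kap e (t i) (t (s + 1)) = kap e (t i) (t (i + 1)) + kap e (t (i + 1)) (t (s + 1)) :=
      kap_add e h2 h4
    rw [e1, e2, pow_add, pow_add]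
    linear_combination (p : ℤ) ^ (t i - t 0) * (q : ℤ) ^ kap e (t (i + 1)) (t (s + 1)) * h1
  have htele : ∀ k, k ≤ s + 1 → A k * (M * x (t k)) = A 0 * (M * x (t 0)) +
      ∑ i ∈ Finset.range k, (G i * A (i + 1) - F i * A i) := by
    intro k
    induction k with
    | zero => intro _; simp
    | succ k ih =>
      intro hk
      have h1 := ih (by omega)
      have h2 := hstep k (by omega)
      rw [Finset.sum_range_succ, ← add_assoc, ← h1]
      linear_combination h2
  set X : ℤ := (p : ℤ) ^ n * (M * x (t (s + 1)) - G s) with hX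
  set lam : Fin s → ℤ := fun i => -(G i - F (i + 1)) with hlam
  set α : Fin s → ℕ := fun i => t (i + 1) - t 0 with hα
  set β : Fin s → ℕ := fun i => kap e (t (i + 1)) (t (s + 1)) with hβ
  have hsumX : X + ∑ j, lam j * ((p : ℤ) ^ α j * (q : ℤ) ^ β j) =
      (q : ℤ) ^ K * (M * x (t 0) - F 0) := by
    have h1 := htele (s + 1) le_rfl
    have h2 : ∑ i ∈ Finset.range (s + 1), (G i * A (i + 1) - F i * A i) =
        G s * A (s + 1) - F 0 * A 0 + ∑ i ∈ Finset.range s, (G i - F (i + 1)) * A (i + 1) := by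
      rw [Finset.sum_sub_distrib, Finset.sum_range_succ, Finset.sum_range_succ']
      have : ∑ i ∈ Finset.range s, (G i - F (i + 1)) * A (i + 1) =
          ∑ i ∈ Finset.range s, G i * A (i + 1) - ∑ i ∈ Finset.range s, F (i + 1) * A (i + 1) := by
        rw [← Finset.sum_sub_distrib]
        apply Finset.sum_congr rfl
        intro i _; ring
      rw [this]; ring
    have h3 : ∑ j, lam j * ((p : ℤ) ^ α j * (q : ℤ) ^ β j) =
        -∑ i ∈ Finset.range s, (G i - F (i + 1)) * A (i + 1) := by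
      rw [← Fin.sum_univ_eq_sum_range (fun i => (G i - F (i + 1)) * A (i + 1)),
        ← Finset.sum_neg_distrib]
      apply Finset.sum_congr rfl
      intro i _
      simp only [hlam, hα, hβ, hA]
      ring
    rw [h3, hX]
    rw [h2, hAs, hA0] at h1
    linear_combination h1
  have hβK : ∀ j, (q : ℝ) ^ β j ≤ (q : ℝ) ^ K := by
    intro j
    apply pow_le_pow_right₀ hq1
    rw [hK, kap_add e (ht0 (j + 1) (by omega)) (hts (j + 1) (by omega))]
    exact Nat.le_add_left _ _
  have htsle : ∀ j : Fin s, (α j : ℝ) ≤ n - δb * n := by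
    intro j
    have h1 : t (j + 1) ≤ t s := mono_le hmono (by omega) (by omega)
    have h2 : α j + t 0 ≤ t s := by
      simp only [hα]
      have := ht0 (j + 1) (by omega)
      omega
    have h3 : (α j : ℝ) + t 0 ≤ t s := by exact_mod_cast h2
    have h4 : (t (s + 1) : ℝ) = t 0 + n := by exact_mod_cast htn
    linarith
  have hlamle : ∀ j, |(lam j : ℝ)| ≤ 2 * C * ρ := by
    intro j
    simp only [hlam]
    push_cast
    rw [abs_neg]
    refine (abs_sub _ _).trans ?_
    have h1 := hG j (by omega)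
    have h2 := hF (j + 1) (by omega)
    linarith
  have hexpδ : |(M : ℝ)| + (2 * s + 1) * C ≤ Real.exp (δ * n) := by
    rw [div_le_iff₀ hδ0] at hn3
    have h1 := Real.add_one_le_exp (δ / 2 * n)
    have h2 : Real.exp (ε * c * n) ≤ Real.exp (δ / 2 * n) :=
      Real.exp_le_exp.2 (mul_le_mul_of_nonneg_right hε3 hn0)
    have h3 : (0 : ℝ) ≤ 2 * s + 1 := by positivity
    have h4 : |(M : ℝ)| + (2 * s + 1) * C ≤ (2 * s + 2) * Real.exp (δ / 2 * n) := by
      have h5 := mul_le_mul_of_nonneg_left (hCle.trans h2) h3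
      have h6 := hMle'.trans h2
      linarith
    refine h4.trans ?_
    have h7 : Real.exp (δ * n) = Real.exp (δ / 2 * n) * Real.exp (δ / 2 * n) := by
      rw [← Real.exp_add]; congr 1; ring
    rw [h7]
    apply mul_le_mul_of_nonneg_right _ (Real.exp_pos _).le
    linarith
  have hpn : (p : ℝ) ^ n = Real.exp (lp * n) := natpow_exp hp.pos n
  -- conclusion from the subspace theorem
  have hX0 : X = 0 := by
    refine hmerge n hnm n K α β ?_ ?_ ?_ ?_ lam ?_ X (Dvd.intro _ rfl)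
      (by rw [hsumX]; exact Dvd.intro _ rfl) ?_
    · have h1 := mul_le_mul_of_nonneg_right hδ1 hn0
      rwa [one_mul] at h1
    · have h1 : K ≤ E * n := by
        have h2 := kap_le e (E := E) (a := t 0) (b := t (s + 1)) (fun j h1 h2 => (hrec j h1 h2).2.1)
        rw [htn, Nat.add_sub_cancel_left] at h2
        rw [hK, htn]; exact h2
      have h2 : (K : ℝ) ≤ E * n := by exact_mod_cast h1
      calc δ * K ≤ δ * (E * n) := mul_le_mul_of_nonneg_left h2 hδ0.le
        _ ≤ (δ * (E + 1)) * n := by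
          have g1 : 0 ≤ δ * n := by positivity
          have g2 : δ * (E + 1) * n = δ * (E * n) + δ * n := by ring
          linarith only [g1, g2]
        _ ≤ 1 * n := mul_le_mul_of_nonneg_right hδE' hn0
        _ = n := one_mul _
    · intro j
      have h1 := htsle j
      have h2 : δ * n ≤ δb * n := mul_le_mul_of_nonneg_right hδδb hn0
      linarith
    · intro j
      have hs1 : 1 ≤ s := by have := j.2; omega
      have h1 := hfirst hs1
      have h2 : kap e (t 0) (t 1) + β j ≤ K := by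
        rw [hK, kap_add e (ht0 1 (by omega)) (hts 1 (by omega))]
        simp only [hβ]
        have h3 : t 1 ≤ t (j + 1) := mono_le hmono (by omega) (by omega)
        rw [kap_add e h3 (hts (j + 1) (by omega))]
        omega
      have h3 : (kap e (t 0) (t 1) : ℝ) + β j ≤ K := by exact_mod_cast h2
      have h4 : δ * n ≤ δa * n := mul_le_mul_of_nonneg_right hδδa hn0
      linarith
    · intro j
      refine (hlamle j).trans ?_
      have h1 : 2 * C ≤ Real.exp (εm / 2 * n) := by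
        rw [div_le_iff₀ hεm] at hn4
        have h3 := Real.add_one_le_exp (εm / 4 * n)
        have h4 : Real.exp (ε * c * n) ≤ Real.exp (εm / 8 * n) :=
          Real.exp_le_exp.2 (mul_le_mul_of_nonneg_right hε4 hn0)
        calc 2 * C ≤ Real.exp (εm / 4 * n) * Real.exp (εm / 8 * n) :=
              mul_le_mul (by linarith) (hCle.trans h4) hC0 (Real.exp_pos _).le
          _ = Real.exp (3 * εm / 8 * n) := by rw [← Real.exp_add]; congr 1; ring
          _ ≤ _ := by
            apply Real.exp_le_exp.2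
            apply mul_le_mul_of_nonneg_right _ hn0
            linarith
      have h2 : ρ ≤ Real.exp (εm / 2 * n) := by
        rw [hρ]
        exact Real.exp_le_exp.2 (mul_le_mul_of_nonneg_right hε2 hn0)
      calc 2 * C * ρ ≤ Real.exp (εm / 2 * n) * Real.exp (εm / 2 * n) :=
            mul_le_mul h1 h2 hρ0.le (Real.exp_pos _).le
        _ = Real.exp (εm * n) := by rw [← Real.exp_add]; congr 1; ring
    · -- the size of X
      have hXR : (X : ℝ) = (q : ℝ) ^ K * ((M : ℝ) * x (t 0) - F 0) -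
          ∑ j, (lam j : ℝ) * ((p : ℝ) ^ α j * (q : ℝ) ^ β j) := by
        have := congrArg (Int.cast (R := ℝ)) hsumX
        push_cast at this
        linarith
      have hb1 : |(M : ℝ) * x (t 0) - F 0| ≤
          (p : ℝ) ^ n * (|(M : ℝ)| * Real.exp (-(η * n)) + C * Real.exp (ε * n - δb * lp * n)) := by
        refine (abs_sub _ _).trans ?_
        rw [abs_mul]
        have h1 := hF 0 (by omega)
        have h2 : |(M : ℝ)| * |(x (t 0) : ℝ)| ≤ |(M : ℝ)| * ((p : ℝ) ^ n * Real.exp (-(η * n))) :=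
          mul_le_mul_of_nonneg_left hx (abs_nonneg _)
        have h3 : ρ ≤ (p : ℝ) ^ n * Real.exp (ε * n - δb * lp * n) := by
          rw [hρ, hpn, ← Real.exp_add]
          apply Real.exp_le_exp.2
          have h4 : δb * n ≤ n := by
            have h5 : (t s : ℝ) + δb * n ≤ t 0 + n := by
              have : (t (s + 1) : ℝ) = t 0 + n := by exact_mod_cast htn
              linarith
            have h6 : (t 0 : ℝ) ≤ t s := by exact_mod_cast ht0 s (by omega)
            linarith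
          have h5 := mul_le_mul_of_nonneg_left h4 hlp0.le
          linarith only [h5]
        have h4 : C * ρ ≤ C * ((p : ℝ) ^ n * Real.exp (ε * n - δb * lp * n)) :=
          mul_le_mul_of_nonneg_left h3 hC0
        linarith
      have hb2 : ∀ j, |(lam j : ℝ) * ((p : ℝ) ^ α j * (q : ℝ) ^ β j)| ≤
          (q : ℝ) ^ K * ((p : ℝ) ^ n * (2 * C * Real.exp (ε * n - δb * lp * n))) := by
        intro j
        rw [abs_mul, abs_of_nonneg (by positivity : (0 : ℝ) ≤ (p : ℝ) ^ α j * (q : ℝ) ^ β j)]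
        have h1 : (p : ℝ) ^ α j ≤ (p : ℝ) ^ n * Real.exp (-(δb * lp * n)) := by
          rw [natpow_exp hp.pos (α j), hpn, ← Real.exp_add]
          apply Real.exp_le_exp.2
          have g1 := mul_le_mul_of_nonneg_left (htsle j) hlp0.le
          linarith only [g1]
        calc |(lam j : ℝ)| * ((p : ℝ) ^ α j * (q : ℝ) ^ β j) ≤
            (2 * C * ρ) * (((p : ℝ) ^ n * Real.exp (-(δb * lp * n))) * (q : ℝ) ^ K) := by
              apply mul_le_mul (hlamle j) _ (by positivity) (by positivity)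
              exact mul_le_mul h1 (hβK j) (by positivity) (by positivity)
          _ = _ := by
            rw [hρ, sub_eq_add_neg, Real.exp_add]; ring
      rw [hXR]
      refine (abs_sub _ _).trans ?_
      rw [abs_mul, abs_of_nonneg (by positivity : (0 : ℝ) ≤ (q : ℝ) ^ K)]
      have hb3 : |∑ j, (lam j : ℝ) * ((p : ℝ) ^ α j * (q : ℝ) ^ β j)| ≤
          s * ((q : ℝ) ^ K * ((p : ℝ) ^ n * (2 * C * Real.exp (ε * n - δb * lp * n)))) := by
        refine (Finset.abs_sum_le_sum_abs _ _).trans ?_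
        refine (Finset.sum_le_card_nsmul _ _ _ (fun j _ => hb2 j)).trans ?_
        rw [nsmul_eq_mul, Finset.card_univ, Fintype.card_fin]
      have hb4 := mul_le_mul_of_nonneg_left hb1 (by positivity : (0 : ℝ) ≤ (q : ℝ) ^ K)
      have hc1 : Real.exp (-(η * n)) ≤ Real.exp (-(2 * δ * n)) := by
        apply Real.exp_le_exp.2
        have g1 := mul_le_mul_of_nonneg_right hδη hn0
        linarith only [g1]
      have hc2 : Real.exp (ε * n - δb * lp * n) ≤ Real.exp (-(2 * δ * n)) := by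
        apply Real.exp_le_exp.2
        have g1 := mul_le_mul_of_nonneg_right hε1 hn0
        have g2 := mul_le_mul_of_nonneg_right hδlp hn0
        have g3 : 0 ≤ δb * lp * n := by positivity
        linarith only [g1, g2, g3]
      have hpq0 : (0 : ℝ) < (q : ℝ) ^ K * (p : ℝ) ^ n := by positivity
      calc _ ≤ (q : ℝ) ^ K * ((p : ℝ) ^ n * (|(M : ℝ)| * Real.exp (-(η * n)) +
            C * Real.exp (ε * n - δb * lp * n))) +
            s * ((q : ℝ) ^ K * ((p : ℝ) ^ n * (2 * C * Real.exp (ε * n - δb * lp * n)))) :=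
            add_le_add hb4 hb3
        _ = (q : ℝ) ^ K * (p : ℝ) ^ n * (|(M : ℝ)| * Real.exp (-(η * n)) +
            ((2 * s + 1) * C) * Real.exp (ε * n - δb * lp * n)) := by ring
        _ ≤ (q : ℝ) ^ K * (p : ℝ) ^ n * (|(M : ℝ)| * Real.exp (-(2 * δ * n)) +
            ((2 * s + 1) * C) * Real.exp (-(2 * δ * n))) := by
            apply mul_le_mul_of_nonneg_left _ hpq0.le
            apply add_le_add
            · exact mul_le_mul_of_nonneg_left hc1 (abs_nonneg _)
            · exact mul_le_mul_of_nonneg_left hc2 (by positivity)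
        _ = (q : ℝ) ^ K * (p : ℝ) ^ n * ((|(M : ℝ)| + (2 * s + 1) * C) *
            Real.exp (-(2 * δ * n))) := by ring
        _ ≤ (q : ℝ) ^ K * (p : ℝ) ^ n * (Real.exp (δ * n) * Real.exp (-(2 * δ * n))) := by
            apply mul_le_mul_of_nonneg_left _ hpq0.le
            exact mul_le_mul_of_nonneg_right hexpδ (Real.exp_pos _).le
        _ = (p : ℝ) ^ n * (q : ℝ) ^ K * Real.exp (-(δ * n)) := by
            rw [← Real.exp_add]
            have : δ * n + -(2 * δ * n) = -(δ * n) := by ring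
            rw [this]; ring
  -- finish
  have hlt : t s < t (s + 1) := by
    have h1 : (0 : ℝ) < δb * n := by positivity
    have h2 : (t s : ℝ) < t (s + 1) := by linarith
    exact_mod_cast h2
  have h1 : M * x (t (s + 1)) - G s = 0 := by
    rw [hX] at hX0
    rcases mul_eq_zero.1 hX0 with h | h
    · exact absurd h (pow_ne_zero _ (by exact_mod_cast hp.ne_zero))
    · exact h
  have h2 := hFG s (by omega)
  rw [h1, mul_zero] at h2
  have h3 : M * x (t s) - F s = 0 := by
    rcases mul_eq_zero.1 h2.symm with h | h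
    · exact absurd h (pow_ne_zero _ (by exact_mod_cast hq.ne_zero))
    · exact h
  obtain ⟨π, hπ1, hπℓ, hπt, hπx⟩ := hrep s (by omega) hlt h3
  exact ⟨t s, π, ht0 s (by omega), hπ1, hπℓ, hπt, hπx⟩

end Pool.Agent.H547R3.Sub
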