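import Mathlib
import Pool.Agent.H547R3.Sub.Chain
import Pool.Agent.H440R2.LFL2

set_option autoImplicit false

open Finset

namespace Pool.Agent.H547R3.Sub

/-- the word `w` restricted to `[a,b)` has period `π` -/
def HasPer (w : ℕ → ℕ) (π a b : ℕ) : Prop := ∀ j, a ≤ j → j + π < b → w (j + π) = w j

/-- the word `w` restricted to `[a,b)` is a concatenation of `m` (possibly empty) words each having
a period between `1` and `ℓ` -/
def Dec (w : ℕ → ℕ) (ℓ m a b : ℕ) : Prop :=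
  ∃ t : ℕ → ℕ, t 0 = a ∧ t m = b ∧ (∀ i < m, t i ≤ t (i + 1)) ∧
    ∀ i < m, ∃ π, 1 ≤ π ∧ π ≤ ℓ ∧ HasPer w π (t i) (t (i + 1))

/-- the map `x ↦ x/2` (`x` even), `(qx+k)/2` (`x` odd) -/
def Tm (q k x : ℤ) : ℤ := if x % 2 = 0 then x / 2 else (q * x + k) / 2

/-- the parity word of the trajectory of `x` -/
def par (q k x : ℤ) (i : ℕ) : ℕ := if (Tm q k)^[i] x % 2 = 0 then 0 else 1

lemma par_le (q k x : ℤ) (i : ℕ) : par q k x i ≤ 1 := by
  unfold par; split_ifs <;> omega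

lemma Tm_rec {q k : ℤ} (hq : q % 2 = 1) (hk : k % 2 = 1) (x : ℤ) (i : ℕ) :
    2 * (Tm q k)^[i + 1] x = q ^ par q k x i * (Tm q k)^[i] x + k * par q k x i := by
  rw [Function.iterate_succ_apply']
  set y := (Tm q k)^[i] x with hy
  unfold par
  rw [← hy]
  unfold Tm
  by_cases h : y % 2 = 0
  · simp only [h, if_true]
    push_cast
    rw [pow_zero]
    omega
  · simp only [h, if_false]
    have h1 : y % 2 = 1 := by omega
    have h2 : (q * y + k) % 2 = 0 := by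
      rw [Int.add_emod, Int.mul_emod, hq, h1, hk]; norm_num
    push_cast
    rw [pow_one, mul_one]
    omega

lemma Tm_zero (q k : ℤ) (i : ℕ) : (Tm q k)^[i] 0 = 0 := by
  induction i with
  | zero => rfl
  | succ i ih => rw [Function.iterate_succ_apply', ih]; simp [Tm]

/-- **Growth theorem for `T_{q,k}`.** -/
theorem growthT {q : ℕ} (hq : q.Prime) (hq2 : q ≠ 2) (ℓ s : ℕ) (η : ℝ) (hη : 0 < η) :
    ∃ ε : ℝ, 0 < ε ∧ ∃ n0 : ℕ, ∀ n, n0 ≤ n → ∀ k : ℤ, k % 2 = 1 → |(k : ℝ)| ≤ Real.exp (ε * n) →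
      ∀ (x : ℤ) (a : ℕ), |((Tm q k)^[a] x : ℝ)| ≤ 2 ^ n * Real.exp (-(η * n)) →
      Dec (par q k x) ℓ s a (a + n) →
      ∃ j π, a ≤ j ∧ 1 ≤ π ∧ π ≤ ℓ ∧ j + π ≤ a + n ∧
        (Tm q k)^[j + π] x = (Tm q k)^[j] x := by
  have h2F : Fact (Nat.Prime 2) := ⟨Nat.prime_two⟩
  have hqF : Fact q.Prime := ⟨hq⟩
  have hq1 : (q : ℤ) % 2 = 1 := by
    rcases hq.eq_two_or_odd with h | h
    · exact absurd h hq2
    · omega
  obtain ⟨ε, hε, n0, hg⟩ := growth (p := 2) (q := q) (Ne.symm hq2) 1 ℓ s η hη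
  refine ⟨ε, hε, n0, fun n hn k hk hkε x a hx hD => ?_⟩
  obtain ⟨t, h0, hs, hmono, hper⟩ := hD
  have h1 := hg n hn (fun i => (Tm q k)^[i] x) (par q k x) (fun i => k * par q k x i) t
    (by rw [h0, hs]) hmono ?_ ?_ ?_
  · obtain ⟨j, π, h2, h3, h4, h5, h6⟩ := h1
    exact ⟨j, π, by omega, h3, h4, by omega, h6⟩
  · intro j _ _
    refine ⟨?_, par_le _ _ _ _, ?_⟩
    · exact_mod_cast Tm_rec hq1 hk x j
    · have h2 := par_le q k x j
      have h3 : |((k * par q k x j : ℤ) : ℝ)| ≤ |(k : ℝ)| := by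
        push_cast
        rw [abs_mul]
        have : |((par q k x j : ℕ) : ℝ)| ≤ 1 := by
          rw [Nat.abs_cast]; exact_mod_cast h2
        exact mul_le_of_le_one_right (abs_nonneg _) this
      exact h3.trans hkε
  · intro i hi
    obtain ⟨π, h1, h2, h3⟩ := hper i hi
    refine ⟨π, h1, h2, fun j hj1 hj2 => ?_⟩
    have := h3 j hj1 hj2
    exact ⟨this, by simp only [this]⟩
  · simp only [h0]
    exact_mod_cast hx

/-- **Chain theorem for `T_{q,k}`.** -/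
theorem chainT {q : ℕ} (hq : q.Prime) (hq2 : q ≠ 2) (ℓ : ℕ) (C : ℝ) (hC : 0 < C) :
    ∃ A : ℝ, 0 < A ∧ ∀ k : ℤ, k % 2 = 1 → ∀ (x : ℤ) (m a b : ℕ), Dec (par q k x) ℓ m a b →
      (∀ j π, a ≤ j → 1 ≤ π → π ≤ ℓ → j + π ≤ b → (Tm q k)^[j + π] x ≠ (Tm q k)^[j] x) →
      (b : ℝ) - a ≤ A * (1 + Real.log (|((Tm q k)^[a] x : ℝ)| + |(k : ℝ)|)) *
        Real.exp (m / C) := by
  have h2F : Fact (Nat.Prime 2) := ⟨Nat.prime_two⟩
  have hqF : Fact q.Prime := ⟨hq⟩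
  have hq1 : (q : ℤ) % 2 = 1 := by
    rcases hq.eq_two_or_odd with h | h
    · exact absurd h hq2
    · omega
  obtain ⟨A, hA, hc⟩ := chain (p := 2) (q := q) (Ne.symm hq2) 1 ℓ C hC
  refine ⟨A, hA, fun k hk x m a b hD hno => ?_⟩
  obtain ⟨t, h0, hs, hmono, hper⟩ := hD
  have hk1 : (1 : ℝ) ≤ |(k : ℝ)| := by
    have h1 : k ≠ 0 := by rintro rfl; simp at hk
    have h2 : 1 ≤ |k| := Int.one_le_abs h1
    exact_mod_cast h2
  have h1 := hc (fun i => (Tm q k)^[i] x) (par q k x) (fun i => k * par q k x i) t m |(k : ℝ)|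
    hk1 hmono ?_ ?_ ?_
  · rw [h0, hs] at h1
    exact h1
  · intro j _ _
    refine ⟨?_, par_le _ _ _ _, ?_⟩
    · exact_mod_cast Tm_rec hq1 hk x j
    · have h2 := par_le q k x j
      push_cast
      rw [abs_mul]
      have : |((par q k x j : ℕ) : ℝ)| ≤ 1 := by
        rw [Nat.abs_cast]; exact_mod_cast h2
      exact mul_le_of_le_one_right (abs_nonneg _) this
  · intro i hi
    obtain ⟨π, h1, h2, h3⟩ := hper i hi
    refine ⟨π, h1, h2, fun j hj1 hj2 => ?_⟩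
    have := h3 j hj1 hj2
    exact ⟨this, by simp only [this]⟩
  · intro j π h1 h2 h3 h4
    rw [h0] at h1
    rw [hs] at h4
    exact hno j π h1 h2 h3 h4

end Pool.Agent.H547R3.Sub
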