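import Mathlib
import Pool.Agent.H547R3.Sub.Tqk

set_option autoImplicit false

open Finset

namespace Pool.Agent.H547R3.Sub

lemma Dec.le {w : ℕ → ℕ} {ℓ m a b : ℕ} (h : Dec w ℓ m a b) : a ≤ b := by
  obtain ⟨t, h0, hm, hmono, -⟩ := h
  rw [← h0, ← hm]
  exact mono_le hmono (Nat.zero_le _) le_rfl

/-- restriction to a subinterval -/
lemma Dec.sub {w : ℕ → ℕ} {ℓ m a b a' b' : ℕ} (h : Dec w ℓ m a b) (ha : a ≤ a') (hab : a' ≤ b')
    (hb : b' ≤ b) : Dec w ℓ m a' b' := by
  obtain ⟨t, h0, hm, hmono, hper⟩ := h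
  refine ⟨fun i => max a' (min b' (t i)), ?_, ?_, ?_, ?_⟩
  · simp only; omega
  · simp only; omega
  · intro i hi
    have := hmono i hi
    simp only; omega
  · intro i hi
    obtain ⟨π, h1, h2, h3⟩ := hper i hi
    refine ⟨π, h1, h2, fun j hj1 hj2 => ?_⟩
    have := hmono i hi
    simp only at hj1 hj2
    exact h3 j (by omega) (by omega)

/-- concatenation -/
lemma Dec.append {w : ℕ → ℕ} {ℓ m m' a b c : ℕ} (h : Dec w ℓ m a b) (h' : Dec w ℓ m' b c) :
    Dec w ℓ (m + m') a c := by
  obtain ⟨t, h0, hm, hmono, hper⟩ := h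
  obtain ⟨t', h0', hm', hmono', hper'⟩ := h'
  refine ⟨fun i => if i ≤ m then t i else t' (i - m), ?_, ?_, ?_, ?_⟩
  · simp [h0]
  · rcases Nat.eq_zero_or_pos m' with h | h
    · subst h
      simp only [add_zero, le_refl, if_true]
      rw [hm, ← h0', hm']
    · simp only [show ¬ (m + m' ≤ m) by omega, if_false]
      rw [Nat.add_sub_cancel_left, hm']
  · intro i hi
    rcases lt_trichotomy i m with h | h | h
    · simp only [show i ≤ m by omega, show i + 1 ≤ m by omega, if_true]
      exact hmono i h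
    · subst h
      simp only [le_refl, show ¬ (i + 1 ≤ i) by omega, if_true, if_false]
      rw [hm, ← h0', Nat.add_sub_cancel_left]
      exact hmono' 0 (by omega)
    · simp only [show ¬ (i ≤ m) by omega, show ¬ (i + 1 ≤ m) by omega, if_false]
      have := hmono' (i - m) (by omega)
      rwa [show i - m + 1 = i + 1 - m by omega] at this
  · intro i hi
    rcases lt_trichotomy i m with h | h | h
    · simp only [show i ≤ m by omega, show i + 1 ≤ m by omega, if_true]
      exact hper i h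
    · subst h
      simp only [le_refl, show ¬ (i + 1 ≤ i) by omega, if_true, if_false]
      rw [hm, ← h0', Nat.add_sub_cancel_left]
      exact hper' 0 (by omega)
    · simp only [show ¬ (i ≤ m) by omega, show ¬ (i + 1 ≤ m) by omega, if_false]
      have := hper' (i - m) (by omega)
      rwa [show i - m + 1 = i + 1 - m by omega] at this

/-- shift of a decomposition for a word with period `p` -/
lemma Dec.shift {w : ℕ → ℕ} {ℓ m a b p : ℕ} (h : Dec w ℓ m a b) (hp : ∀ i, w (i + p) = w i) :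
    Dec w ℓ m (a + p) (b + p) := by
  obtain ⟨t, h0, hm, hmono, hper⟩ := h
  refine ⟨fun i => t i + p, by simp [h0], by simp [hm], fun i hi => ?_, fun i hi => ?_⟩
  · have := hmono i hi
    simp only; omega
  · obtain ⟨π, h1, h2, h3⟩ := hper i hi
    refine ⟨π, h1, h2, fun j hj1 hj2 => ?_⟩
    simp only at hj1 hj2
    have h4 := h3 (j - p) (by omega) (by omega)
    have h5 := hp (j - p)
    have h6 := hp (j - p + π)
    rw [show j - p + p = j by omega] at h5
    rw [show j - p + π + p = j + π by omega] at h6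
    rw [h5, h6, h4]

/-- rotation of a decomposition of a period -/
lemma Dec.rot {w : ℕ → ℕ} {ℓ m p : ℕ} (h : Dec w ℓ m 0 p) (hp : ∀ i, w (i + p) = w i) {i : ℕ}
    (hi : i ≤ p) : Dec w ℓ (m + m) i (i + p) := by
  have h1 := h.shift hp
  rw [zero_add] at h1
  exact (h.append h1).sub (Nat.zero_le _) (by omega) (by omega)

/-- more pieces are allowed -/
lemma Dec.mono {w : ℕ → ℕ} {ℓ m m' a b : ℕ} (h : Dec w ℓ m a b) (hmm : m ≤ m') (hℓ : 1 ≤ ℓ) :
    Dec w ℓ m' a b := by
  have h1 : Dec w ℓ (m' - m) b b :=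
    ⟨fun _ => b, rfl, rfl, fun _ _ => le_rfl, fun _ _ => ⟨1, le_rfl, hℓ, fun j h1 h2 => by simp only at h1 h2; omega⟩⟩
  have := h.append h1
  rwa [show m + (m' - m) = m' by omega] at this

/-- there is always a decomposition in single letters -/
lemma Dec.triv (w : ℕ → ℕ) {ℓ a b : ℕ} (hℓ : 1 ≤ ℓ) (hab : a ≤ b) : Dec w ℓ (b - a) a b :=
  ⟨fun i => a + i, by simp, by simp only; omega, fun i _ => by simp only; omega,
    fun i _ => ⟨1, le_rfl, hℓ, fun j h1 h2 => by simp only at h1 h2; omega⟩⟩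

end Pool.Agent.H547R3.Sub
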