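import Mathlib
import Pool.Agent.H547R3.Sub.Dec

set_option autoImplicit false

open Finset

namespace Pool.Agent.H547R3.Sub

lemma abs_log_one_add {u : ℝ} (hu : |u| ≤ 1 / 2) : |Real.log (1 + u)| ≤ 2 * |u| := by
  have h := abs_le.1 hu
  have h0 : 0 < 1 + u := by linarith
  rw [abs_le]
  constructor
  · have h1 := Real.one_sub_inv_le_log_of_pos h0
    have h2 : 1 - (1 + u)⁻¹ = u / (1 + u) := by field_simp; ring
    rw [h2] at h1
    refine le_trans ?_ h1
    rw [le_div_iff₀ h0]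
    rcases le_or_gt 0 u with h3 | h3
    · rw [abs_of_nonneg h3]; nlinarith
    · rw [abs_of_neg h3]; nlinarith
  · have h1 := Real.log_le_sub_one_of_pos h0
    have h2 := le_abs_self u
    have h3 := abs_nonneg u
    linarith

/-- number of odd terms -/
def odds (q k x : ℤ) (p : ℕ) : ℕ := ∑ i ∈ range p, par q k x i

lemma odds_le (q k x : ℤ) (p : ℕ) : odds q k x p ≤ p := by
  unfold odds
  calc ∑ i ∈ range p, par q k x i ≤ ∑ _i ∈ range p, 1 := Finset.sum_le_sum (fun i _ => par_le _ _ _ _)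
    _ = p := by simp

lemma sum_logs {q : ℕ} (hq3 : 3 ≤ q) (hq1 : (q : ℤ) % 2 = 1) {k : ℤ} (hk : k % 2 = 1) (x : ℤ)
    (hx : x ≠ 0) (hkx : |k| ≤ |x|) (hmin : ∀ i, |x| ≤ |(Tm q k)^[i] x|) (p : ℕ) :
    |Real.log |((Tm q k)^[p] x : ℝ)| - Real.log |(x : ℝ)| -
      ((odds q k x p : ℝ) * Real.log q - p * Real.log 2)| ≤
      odds q k x p * (|(k : ℝ)| / |(x : ℝ)|) := by
  induction p with
  | zero => simp [odds]
  | succ p ih =>
    have hrec := Tm_rec hq1 hk x p
    set y := (Tm q k)^[p] x with hy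
    set y' := (Tm q k)^[p + 1] x with hy'
    have hodds : odds q k x (p + 1) = odds q k x p + par q k x p := by
      unfold odds; rw [Finset.sum_range_succ]
    have hx0 : (0 : ℝ) < |(x : ℝ)| := by
      have : (x : ℝ) ≠ 0 := by exact_mod_cast hx
      positivity
    have hyx : |(x : ℝ)| ≤ |(y : ℝ)| := by exact_mod_cast hmin p
    have hyx' : |(x : ℝ)| ≤ |(y' : ℝ)| := by exact_mod_cast hmin (p + 1)
    have hkxR : |(k : ℝ)| ≤ |(x : ℝ)| := by exact_mod_cast hkx
    have hy0 : (0 : ℝ) < |(y : ℝ)| := by linarith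
    have hy0' : (0 : ℝ) < |(y' : ℝ)| := by linarith
    have hq0 : (0 : ℝ) < q := by
      have : (3 : ℝ) ≤ q := by exact_mod_cast hq3
      linarith
    have hq3R : (3 : ℝ) ≤ q := by exact_mod_cast hq3
    have hstep : |Real.log |(y' : ℝ)| - Real.log |(y : ℝ)| -
        ((par q k x p : ℝ) * Real.log q - Real.log 2)| ≤ par q k x p * (|(k : ℝ)| / |(x : ℝ)|) := by
      have h2 : par q k x p = 0 ∨ par q k x p = 1 := by
        have := par_le q k x p
        omega
      rcases h2 with h2 | h2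
      · rw [h2] at hrec ⊢
        have h3 : (2 : ℝ) * (y' : ℝ) = y := by
          have : 2 * y' = y := by simpa using hrec
          exact_mod_cast this
        have h4 : Real.log |(y : ℝ)| = Real.log 2 + Real.log |(y' : ℝ)| := by
          rw [← h3, abs_mul, Real.log_mul (by norm_num) hy0'.ne', abs_of_pos (by norm_num : (0:ℝ) < 2)]
        rw [h4]
        simp
      · rw [h2] at hrec ⊢
        have h3 : (2 : ℝ) * (y' : ℝ) = q * y + k := by
          have : 2 * y' = q * y + k := by simpa using hrec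
          exact_mod_cast this
        set u : ℝ := (k : ℝ) / (q * y) with hu
        have hyne : (y : ℝ) ≠ 0 := abs_pos.1 hy0
        have hul : |u| ≤ (|(k : ℝ)| / |(x : ℝ)|) / 3 := by
          rw [hu, abs_div, abs_mul, abs_of_pos hq0, div_div]
          apply div_le_div_of_nonneg_left (abs_nonneg _) (by positivity)
          nlinarith
        have hkx1 : |(k : ℝ)| / |(x : ℝ)| ≤ 1 := by
          rw [div_le_one hx0]; exact hkxR
        have hu2 : |u| ≤ 1 / 2 := by linarith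
        have h4 : (2 : ℝ) * (y' : ℝ) = q * y * (1 + u) := by
          rw [h3, hu]; field_simp
        have h1u : 0 < 1 + u := by have := (abs_le.1 hu2).1; linarith
        have h5 : Real.log 2 + Real.log |(y' : ℝ)| = Real.log q + Real.log |(y : ℝ)| +
            Real.log (1 + u) := by
          rw [← Real.log_mul (by norm_num) hy0'.ne', ← Real.log_mul (by positivity) (by positivity),
            ← Real.log_mul (by positivity) (by positivity)]
          congr 1
          have h6 : |(2 : ℝ) * (y' : ℝ)| = |q * y * (1 + u)| := by rw [h4]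
          rw [abs_mul, abs_mul, abs_mul, abs_of_pos (by norm_num : (0:ℝ) < 2), abs_of_pos hq0,
            abs_of_pos h1u] at h6
          exact h6
        have h6 : Real.log |(y' : ℝ)| - Real.log |(y : ℝ)| -
          (((1 : ℕ) : ℝ) * Real.log q - Real.log 2) = Real.log (1 + u) := by
          push_cast; linarith
        rw [h6]
        have h7 := abs_log_one_add hu2
        have h8 : 0 ≤ |(k : ℝ)| / |(x : ℝ)| := by positivity
        push_cast
        linarith
    rw [hodds]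
    push_cast
    have h9 : Real.log |(y' : ℝ)| - Real.log |(x : ℝ)| -
        (((odds q k x p : ℝ) + (par q k x p : ℝ)) * Real.log q - ((p : ℝ) + 1) * Real.log 2) =
        (Real.log |(y : ℝ)| - Real.log |(x : ℝ)| -
          ((odds q k x p : ℝ) * Real.log q - p * Real.log 2)) +
        (Real.log |(y' : ℝ)| - Real.log |(y : ℝ)| -
          ((par q k x p : ℝ) * Real.log q - Real.log 2)) := by ring
    rw [h9]
    refine (abs_add_le _ _).trans ?_
    rw [add_mul]
    exact add_le_add ih hstep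

/-- **Bound for the smallest element of a cycle** (via linear forms in two logarithms). -/
theorem cycle_min {q : ℕ} (hq : q.Prime) (hq2 : q ≠ 2) :
    ∃ B : ℝ, 0 < B ∧ ∀ k : ℤ, k % 2 = 1 → ∀ x : ℤ, ∀ p : ℕ, 1 ≤ p → (Tm q k)^[p] x = x → x ≠ 0 →
      (∀ i, |x| ≤ |(Tm q k)^[i] x|) → |k| ≤ |x| →
      |(x : ℝ)| ≤ p * |(k : ℝ)| * Real.exp (B * (1 + Real.log p) ^ 2) := by
  have hq1 : (q : ℤ) % 2 = 1 := by
    rcases hq.eq_two_or_odd with h | h
    · exact absurd h hq2
    · omega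
  have hq3 : 3 ≤ q := by
    have := hq.two_le
    omega
  set Y : ℕ := ⌈Real.log q⌉₊ + 1 with hY
  have hY1 : 1 ≤ Y := by omega
  have hYR : (1 : ℝ) ≤ Y := by exact_mod_cast hY1
  have hqY : Real.log q ≤ Y := by
    have := Nat.le_ceil (Real.log q)
    rw [hY]; push_cast; linarith
  have h2Y : Real.log (2 : ℕ) ≤ Y := by
    have := Real.log_two_lt_d9
    push_cast
    linarith
  set K : ℝ := 16 * (1 + Real.log (9280 * Y)) with hK
  have hlogY : 0 ≤ Real.log (9280 * Y) := Real.log_nonneg (by linarith)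
  have hK16 : 16 ≤ K := by rw [hK]; linarith
  refine ⟨20880 * (Y : ℝ) ^ 2 * (K + 1) ^ 2, by positivity, fun k hk x p hp1 hper hx hmin hkx => ?_⟩
  have hpR : (1 : ℝ) ≤ p := by exact_mod_cast hp1
  have hlogp : 0 ≤ Real.log p := Real.log_nonneg hpR
  set N := odds q k x p with hN
  have hNp : N ≤ p := odds_le _ _ _ _
  have hNR : (N : ℝ) ≤ p := by exact_mod_cast hNp
  have hx0 : (0 : ℝ) < |(x : ℝ)| := by
    have : (x : ℝ) ≠ 0 := by exact_mod_cast hx
    positivity
  have hk0 : (0 : ℝ) ≤ |(k : ℝ)| := abs_nonneg _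
  have h1 := sum_logs hq3 hq1 hk x hx hkx hmin p
  rw [hper, ← hN, sub_self, zero_sub, abs_neg] at h1
  have hN1 : 1 ≤ N := by
    by_contra h
    have h0 : N = 0 := by omega
    rw [h0] at h1
    have h2 : 0 < Real.log 2 := Real.log_pos (by norm_num)
    have h3 : |(((0 : ℕ) : ℝ)) * Real.log q - p * Real.log 2| = p * Real.log 2 := by
      rw [Nat.cast_zero, zero_mul, zero_sub, abs_neg, abs_of_nonneg (by positivity)]
    rw [h3] at h1
    have h4 : 0 < p * Real.log 2 := by positivity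
    simp at h1
    linarith
  set L : ℕ := ⌈K * (1 + Real.log p)⌉₊ with hL
  have hKp : 16 ≤ K * (1 + Real.log p) := by nlinarith
  have hLge : K * (1 + Real.log p) ≤ L := Nat.le_ceil _
  have hL16 : (16 : ℝ) ≤ L := by linarith
  have hL1 : 1 ≤ L := by
    have : (1 : ℝ) ≤ L := by linarith
    exact_mod_cast this
  have hLle : (L : ℝ) ≤ (K + 1) * (1 + Real.log p) := by
    have := Nat.ceil_lt_add_one (show (0 : ℝ) ≤ K * (1 + Real.log p) by linarith)
    rw [← hL] at this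
    linarith
  have hlfl := Pool.Agent.H440R2.lfl 2 q p N Y L Nat.prime_two hq (Ne.symm hq2) hp1 hN1 hY1 hL1
    h2Y hqY (by
      have hL0 : (0 : ℝ) < L := by linarith
      have h5 : Real.log (L / 16) ≤ L / 16 - 1 := Real.log_le_sub_one_of_pos (by positivity)
      have h6 : Real.log (290 * Y * L * ((p : ℝ) + N)) ≤
          Real.log (9280 * Y * (L / 16) * p) := by
        apply Real.log_le_log (by positivity)
        have h7 : (0 : ℝ) < 290 * Y * L := by positivity
        have h8 : (p : ℝ) + N ≤ 2 * p := by linarith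
        calc 290 * (Y : ℝ) * L * ((p : ℝ) + N) ≤ 290 * Y * L * (2 * p) :=
              mul_le_mul_of_nonneg_left h8 h7.le
          _ = 9280 * Y * (L / 16) * p := by ring
      have h6' : Real.log (9280 * Y * (L / 16) * p) =
          Real.log (9280 * Y) + Real.log (L / 16) + Real.log p := by
        rw [Real.log_mul (by positivity) (by positivity), Real.log_mul (by positivity)
          (by positivity)]
      rw [h6'] at h6
      have h7 : K * (1 + Real.log p) ≥ 16 * (1 + Real.log (9280 * Y)) + 16 * Real.log p := by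
        rw [hK]
        nlinarith
      linarith)
  have h9 : Real.exp (-(20880 * (Y : ℝ) ^ 2 * (L : ℝ) ^ 2)) < p * (|(k : ℝ)| / |(x : ℝ)|) := by
    refine lt_of_lt_of_le hlfl ?_
    push_cast
    refine h1.trans ?_
    exact mul_le_mul_of_nonneg_right hNR (by positivity)
  have h10 : (L : ℝ) ^ 2 ≤ (K + 1) ^ 2 * (1 + Real.log p) ^ 2 := by
    rw [← mul_pow]
    exact pow_le_pow_left₀ (by positivity) hLle 2
  have h11 : Real.exp (-(20880 * (Y : ℝ) ^ 2 * (K + 1) ^ 2 * (1 + Real.log p) ^ 2)) ≤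
      Real.exp (-(20880 * (Y : ℝ) ^ 2 * (L : ℝ) ^ 2)) := by
    apply Real.exp_le_exp.2
    have : 20880 * (Y : ℝ) ^ 2 * (L : ℝ) ^ 2 ≤
        20880 * (Y : ℝ) ^ 2 * ((K + 1) ^ 2 * (1 + Real.log p) ^ 2) :=
      mul_le_mul_of_nonneg_left h10 (by positivity)
    linarith
  have h12 := h11.trans h9.le
  rw [Real.exp_neg, mul_div_assoc', le_div_iff₀ hx0, inv_mul_le_iff₀ (Real.exp_pos _)] at h12
  linarith

/-- the trajectory of a point of a cycle is periodic -/
lemma iter_per {f : ℤ → ℤ} {x : ℤ} {p : ℕ} (h : f^[p] x = x) (i : ℕ) : f^[i + p] x = f^[i] x := by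
  rw [Function.iterate_add_apply, h]

lemma iter_per_mul {f : ℤ → ℤ} {x : ℤ} {p : ℕ} (h : f^[p] x = x) (N : ℕ) : f^[p * N] x = x := by
  induction N with
  | zero => rfl
  | succ N ih => rw [Nat.mul_succ, Function.iterate_add_apply, h, ih]

lemma iter_mod {f : ℤ → ℤ} {x : ℤ} {p : ℕ} (h : f^[p] x = x) (i : ℕ) : f^[i] x = f^[i % p] x := by
  conv_lhs => rw [← Nat.mod_add_div i p]
  rw [Function.iterate_add_apply, iter_per_mul h]

/-- no repetition before the minimal period -/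
lemma no_rep {f : ℤ → ℤ} {x : ℤ} {p : ℕ} (hp : 1 ≤ p) (h : f^[p] x = x)
    (hmin : ∀ j, 1 ≤ j → j < p → f^[j] x ≠ x) {j π : ℕ} (h1 : 1 ≤ π) (h2 : π < p) :
    f^[j + π] x ≠ f^[j] x := by
  intro h3
  apply hmin π h1 h2
  have h4 : j ≤ p * j := Nat.le_mul_of_pos_left j hp
  have h5 : f^[p * j - j] (f^[j + π] x) = f^[p * j - j] (f^[j] x) := by rw [h3]
  rw [← Function.iterate_add_apply, ← Function.iterate_add_apply,
    show p * j - j + (j + π) = π + p * j by omega, show p * j - j + j = p * j by omega,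
    Function.iterate_add_apply, iter_per_mul h] at h5
  exact h5

lemma par_per {q k x : ℤ} {p : ℕ} (h : (Tm q k)^[p] x = x) (i : ℕ) :
    par q k x (i + p) = par q k x i := by
  unfold par; rw [iter_per h]

lemma par_shift (q k x : ℤ) (a i : ℕ) : par q k ((Tm q k)^[a] x) i = par q k x (i + a) := by
  unfold par; rw [Function.iterate_add_apply]

/-- asymptotics -/
lemma asym (A B τ : ℝ) (hτ : 0 < τ) (hτ1 : τ ≤ 1) (hA : 0 < A) (hB : 0 < B) :
    ∃ P0 : ℕ, ∀ p : ℕ, P0 ≤ p → A * ((p : ℝ) ^ (1 - τ) + B * (1 + Real.log p) ^ 2) *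
      (p : ℝ) ^ (τ / 2) < p := by
  have h1 : Filter.Tendsto (fun x : ℝ => A * (x ^ (-(τ / 2))) + A * B * ((1 + Real.log x) / x ^ ((1 : ℝ) / 8)) ^ 2 * x ^ (-((1:ℝ) / 4)))
      Filter.atTop (nhds (A * 0 + A * B * 0 ^ 2 * 0)) := by
    refine Filter.Tendsto.add ?_ ?_
    · exact (tendsto_rpow_neg_atTop (by positivity)).const_mul A
    · refine Filter.Tendsto.mul ?_ (tendsto_rpow_neg_atTop (by norm_num))
      refine Filter.Tendsto.const_mul _ (Filter.Tendsto.pow ?_ 2)
      have h2 : (fun x : ℝ => 1 + Real.log x) =o[Filter.atTop] fun x : ℝ => x ^ ((1 : ℝ) / 8) := by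
        refine Asymptotics.IsLittleO.add ?_ (isLittleO_log_rpow_atTop (by norm_num))
        refine Asymptotics.isLittleO_const_left.2 (Or.inr ?_)
        exact Filter.Tendsto.comp tendsto_norm_atTop_atTop (tendsto_rpow_atTop (by norm_num))
      exact h2.tendsto_div_nhds_zero
  rw [show A * 0 + A * B * 0 ^ 2 * 0 = (0 : ℝ) by ring] at h1
  have h2 := (h1.eventually (gt_mem_nhds (show (0 : ℝ) < 1 by norm_num))).and
    (Filter.eventually_ge_atTop (1 : ℝ))
  obtain ⟨X, hX⟩ := Filter.eventually_atTop.1 h2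
  refine ⟨⌈X⌉₊, fun p hp => ?_⟩
  have h3 := hX p (Nat.ceil_le.1 hp)
  obtain ⟨h4, h5⟩ := h3
  have hp0 : (0 : ℝ) < p := by linarith
  have e1 : (p : ℝ) ^ (-(τ / 2)) * p = (p : ℝ) ^ (1 - τ) * (p : ℝ) ^ (τ / 2) := by
    rw [← Real.rpow_add hp0]
    nth_rewrite 2 [← Real.rpow_one (p : ℝ)]
    rw [← Real.rpow_add hp0]
    congr 1; ring
  have e2 : ((1 + Real.log p) / (p : ℝ) ^ ((1 : ℝ) / 8)) ^ 2 * (p : ℝ) ^ (-((1:ℝ) / 4)) * p =
      (1 + Real.log p) ^ 2 * (p : ℝ) ^ ((1 : ℝ) / 2) := by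
    have h6 : ((p : ℝ) ^ ((1 : ℝ) / 8)) ^ 2 = (p : ℝ) ^ ((1 : ℝ) / 4) := by
      rw [← Real.rpow_natCast, ← Real.rpow_mul hp0.le]; norm_num
    rw [div_pow, h6, Real.rpow_neg hp0.le, div_mul_eq_mul_div, div_mul_eq_mul_div, div_eq_iff (by positivity)]
    have h7 : (p : ℝ) = (p : ℝ) ^ ((1 : ℝ) / 2) * (p : ℝ) ^ ((1 : ℝ) / 4) * (p : ℝ) ^ ((1 : ℝ) / 4) := by
      rw [← Real.rpow_add hp0, ← Real.rpow_add hp0]; norm_num
    have h8 : (p : ℝ) ^ ((1 : ℝ) / 4) ≠ 0 := by positivity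
    calc (1 + Real.log (p:ℝ)) ^ 2 * ((p : ℝ) ^ ((1 : ℝ) / 4))⁻¹ * (p : ℝ) =
        (1 + Real.log (p:ℝ)) ^ 2 * ((p : ℝ) ^ ((1 : ℝ) / 4))⁻¹ * ((p : ℝ) ^ ((1 : ℝ) / 2) * (p : ℝ) ^ ((1 : ℝ) / 4) * (p : ℝ) ^ ((1 : ℝ) / 4)) := by rw [← h7]
      _ = _ := by field_simp
  have e3 : (p : ℝ) ^ (τ / 2) ≤ (p : ℝ) ^ ((1 : ℝ) / 2) :=
    Real.rpow_le_rpow_of_exponent_le h5 (by linarith)
  have h9 := mul_lt_mul_of_pos_right h4 hp0
  rw [one_mul] at h9
  refine lt_of_le_of_lt ?_ h9
  calc A * ((p : ℝ) ^ (1 - τ) + B * (1 + Real.log p) ^ 2) * (p : ℝ) ^ (τ / 2)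
      = A * ((p : ℝ) ^ (1 - τ) * (p : ℝ) ^ (τ / 2)) +
        A * B * ((1 + Real.log p) ^ 2 * (p : ℝ) ^ (τ / 2)) := by ring
    _ ≤ A * ((p : ℝ) ^ (-(τ / 2)) * p) +
        A * B * ((1 + Real.log p) ^ 2 * (p : ℝ) ^ ((1 : ℝ) / 2)) := by
          rw [← e1]
          have := mul_le_mul_of_nonneg_left e3 (show 0 ≤ A * B * (1 + Real.log (p:ℝ)) ^ 2 by positivity)
          linarith
    _ = A * ((p : ℝ) ^ (-(τ / 2)) * p) +
        A * B * (((1 + Real.log p) / (p : ℝ) ^ ((1 : ℝ) / 8)) ^ 2 * (p : ℝ) ^ (-((1:ℝ) / 4)) * p) := by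
          rw [e2]
    _ = _ := by ring

/-- **Cycle theorem for `T_{q,k}`.** -/
theorem cycleT {q : ℕ} (hq : q.Prime) (hq2 : q ≠ 2) (ℓ : ℕ) (C τ : ℝ) (hC : 0 < C) (hτ : 0 < τ)
    (hτ1 : τ ≤ 1) :
    ∃ P0 : ℕ, ∀ k : ℤ, k % 2 = 1 → ∀ (x : ℤ) (p m : ℕ), P0 ≤ p →
      Real.log |(k : ℝ)| ≤ (p : ℝ) ^ (1 - τ) → (Tm q k)^[p] x = x →
      (∀ j, 1 ≤ j → j < p → (Tm q k)^[j] x ≠ x) → (m : ℝ) ≤ C * Real.log p →
      ¬ Dec (par q k x) ℓ m 0 p := by
  obtain ⟨B, hB, hmin⟩ := cycle_min hq hq2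
  obtain ⟨A, hA, hch⟩ := chainT hq hq2 ℓ (4 * C / τ) (by positivity)
  obtain ⟨P1, hP1⟩ := asym A (2 + B) τ hτ hτ1 hA (by positivity)
  refine ⟨max P1 (ℓ + 2), fun k hk x p m hp hkp hper hprim hm hD => ?_⟩
  have hpP : P1 ≤ p := (le_max_left _ _).trans hp
  have hpℓ : ℓ + 2 ≤ p := (le_max_right _ _).trans hp
  have hp1 : 1 ≤ p := by omega
  have hpR : (1 : ℝ) ≤ p := by exact_mod_cast hp1
  have hp0 : (0 : ℝ) < p := by linarith
  have hlogp : 0 ≤ Real.log p := Real.log_nonneg hpR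
  have hk1 : (1 : ℝ) ≤ |(k : ℝ)| := by
    have h1 : k ≠ 0 := by rintro rfl; simp at hk
    have h2 : 1 ≤ |k| := Int.one_le_abs h1
    exact_mod_cast h2
  -- the minimal element
  obtain ⟨i0, hi0, hi0min⟩ := Finset.exists_min_image (range p) (fun i => |(Tm q k)^[i] x|)
    ⟨0, Finset.mem_range.2 (by omega)⟩
  rw [Finset.mem_range] at hi0
  set y := (Tm q k)^[i0] x with hy
  have hyper : (Tm q k)^[p] y = y := by
    rw [hy, ← Function.iterate_add_apply, add_comm, iter_per hper]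
  have hymin : ∀ i, |y| ≤ |(Tm q k)^[i] y| := by
    intro i
    rw [hy, ← Function.iterate_add_apply, iter_mod hper (i + i0)]
    exact hi0min _ (Finset.mem_range.2 (Nat.mod_lt _ (by omega)))
  -- the size of the minimal element
  have hsize : Real.log (|(y : ℝ)| + |(k : ℝ)|) ≤
      Real.log |(k : ℝ)| + 1 + Real.log p + B * (1 + Real.log p) ^ 2 := by
    have hl2 : Real.log 2 ≤ 1 := by have := Real.log_two_lt_d9; linarith
    have hk0 : (0 : ℝ) < |(k : ℝ)| := by linarith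
    have hBp : 0 ≤ B * (1 + Real.log p) ^ 2 := by positivity
    rcases lt_or_ge |y| |k| with h | h
    · have h1 : |(y : ℝ)| ≤ |(k : ℝ)| := by exact_mod_cast h.le
      have h2 : Real.log (|(y : ℝ)| + |(k : ℝ)|) ≤ Real.log (2 * |(k : ℝ)|) :=
        Real.log_le_log (by positivity) (by linarith)
      rw [Real.log_mul (by norm_num) hk0.ne'] at h2
      linarith
    · have hy0 : y ≠ 0 := by
        intro h0
        rw [h0, abs_zero] at h
        have : |k| = 0 := le_antisymm h (abs_nonneg _)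
        have h1 : k = 0 := abs_eq_zero.1 this
        rw [h1] at hk; simp at hk
      have h1 := hmin k hk y p hp1 hyper hy0 hymin h
      have hE : 1 ≤ Real.exp (B * (1 + Real.log p) ^ 2) := Real.one_le_exp hBp
      have h2 : |(k : ℝ)| ≤ p * |(k : ℝ)| * Real.exp (B * (1 + Real.log p) ^ 2) := by
        have h3 : |(k : ℝ)| ≤ p * |(k : ℝ)| := le_mul_of_one_le_left hk0.le hpR
        have h4 : p * |(k : ℝ)| ≤ p * |(k : ℝ)| * Real.exp (B * (1 + Real.log p) ^ 2) :=
          le_mul_of_one_le_right (by positivity) hE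
        exact h3.trans h4
      have h3 : Real.log (|(y : ℝ)| + |(k : ℝ)|) ≤
          Real.log (2 * (p * |(k : ℝ)| * Real.exp (B * (1 + Real.log p) ^ 2))) :=
        Real.log_le_log (by positivity) (by linarith)
      rw [Real.log_mul (by norm_num) (by positivity), Real.log_mul (by positivity) (by positivity),
        Real.log_mul (by positivity) (by positivity), Real.log_exp] at h3
      linarith
  have hrot := hD.rot (fun i => par_per hper i) hi0.le
  have h1 := hch k hk x (m + m) i0 (i0 + p) hrot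
    (fun j π _ h2 h3 _ => no_rep hp1 hper hprim h2 (by omega))
  rw [← hy] at h1
  push_cast at h1
  have h2 : Real.exp (((m : ℝ) + m) / (4 * C / τ)) ≤ (p : ℝ) ^ (τ / 2) := by
    rw [Real.rpow_def_of_pos hp0]
    apply Real.exp_le_exp.2
    rw [div_le_iff₀ (by positivity)]
    calc (m : ℝ) + m ≤ 2 * (C * Real.log p) := by linarith
      _ = Real.log p * (τ / 2) * (4 * C / τ) := by field_simp; ring
  have h3 : 1 + Real.log (|(y : ℝ)| + |(k : ℝ)|) ≤
      (p : ℝ) ^ (1 - τ) + (2 + B) * (1 + Real.log p) ^ 2 := by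
    have : 2 + Real.log p ≤ 2 * (1 + Real.log p) ^ 2 := by nlinarith
    linarith
  have h4 : (p : ℝ) ≤ A * ((p : ℝ) ^ (1 - τ) + (2 + B) * (1 + Real.log p) ^ 2) *
      (p : ℝ) ^ (τ / 2) := by
    have h5 : (p : ℝ) ≤ A * (1 + Real.log (|(y : ℝ)| + |(k : ℝ)|)) *
        Real.exp (((m : ℝ) + m) / (4 * C / τ)) := by linarith
    refine h5.trans ?_
    apply mul_le_mul _ h2 (Real.exp_pos _).le (by positivity)
    exact mul_le_mul_of_nonneg_left h3 hA.le
  exact absurd (hP1 p hpP) (not_lt.2 h4)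

/-- the set of points with `T^p x = x` is finite for `p ≥ 1` -/
theorem finite_per {q : ℕ} (hq : q.Prime) (hq2 : q ≠ 2) (k : ℤ) (hk : k % 2 = 1) (p : ℕ)
    (hp : 1 ≤ p) : {x : ℤ | (Tm q k)^[p] x = x}.Finite := by
  obtain ⟨B, hB, hmin⟩ := cycle_min hq hq2
  obtain ⟨M, hM⟩ := exists_nat_ge (max (|(k : ℝ)|) (p * |(k : ℝ)| * Real.exp (B * (1 + Real.log p) ^ 2)))
  have hfin : (⋃ i ∈ Finset.range p, (Tm q k)^[i] '' (Set.Icc (-(M : ℤ)) M)).Finite :=
    Set.Finite.biUnion (Finset.finite_toSet _) (fun i _ => (Set.finite_Icc _ _).image _)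
  refine hfin.subset fun x hx => ?_
  have hper : (Tm q k)^[p] x = x := hx
  obtain ⟨i0, hi0, hi0min⟩ := Finset.exists_min_image (range p) (fun i => |(Tm q k)^[i] x|)
    ⟨0, Finset.mem_range.2 (by omega)⟩
  rw [Finset.mem_range] at hi0
  set y := (Tm q k)^[i0] x with hy
  have hyper : (Tm q k)^[p] y = y := by
    rw [hy, ← Function.iterate_add_apply, add_comm, iter_per hper]
  have hymin : ∀ i, |y| ≤ |(Tm q k)^[i] y| := by
    intro i
    rw [hy, ← Function.iterate_add_apply, iter_mod hper (i + i0)]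
    exact hi0min _ (Finset.mem_range.2 (Nat.mod_lt _ (by omega)))
  have hyM : |y| ≤ M := by
    have : |(y : ℝ)| ≤ M := by
      refine le_trans ?_ hM
      rcases lt_or_ge |y| |k| with h | h
      · exact le_max_of_le_left (by exact_mod_cast h.le)
      · have hy0 : y ≠ 0 := by
          intro h0
          rw [h0, abs_zero] at h
          have : |k| = 0 := le_antisymm h (abs_nonneg _)
          have h1 : k = 0 := abs_eq_zero.1 this
          rw [h1] at hk; simp at hk
        exact le_max_of_le_right (hmin k hk y p hp hyper hy0 hymin h)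
    exact_mod_cast this
  rw [abs_le] at hyM
  rcases Nat.eq_zero_or_pos i0 with h0 | h0
  · refine Set.mem_iUnion₂.2 ⟨0, Finset.mem_range.2 (by omega), x, ?_, rfl⟩
    rw [h0] at hy
    simp only [Function.iterate_zero, id] at hy
    rw [← hy]
    exact ⟨hyM.1, hyM.2⟩
  · refine Set.mem_iUnion₂.2 ⟨p - i0, Finset.mem_range.2 (by omega), y, ⟨hyM.1, hyM.2⟩, ?_⟩
    rw [hy, ← Function.iterate_add_apply, Nat.sub_add_cancel hi0.le, hper]

end Pool.Agent.H547R3.Sub
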