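import Mathlib
import Pool.Agent.H547R3.Sub.Cyc

set_option autoImplicit false

open Finset

namespace Pool.Agent.H547R3.Sub

/-- for every `ℓ, C` only finitely many periodic points of `T_{q,k}` have a parity word (over the
minimal period `p`) which is a concatenation of at most `C log p` words of period at most `ℓ` -/
theorem finite_cyc {q : ℕ} (hq : q.Prime) (hq2 : q ≠ 2) (ℓ : ℕ) (C : ℝ) (k : ℤ)
    (hk : k % 2 = 1) :
    {x : ℤ | ∃ p m : ℕ, 1 ≤ p ∧ (Tm q k)^[p] x = x ∧ (∀ j, 1 ≤ j → j < p → (Tm q k)^[j] x ≠ x) ∧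
      (m : ℝ) ≤ C * Real.log p ∧ Dec (par q k x) ℓ m 0 p}.Finite := by
  obtain ⟨P0, hP0⟩ := cycleT hq hq2 ℓ (max C 1) (1 / 2) (by positivity) (by norm_num) (by norm_num)
  obtain ⟨P1, hP1⟩ : ∃ P1 : ℕ, ∀ p : ℕ, P1 ≤ p → Real.log |(k : ℝ)| ≤ (p : ℝ) ^ (1 - (1 : ℝ) / 2) := by
    have h1 : Filter.Tendsto (fun x : ℝ => x ^ (1 - (1 : ℝ) / 2)) Filter.atTop Filter.atTop :=
      tendsto_rpow_atTop (by norm_num)
    obtain ⟨X, hX⟩ := Filter.eventually_atTop.1 (h1.eventually_ge_atTop (Real.log |(k : ℝ)|))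
    exact ⟨⌈X⌉₊, fun p hp => hX p (Nat.ceil_le.1 hp)⟩
  have hfin : (⋃ p ∈ Finset.Icc 1 (max P0 P1), {x : ℤ | (Tm q k)^[p] x = x}).Finite :=
    Set.Finite.biUnion (Finset.finite_toSet _)
      (fun p hp => finite_per hq hq2 k hk p (Finset.mem_Icc.1 hp).1)
  refine hfin.subset ?_
  rintro x ⟨p, m, hp1, hper, hprim, hm, hD⟩
  refine Set.mem_iUnion₂.2 ⟨p, Finset.mem_Icc.2 ⟨hp1, ?_⟩, hper⟩
  by_contra h
  have h1 : P0 ≤ p := by omega
  have h2 : P1 ≤ p := by omega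
  have hlogp : 0 ≤ Real.log p := Real.log_nonneg (by exact_mod_cast hp1)
  exact hP0 k hk x p m h1 (hP1 p h2) hper hprim
    (hm.trans (mul_le_mul_of_nonneg_right (le_max_left _ _) hlogp)) hD

/-- uniform version in `k` -/
theorem finite_cyc_k {q : ℕ} (hq : q.Prime) (hq2 : q ≠ 2) (ℓ : ℕ) (C τ : ℝ) (hτ : 0 < τ) :
    {z : ℤ × ℤ | z.1 % 2 = 1 ∧ ∃ p m : ℕ, 1 ≤ p ∧ (Tm q z.1)^[p] z.2 = z.2 ∧
      (∀ j, 1 ≤ j → j < p → (Tm q z.1)^[j] z.2 ≠ z.2) ∧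
      |(z.1 : ℝ)| ≤ Real.exp ((p : ℝ) ^ (1 - τ)) ∧
      (m : ℝ) ≤ C * Real.log p ∧ Dec (par q z.1 z.2) ℓ m 0 p}.Finite := by
  obtain ⟨P0, hP0⟩ := cycleT hq hq2 ℓ (max C 1) (min τ 1) (by positivity) (by positivity)
    (min_le_right _ _)
  obtain ⟨M, hM⟩ := exists_nat_ge (Real.exp ((P0 : ℝ) + 1))
  have hfin : (⋃ p ∈ Finset.Icc 1 P0, ⋃ k ∈ Finset.Icc (-(M : ℤ)) M,
      {z : ℤ × ℤ | z.1 = k ∧ k % 2 = 1 ∧ (Tm q k)^[p] z.2 = z.2}).Finite := by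
    refine Set.Finite.biUnion (Finset.finite_toSet _) (fun p hp => ?_)
    refine Set.Finite.biUnion (Finset.finite_toSet _) (fun k _ => ?_)
    by_cases hk : k % 2 = 1
    · have h1 := (finite_per hq hq2 k hk p (Finset.mem_Icc.1 hp).1).image (fun x => (k, x))
      refine h1.subset ?_
      rintro ⟨a, b⟩ ⟨h2, -, h3⟩
      simp only at h2 h3
      exact ⟨b, h3, by rw [h2]⟩
    · convert Set.finite_empty
      ext z
      simp [hk]
  refine hfin.subset ?_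
  rintro ⟨k, x⟩ ⟨hk, p, m, hp1, hper, hprim, hkp, hm, hD⟩
  simp only at hk hper hprim hkp hD
  have hpR : (1 : ℝ) ≤ p := by exact_mod_cast hp1
  have hlogp : 0 ≤ Real.log p := Real.log_nonneg hpR
  have hk0 : (0 : ℝ) < |(k : ℝ)| := by
    have h1 : k ≠ 0 := by rintro rfl; simp at hk
    have : (k : ℝ) ≠ 0 := by exact_mod_cast h1
    positivity
  have hkp' : Real.log |(k : ℝ)| ≤ (p : ℝ) ^ (1 - min τ 1) := by
    have h1 := (Real.log_le_iff_le_exp hk0).2 hkp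
    refine h1.trans (Real.rpow_le_rpow_of_exponent_le hpR ?_)
    linarith [min_le_left τ 1]
  have hpP : p ≤ P0 := by
    by_contra h
    exact hP0 k hk x p m (by omega) hkp' hper hprim
      (hm.trans (mul_le_mul_of_nonneg_right (le_max_left _ _) hlogp)) hD
  have hkM : |(k : ℝ)| ≤ M := by
    refine (hkp.trans (Real.exp_le_exp.2 ?_)).trans hM
    have h1 : (p : ℝ) ^ (1 - τ) ≤ (p : ℝ) ^ (1 : ℝ) :=
      Real.rpow_le_rpow_of_exponent_le hpR (by linarith)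
    rw [Real.rpow_one] at h1
    have h2 : (p : ℝ) ≤ P0 := by exact_mod_cast hpP
    linarith
  have hkM' : |k| ≤ M := by exact_mod_cast hkM
  rw [abs_le] at hkM'
  refine Set.mem_iUnion₂.2 ⟨p, Finset.mem_Icc.2 ⟨hp1, hpP⟩, Set.mem_iUnion₂.2 ⟨k, ?_, ?_⟩⟩
  · exact Finset.mem_Icc.2 ⟨hkM'.1, hkM'.2⟩
  · exact ⟨rfl, hk, hper⟩

end Pool.Agent.H547R3.Sub
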