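import Mathlib

set_option autoImplicit false

open Finset

/-! short cycles of the `3x+1` and `3x-1` maps on the positive integers -/

namespace Pool.Agent.H547R3.Sub

/-- the `3x+1` map on `ℕ` -/
def SP (n : ℕ) : ℕ := if n % 2 = 0 then n / 2 else (3 * n + 1) / 2

/-- the `3x-1` map on `ℕ` -/
def SN (n : ℕ) : ℕ := if n % 2 = 0 then n / 2 else (3 * n - 1) / 2

/-- does the trajectory drop below `m` within `fuel` steps? -/
def dropP : ℕ → ℕ → ℕ → Bool
  | 0, _, _ => false
  | f + 1, m, x => if SP x < m then true else dropP f m (SP x)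

def dropN : ℕ → ℕ → ℕ → Bool
  | 0, _, _ => false
  | f + 1, m, x => if SN x < m then true else dropN f m (SN x)

lemma dropP_spec (f m x : ℕ) (h : dropP f m x = true) : ∃ i, SP^[i] x < m := by
  induction f generalizing x with
  | zero => simp [dropP] at h
  | succ f ih =>
    rw [dropP] at h
    split_ifs at h with h1
    · exact ⟨1, h1⟩
    · obtain ⟨i, hi⟩ := ih _ h
      exact ⟨i + 1, by rwa [Function.iterate_succ_apply]⟩

lemma dropN_spec (f m x : ℕ) (h : dropN f m x = true) : ∃ i, SN^[i] x < m := by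
  induction f generalizing x with
  | zero => simp [dropN] at h
  | succ f ih =>
    rw [dropN] at h
    split_ifs at h with h1
    · exact ⟨1, h1⟩
    · obtain ⟨i, hi⟩ := ih _ h
      exact ⟨i + 1, by rwa [Function.iterate_succ_apply]⟩

lemma checkP : ∀ m < 1200, 2 ≤ m → dropP 100 m m = true := by decide +kernel

lemma checkN : ∀ m < 320, m = 0 ∨ m = 1 ∨ m = 5 ∨ m = 17 ∨ dropN 100 m m = true := by
  decide +kernel

lemma tableP : ∀ P < 149, ∀ N < P + 1, 3 ^ N < 2 ^ P → 3601 ^ N < 2 ^ P * 1200 ^ N := by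
  decide +kernel

lemma tableN : ∀ P < 84, ∀ N < P + 1, 2 ^ P < 3 ^ N → 2 ^ P * 320 ^ N < 959 ^ N := by
  decide +kernel

/-- number of odd terms among the first `i` -/
def cnt (f : ℕ → ℕ) (y i : ℕ) : ℕ := ∑ j ∈ range i, f^[j] y % 2

lemma cnt_succ (f : ℕ → ℕ) (y i : ℕ) : cnt f y (i + 1) = cnt f y i + f^[i] y % 2 := by
  unfold cnt; rw [Finset.sum_range_succ]

lemma cnt_le (f : ℕ → ℕ) (y i : ℕ) : cnt f y i ≤ i := by
  induction i with
  | zero => simp [cnt]
  | succ i ih => rw [cnt_succ]; omega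

lemma SP_even {n : ℕ} (h : n % 2 = 0) : 2 * SP n = n := by
  unfold SP; rw [if_pos h]; omega

lemma SP_odd {n : ℕ} (h : n % 2 = 1) : 2 * SP n = 3 * n + 1 := by
  unfold SP; rw [if_neg (by omega)]; omega

lemma SN_even {n : ℕ} (h : n % 2 = 0) : 2 * SN n = n := by
  unfold SN; rw [if_pos h]; omega

lemma SN_odd {n : ℕ} (h : n % 2 = 1) : 2 * SN n + 1 = 3 * n := by
  unfold SN; rw [if_neg (by omega)]; omega

lemma posA {y : ℕ} (hmin : ∀ i, y ≤ SP^[i] y) (i : ℕ) :
    2 ^ i * y ^ cnt SP y i * SP^[i] y ≤ (3 * y + 1) ^ cnt SP y i * y := by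
  induction i with
  | zero => simp [cnt]
  | succ i ih =>
    rw [Function.iterate_succ_apply', cnt_succ]
    set x := SP^[i] y with hx
    have hyx : y ≤ x := hmin i
    rcases Nat.mod_two_eq_zero_or_one x with h | h
    · rw [h, add_zero]
      calc 2 ^ (i + 1) * y ^ cnt SP y i * SP x = 2 ^ i * y ^ cnt SP y i * (2 * SP x) := by ring
        _ = 2 ^ i * y ^ cnt SP y i * x := by rw [SP_even h]
        _ ≤ _ := ih
    · rw [h]
      calc 2 ^ (i + 1) * y ^ (cnt SP y i + 1) * SP x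
          = 2 ^ i * y ^ cnt SP y i * (y * (2 * SP x)) := by ring
        _ = 2 ^ i * y ^ cnt SP y i * (y * (3 * x + 1)) := by rw [SP_odd h]
        _ ≤ 2 ^ i * y ^ cnt SP y i * ((3 * y + 1) * x) :=
            Nat.mul_le_mul_left _ (by nlinarith)
        _ = (3 * y + 1) * (2 ^ i * y ^ cnt SP y i * x) := by ring
        _ ≤ (3 * y + 1) * ((3 * y + 1) ^ cnt SP y i * y) := Nat.mul_le_mul_left _ ih
        _ = _ := by ring

lemma posB (y i : ℕ) : 3 ^ cnt SP y i * y + cnt SP y i ≤ 2 ^ i * SP^[i] y := by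
  induction i with
  | zero => simp [cnt]
  | succ i ih =>
    rw [Function.iterate_succ_apply', cnt_succ]
    set x := SP^[i] y with hx
    rcases Nat.mod_two_eq_zero_or_one x with h | h
    · rw [h, add_zero]
      calc 3 ^ cnt SP y i * y + cnt SP y i ≤ 2 ^ i * x := ih
        _ = 2 ^ i * (2 * SP x) := by rw [SP_even h]
        _ = _ := by ring
    · rw [h]
      have h2 : 1 ≤ 2 ^ i := Nat.one_le_two_pow
      calc 3 ^ (cnt SP y i + 1) * y + (cnt SP y i + 1)
          ≤ 3 * (3 ^ cnt SP y i * y + cnt SP y i) + 2 ^ i := by rw [pow_succ]; nlinarith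
        _ ≤ 3 * (2 ^ i * x) + 2 ^ i := by omega
        _ = 2 ^ i * (3 * x + 1) := by ring
        _ = 2 ^ i * (2 * SP x) := by rw [SP_odd h]
        _ = _ := by ring

lemma negA {y : ℕ} (hmin : ∀ i, y ≤ SN^[i] y) (i : ℕ) :
    (3 * y - 1) ^ cnt SN y i * y ≤ 2 ^ i * y ^ cnt SN y i * SN^[i] y := by
  induction i with
  | zero => simp [cnt]
  | succ i ih =>
    rw [Function.iterate_succ_apply', cnt_succ]
    set x := SN^[i] y with hx
    have hyx : y ≤ x := hmin i
    rcases Nat.mod_two_eq_zero_or_one x with h | h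
    · rw [h, add_zero]
      calc _ ≤ 2 ^ i * y ^ cnt SN y i * x := ih
        _ = 2 ^ i * y ^ cnt SN y i * (2 * SN x) := by rw [SN_even h]
        _ = _ := by ring
    · rw [h]
      have h3 : (3 * y - 1) * x ≤ y * (2 * SN x) := by
        have h4 := SN_odd h
        rcases Nat.eq_zero_or_pos y with h0 | h0
        · simp [h0]
        · obtain ⟨z, hz⟩ : ∃ z, 3 * y = z + 1 := ⟨3 * y - 1, by omega⟩
          rw [hz, Nat.add_sub_cancel]
          have h5 : y * (2 * SN x) + y = 3 * y * x := by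
            calc y * (2 * SN x) + y = y * (2 * SN x + 1) := by ring
              _ = _ := by rw [h4]; ring
          rw [hz] at h5
          nlinarith
      calc (3 * y - 1) ^ (cnt SN y i + 1) * y
          = (3 * y - 1) * ((3 * y - 1) ^ cnt SN y i * y) := by ring
        _ ≤ (3 * y - 1) * (2 ^ i * y ^ cnt SN y i * x) := Nat.mul_le_mul_left _ ih
        _ = 2 ^ i * y ^ cnt SN y i * ((3 * y - 1) * x) := by ring
        _ ≤ 2 ^ i * y ^ cnt SN y i * (y * (2 * SN x)) := Nat.mul_le_mul_left _ h3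
        _ = _ := by ring

lemma negB (y i : ℕ) : 2 ^ i * SN^[i] y + cnt SN y i ≤ 3 ^ cnt SN y i * y := by
  induction i with
  | zero => simp [cnt]
  | succ i ih =>
    rw [Function.iterate_succ_apply', cnt_succ]
    set x := SN^[i] y with hx
    rcases Nat.mod_two_eq_zero_or_one x with h | h
    · rw [h, add_zero]
      calc 2 ^ (i + 1) * SN x + cnt SN y i = 2 ^ i * (2 * SN x) + cnt SN y i := by ring
        _ = 2 ^ i * x + cnt SN y i := by rw [SN_even h]
        _ ≤ _ := ih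
    · rw [h]
      have h2 : 1 ≤ 2 ^ i := Nat.one_le_two_pow
      have h4 := SN_odd h
      calc 2 ^ (i + 1) * SN x + (cnt SN y i + 1)
          ≤ 2 ^ i * (2 * SN x + 1) + cnt SN y i := by rw [pow_succ]; nlinarith
        _ = 3 * (2 ^ i * x) + cnt SN y i := by rw [h4]; ring
        _ ≤ 3 * (2 ^ i * x + cnt SN y i) := by omega
        _ ≤ 3 * (3 ^ cnt SN y i * y) := Nat.mul_le_mul_left _ ih
        _ = _ := by ring

/-- the least element of a cycle of length at most 148 of the `3x+1` map is `1` -/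
lemma pos_cycle {y P : ℕ} (hy : 1 ≤ y) (hP : 1 ≤ P) (hP' : P ≤ 148) (hper : SP^[P] y = y)
    (hmin : ∀ i, y ≤ SP^[i] y) : y = 1 := by
  by_contra hy1
  have hA := posA hmin P
  have hB := posB y P
  rw [hper] at hA hB
  set N := cnt SP y P with hN
  have hNP : N ≤ P := cnt_le _ _ _
  have h2P : 2 ≤ 2 ^ P := by
    calc 2 = 2 ^ 1 := rfl
      _ ≤ 2 ^ P := Nat.pow_le_pow_right (by norm_num) hP
  have hA' : 2 ^ P * y ^ N ≤ (3 * y + 1) ^ N := Nat.le_of_mul_le_mul_right hA (by omega)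
  have hN1 : 1 ≤ N := by
    by_contra h
    have h0 : N = 0 := by omega
    rw [h0] at hA'
    simp at hA'
    omega
  have h3 : 3 ^ N < 2 ^ P := by
    by_contra h
    push Not at h
    have := Nat.mul_le_mul_right y h
    omega
  rcases Nat.lt_or_ge y 1200 with h | h
  · obtain ⟨i, hi⟩ := dropP_spec _ _ _ (checkP y h (by omega))
    have := hmin i
    omega
  · have h4 := tableP P (by omega) N (by omega) h3
    have hyN : 0 < y ^ N := Nat.pow_pos (by omega)
    have h5 : ((3 * y + 1) * 1200) ^ N ≤ (3601 * y) ^ N := Nat.pow_le_pow_left (by omega) N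
    rw [mul_pow, mul_pow] at h5
    have h6 : 3601 ^ N * y ^ N < 2 ^ P * 1200 ^ N * y ^ N := Nat.mul_lt_mul_of_pos_right h4 hyN
    have h7 : 2 ^ P * y ^ N * 1200 ^ N ≤ (3 * y + 1) ^ N * 1200 ^ N := Nat.mul_le_mul_right _ hA'
    have h8 : 2 ^ P * 1200 ^ N * y ^ N = 2 ^ P * y ^ N * 1200 ^ N := by ring
    omega

/-- the least element of a cycle of length at most 83 of the `3x-1` map is `1`, `5` or `17` -/
lemma neg_cycle {y P : ℕ} (hy : 1 ≤ y) (hP : 1 ≤ P) (hP' : P ≤ 83) (hper : SN^[P] y = y)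
    (hmin : ∀ i, y ≤ SN^[i] y) : y = 1 ∨ y = 5 ∨ y = 17 := by
  by_contra hy1
  have hA := negA hmin P
  have hB := negB y P
  rw [hper] at hA hB
  set N := cnt SN y P with hN
  have hNP : N ≤ P := cnt_le _ _ _
  have h2P : 2 ≤ 2 ^ P := by
    calc 2 = 2 ^ 1 := rfl
      _ ≤ 2 ^ P := Nat.pow_le_pow_right (by norm_num) hP
  have hA' : (3 * y - 1) ^ N ≤ 2 ^ P * y ^ N := Nat.le_of_mul_le_mul_right hA (by omega)
  have hN1 : 1 ≤ N := by
    by_contra h
    have h0 : N = 0 := by omega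
    rw [h0] at hB
    simp at hB
    nlinarith
  have h3 : 2 ^ P < 3 ^ N := by
    by_contra h
    push Not at h
    have := Nat.mul_le_mul_right y h
    omega
  rcases Nat.lt_or_ge y 320 with h | h
  · rcases checkN y h with h0 | h0 | h0 | h0 | h0
    · omega
    · exact hy1 (Or.inl h0)
    · exact hy1 (Or.inr (Or.inl h0))
    · exact hy1 (Or.inr (Or.inr h0))
    · obtain ⟨i, hi⟩ := dropN_spec _ _ _ h0
      have := hmin i
      omega
  · have h4 := tableN P (by omega) N (by omega) h3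
    have hyN : 0 < y ^ N := Nat.pow_pos (by omega)
    have h5 : (959 * y) ^ N ≤ ((3 * y - 1) * 320) ^ N := Nat.pow_le_pow_left (by omega) N
    rw [mul_pow, mul_pow] at h5
    have h6 : 2 ^ P * 320 ^ N * y ^ N < 959 ^ N * y ^ N := Nat.mul_lt_mul_of_pos_right h4 hyN
    have h7 : (3 * y - 1) ^ N * 320 ^ N ≤ 2 ^ P * y ^ N * 320 ^ N := Nat.mul_le_mul_right _ hA'
    have h8 : 2 ^ P * 320 ^ N * y ^ N = 2 ^ P * y ^ N * 320 ^ N := by ring
    omega

/-- the least element of a cycle -/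
lemma cyc_least (f : ℕ → ℕ) {z π : ℕ} (hπ : 1 ≤ π) (h : f^[π] z = z) :
    ∃ i0 < π, f^[π] (f^[i0] z) = f^[i0] z ∧ ∀ i, f^[i0] z ≤ f^[i] (f^[i0] z) := by
  obtain ⟨i0, hi0, hmin⟩ := Finset.exists_min_image (range π) (fun i => f^[i] z)
    ⟨0, Finset.mem_range.2 (by omega)⟩
  rw [Finset.mem_range] at hi0
  have hmul : ∀ N, f^[π * N] z = z := by
    intro N
    induction N with
    | zero => rfl
    | succ N ih => rw [Nat.mul_succ, Function.iterate_add_apply, h, ih]
  refine ⟨i0, hi0, ?_, fun i => ?_⟩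
  · rw [← Function.iterate_add_apply, add_comm, Function.iterate_add_apply, h]
  · rw [← Function.iterate_add_apply]
    have h1 : f^[i + i0] z = f^[(i + i0) % π] z := by
      conv_lhs => rw [← Nat.mod_add_div (i + i0) π]
      rw [Function.iterate_add_apply, hmul]
    rw [h1]
    exact hmin _ (Finset.mem_range.2 (Nat.mod_lt _ (by omega)))

lemma SP_pos {n : ℕ} (h : 1 ≤ n) : 1 ≤ SP n := by
  unfold SP; split_ifs <;> omega

lemma SN_pos {n : ℕ} (h : 1 ≤ n) : 1 ≤ SN n := by
  unfold SN; split_ifs <;> omega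

lemma iter_pos {f : ℕ → ℕ} (hf : ∀ n, 1 ≤ n → 1 ≤ f n) {n : ℕ} (hn : 1 ≤ n) (i : ℕ) :
    1 ≤ f^[i] n := by
  induction i with
  | zero => exact hn
  | succ i ih => rw [Function.iterate_succ_apply']; exact hf _ ih

/-- a repetition with difference at most 148 in a positive trajectory forces the value `1` -/
lemma reach_one {x j π : ℕ} (hx : 1 ≤ x) (h1 : 1 ≤ π) (h2 : π ≤ 148)
    (h : SP^[j + π] x = SP^[j] x) : ∃ i < j + π, SP^[i] x = 1 := by
  have h' : SP^[π] (SP^[j] x) = SP^[j] x := by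
    rw [← Function.iterate_add_apply, add_comm, h]
  obtain ⟨i0, hi0, h3, h4⟩ := cyc_least SP h1 h'
  have h5 : SP^[i0] (SP^[j] x) = 1 :=
    pos_cycle (iter_pos (fun n => SP_pos) (iter_pos (fun n => SP_pos) hx _) _) h1 h2 h3 h4
  exact ⟨i0 + j, by omega, by rw [Function.iterate_add_apply, h5]⟩

/-- a repetition with difference at most 83 in a trajectory of `3x-1` forces `1`, `5` or `17` -/
lemma reach_neg {x j π : ℕ} (hx : 1 ≤ x) (h1 : 1 ≤ π) (h2 : π ≤ 83)
    (h : SN^[j + π] x = SN^[j] x) :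
    ∃ i < j + π, SN^[i] x = 1 ∨ SN^[i] x = 5 ∨ SN^[i] x = 17 := by
  have h' : SN^[π] (SN^[j] x) = SN^[j] x := by
    rw [← Function.iterate_add_apply, add_comm, h]
  obtain ⟨i0, hi0, h3, h4⟩ := cyc_least SN h1 h'
  have h5 := neg_cycle (iter_pos (fun n => SN_pos) (iter_pos (fun n => SN_pos) hx _) _) h1 h2 h3 h4
  exact ⟨i0 + j, by omega, by rw [Function.iterate_add_apply]; exact h5⟩

end Pool.Agent.H547R3.Sub
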