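import Mathlib
import Pool.Agent.H547R3.Sub.Fin
import Pool.Agent.H547R3.Sub.Small

set_option autoImplicit false

open Finset

namespace Pool.Agent.H547R3.Sub

/-- the growth theorem for a window starting at `a`, in terms of `log_2 |T^a x|` -/
theorem init_gen {q : ℕ} (hq : q.Prime) (hq2 : q ≠ 2) (k : ℤ) (hk : k % 2 = 1) (ℓ s : ℕ) (η : ℝ)
    (hη : 0 < η) :
    ∃ n0 : ℕ, ∀ (x : ℤ) (a n : ℕ), n0 ≤ n → (1 + η) * Real.logb 2 |((Tm q k)^[a] x : ℝ)| ≤ n →
      Dec (par q k x) ℓ s a (a + n) →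
      ∃ j π, a ≤ j ∧ 1 ≤ π ∧ π ≤ ℓ ∧ j + π ≤ a + n ∧ (Tm q k)^[j + π] x = (Tm q k)^[j] x := by
  have hl2 : 0 < Real.log 2 := Real.log_pos (by norm_num)
  obtain ⟨ε, hε, n0, hg⟩ := growthT hq hq2 ℓ s (η / (1 + η) * Real.log 2) (by positivity)
  obtain ⟨n1, hn1⟩ := exists_nat_ge (Real.log |(k : ℝ)| / ε)
  refine ⟨max n0 n1, fun x a n hn hx hD => ?_⟩
  have hk0 : (0 : ℝ) < |(k : ℝ)| := by
    have h1 : k ≠ 0 := by rintro rfl; simp at hk
    have : (k : ℝ) ≠ 0 := by exact_mod_cast h1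
    positivity
  refine hg n ((le_max_left _ _).trans hn) k hk ?_ x a ?_ hD
  · rw [← Real.log_le_iff_le_exp hk0]
    have h1 : (n1 : ℝ) ≤ n := by exact_mod_cast (le_max_right _ _).trans hn
    have h2 := hn1.trans h1
    rw [div_le_iff₀ hε] at h2
    linarith
  · set y := (Tm q k)^[a] x with hy
    rcases eq_or_ne y 0 with h0 | h0
    · rw [h0]
      simp only [Int.cast_zero, abs_zero]
      positivity
    · have hy0 : (0 : ℝ) < |(y : ℝ)| := by
        have : (y : ℝ) ≠ 0 := by exact_mod_cast h0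
        positivity
      rw [← Real.exp_log (show (0 : ℝ) < 2 ^ n by positivity), ← Real.exp_add,
        ← Real.log_le_iff_le_exp hy0, Real.log_pow]
      rw [Real.logb, ← mul_div_assoc, div_le_iff₀ hl2] at hx
      have h1 : 0 < 1 + η := by linarith
      have h2 : Real.log |(y : ℝ)| ≤ n * Real.log 2 / (1 + η) := by
        rw [le_div_iff₀ h1]; linarith
      refine h2.trans (le_of_eq ?_)
      field_simp
      ring

lemma Tm_cast (x i : ℕ) : (Tm 3 1)^[i] (x : ℤ) = ((SP^[i] x : ℕ) : ℤ) := by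
  induction i with
  | zero => rfl
  | succ i ih =>
    rw [Function.iterate_succ_apply', Function.iterate_succ_apply', ih]
    set y := SP^[i] x with hy
    unfold Tm SP
    split_ifs <;> omega

lemma Tm_neg_cast (x i : ℕ) : (Tm 3 1)^[i] (-(x : ℤ)) = -((SN^[i] x : ℕ) : ℤ) := by
  induction i with
  | zero => rfl
  | succ i ih =>
    rw [Function.iterate_succ_apply', Function.iterate_succ_apply', ih]
    set y := SN^[i] x with hy
    unfold Tm SN
    split_ifs <;> omega

lemma par_nat (x i : ℕ) : par 3 1 (x : ℤ) i = SP^[i] x % 2 := by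
  unfold par
  simp only [Tm_cast]
  split_ifs <;> omega

lemma par_neg (x i : ℕ) : par 3 1 (-(x : ℤ)) i = SN^[i] x % 2 := by
  unfold par
  simp only [Tm_neg_cast]
  split_ifs <;> omega

lemma par_int (q k x : ℤ) (i j : ℕ) (h : (Tm q k)^[i] x % 2 = (Tm q k)^[j] x % 2) :
    par q k x i = par q k x j := by
  unfold par; simp only [h]

end Pool.Agent.H547R3.Sub
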