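import Mathlib
import Pool.Agent.H547R3.Sub.Chain2
import Pool.Agent.H547R3.Sub.Cyc
import Pool.Agent.H547R3.Sub.Init

set_option autoImplicit false

open Finset

namespace Pool.Agent.H547R3.Sub

/-- **Growth theorem for `T_{q,k}`**, periods up to `ε n`. -/
theorem growthT2 {q : ℕ} (hq : q.Prime) (hq2 : q ≠ 2) (s : ℕ) (η : ℝ) (hη : 0 < η) :
    ∃ ε : ℝ, 0 < ε ∧ ∃ n0 : ℕ, ∀ n, n0 ≤ n → ∀ ℓ : ℕ, (ℓ : ℝ) ≤ ε * n → ∀ k : ℤ, k % 2 = 1 →
      |(k : ℝ)| ≤ Real.exp (ε * n) →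
      ∀ (x : ℤ) (a : ℕ), |((Tm q k)^[a] x : ℝ)| ≤ 2 ^ n * Real.exp (-(η * n)) →
      Dec (par q k x) ℓ s a (a + n) →
      ∃ j π, a ≤ j ∧ 1 ≤ π ∧ π ≤ ℓ ∧ j + π ≤ a + n ∧
        (Tm q k)^[j + π] x = (Tm q k)^[j] x := by
  have h2F : Fact (Nat.Prime 2) := ⟨Nat.prime_two⟩
  have hqF : Fact q.Prime := ⟨hq⟩
  have hq1 : (q : ℤ) % 2 = 1 := by
    rcases hq.eq_two_or_odd with h | h
    · exact absurd h hq2
    · omega
  obtain ⟨ε, hε, n0, hg⟩ := growth2 (p := 2) (q := q) (Ne.symm hq2) 1 s η hη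
  refine ⟨ε, hε, n0, fun n hn ℓ hℓ k hk hkε x a hx hD => ?_⟩
  obtain ⟨t, h0, hs, hmono, hper⟩ := hD
  have h1 := hg n hn ℓ hℓ (fun i => (Tm q k)^[i] x) (par q k x) (fun i => k * par q k x i) t
    (by rw [h0, hs]) hmono ?_ ?_ ?_
  · obtain ⟨j, π, h2, h3, h4, h5, h6⟩ := h1
    exact ⟨j, π, by omega, h3, h4, by omega, h6⟩
  · intro j _ _
    refine ⟨?_, par_le _ _ _ _, ?_⟩
    · exact_mod_cast Tm_rec hq1 hk x j
    · have h2 := par_le q k x j
      have h3 : |((k * par q k x j : ℤ) : ℝ)| ≤ |(k : ℝ)| := by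
        push_cast
        rw [abs_mul]
        have : |((par q k x j : ℕ) : ℝ)| ≤ 1 := by
          rw [Nat.abs_cast]; exact_mod_cast h2
        exact mul_le_of_le_one_right (abs_nonneg _) this
      exact h3.trans hkε
  · intro i hi
    obtain ⟨π, h1, h2, h3⟩ := hper i hi
    refine ⟨π, h1, h2, fun j hj1 hj2 => ?_⟩
    have := h3 j hj1 hj2
    exact ⟨this, by simp only [this]⟩
  · simp only [h0]
    exact_mod_cast hx

/-- **Chain theorem for `T_{q,k}`**, uniform in the periods. -/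
theorem chainT2 {q : ℕ} (hq : q.Prime) (hq2 : q ≠ 2) (C : ℝ) (hC : 0 < C) :
    ∃ A : ℝ, 0 < A ∧ ∀ k : ℤ, k % 2 = 1 → ∀ (ℓ : ℕ) (x : ℤ) (m a b : ℕ),
      Dec (par q k x) ℓ m a b →
      (∀ j π, a ≤ j → 1 ≤ π → π ≤ ℓ → j + π ≤ b → (Tm q k)^[j + π] x ≠ (Tm q k)^[j] x) →
      (b : ℝ) - a ≤ A * (1 + ℓ + Real.log (|((Tm q k)^[a] x : ℝ)| + |(k : ℝ)|)) *
        Real.exp (m / C) := by
  have h2F : Fact (Nat.Prime 2) := ⟨Nat.prime_two⟩
  have hqF : Fact q.Prime := ⟨hq⟩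
  have hq1 : (q : ℤ) % 2 = 1 := by
    rcases hq.eq_two_or_odd with h | h
    · exact absurd h hq2
    · omega
  obtain ⟨A, hA, hc⟩ := chain2 (p := 2) (q := q) (Ne.symm hq2) 1 C hC
  refine ⟨A, hA, fun k hk ℓ x m a b hD hno => ?_⟩
  obtain ⟨t, h0, hs, hmono, hper⟩ := hD
  have hk1 : (1 : ℝ) ≤ |(k : ℝ)| := by
    have h1 : k ≠ 0 := by rintro rfl; simp at hk
    have h2 : 1 ≤ |k| := Int.one_le_abs h1
    exact_mod_cast h2
  have h1 := hc ℓ (fun i => (Tm q k)^[i] x) (par q k x) (fun i => k * par q k x i) t m |(k : ℝ)|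
    hk1 hmono ?_ ?_ ?_
  · rw [h0, hs] at h1
    exact h1
  · intro j _ _
    refine ⟨?_, par_le _ _ _ _, ?_⟩
    · exact_mod_cast Tm_rec hq1 hk x j
    · have h2 := par_le q k x j
      push_cast
      rw [abs_mul]
      have : |((par q k x j : ℕ) : ℝ)| ≤ 1 := by
        rw [Nat.abs_cast]; exact_mod_cast h2
      exact mul_le_of_le_one_right (abs_nonneg _) this
  · intro i hi
    obtain ⟨π, h1, h2, h3⟩ := hper i hi
    refine ⟨π, h1, h2, fun j hj1 hj2 => ?_⟩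
    have := h3 j hj1 hj2
    exact ⟨this, by simp only [this]⟩
  · intro j π h1 h2 h3 h4
    rw [h0] at h1
    rw [hs] at h4
    exact hno j π h1 h2 h3 h4

/-- size of the least element of a cycle (in absolute value), in terms of the length -/
lemma min_size {q : ℕ} (hq : q.Prime) (hq2 : q ≠ 2) :
    ∃ B : ℝ, 0 < B ∧ ∀ k : ℤ, k % 2 = 1 → ∀ (x : ℤ) (p : ℕ), 1 ≤ p → (Tm q k)^[p] x = x →
      ∃ i0 < p, Real.log (|((Tm q k)^[i0] x : ℝ)| + |(k : ℝ)|) ≤
        Real.log |(k : ℝ)| + B * (1 + Real.log p) ^ 2 := by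
  obtain ⟨B, hB, hmin⟩ := cycle_min hq hq2
  refine ⟨B + 2, by positivity, fun k hk x p hp1 hper => ?_⟩
  have hpR : (1 : ℝ) ≤ p := by exact_mod_cast hp1
  have hp0 : (0 : ℝ) < p := by linarith
  have hlogp : 0 ≤ Real.log p := Real.log_nonneg hpR
  have hk1 : (1 : ℝ) ≤ |(k : ℝ)| := by
    have h1 : k ≠ 0 := by rintro rfl; simp at hk
    have h2 : 1 ≤ |k| := Int.one_le_abs h1
    exact_mod_cast h2
  obtain ⟨i0, hi0, hi0min⟩ := Finset.exists_min_image (range p) (fun i => |(Tm q k)^[i] x|)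
    ⟨0, Finset.mem_range.2 (by omega)⟩
  rw [Finset.mem_range] at hi0
  refine ⟨i0, hi0, ?_⟩
  set y := (Tm q k)^[i0] x with hy
  have hyper : (Tm q k)^[p] y = y := by
    rw [hy, ← Function.iterate_add_apply, add_comm, iter_per hper]
  have hymin : ∀ i, |y| ≤ |(Tm q k)^[i] y| := by
    intro i
    rw [hy, ← Function.iterate_add_apply, iter_mod hper (i + i0)]
    exact hi0min _ (Finset.mem_range.2 (Nat.mod_lt _ (by omega)))
  have hl2 : Real.log 2 ≤ 1 := by have := Real.log_two_lt_d9; linarith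
  have hk0 : (0 : ℝ) < |(k : ℝ)| := by linarith
  have hBp : 0 ≤ B * (1 + Real.log p) ^ 2 := by positivity
  have hsq : 1 + Real.log p ≤ (1 + Real.log p) ^ 2 := by nlinarith
  rcases lt_or_ge |y| |k| with h | h
  · have h1 : |(y : ℝ)| ≤ |(k : ℝ)| := by exact_mod_cast h.le
    have h2 : Real.log (|(y : ℝ)| + |(k : ℝ)|) ≤ Real.log (2 * |(k : ℝ)|) :=
      Real.log_le_log (by positivity) (by linarith)
    rw [Real.log_mul (by norm_num) hk0.ne'] at h2
    rw [add_mul]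
    linarith
  · have hy0 : y ≠ 0 := by
      intro h0
      rw [h0, abs_zero] at h
      have : |k| = 0 := le_antisymm h (abs_nonneg _)
      have h1 : k = 0 := abs_eq_zero.1 this
      rw [h1] at hk; simp at hk
    have h1 := hmin k hk y p hp1 hyper hy0 hymin h
    have hE : 1 ≤ Real.exp (B * (1 + Real.log p) ^ 2) := Real.one_le_exp hBp
    have h2 : |(k : ℝ)| ≤ p * |(k : ℝ)| * Real.exp (B * (1 + Real.log p) ^ 2) := by
      have h3 : |(k : ℝ)| ≤ p * |(k : ℝ)| := le_mul_of_one_le_left hk0.le hpR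
      have h4 : p * |(k : ℝ)| ≤ p * |(k : ℝ)| * Real.exp (B * (1 + Real.log p) ^ 2) :=
        le_mul_of_one_le_right (by positivity) hE
      exact h3.trans h4
    have h3 : Real.log (|(y : ℝ)| + |(k : ℝ)|) ≤
        Real.log (2 * (p * |(k : ℝ)| * Real.exp (B * (1 + Real.log p) ^ 2))) :=
      Real.log_le_log (by positivity) (by linarith)
    rw [Real.log_mul (by norm_num) (by positivity), Real.log_mul (by positivity) (by positivity),
      Real.log_mul (by positivity) (by positivity), Real.log_exp] at h3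
    rw [add_mul]
    linarith

/-- **Cycle theorem for `T_{q,k}`**, uniform in `k` and in the periods. -/
theorem cycleT2 {q : ℕ} (hq : q.Prime) (hq2 : q ≠ 2) (C : ℝ) (hC : 0 < C) :
    ∃ A : ℝ, 0 < A ∧ ∀ k : ℤ, k % 2 = 1 → ∀ (x : ℤ) (p m ℓ : ℕ), 1 ≤ p →
      (Tm q k)^[p] x = x → (∀ j, 1 ≤ j → j < p → (Tm q k)^[j] x ≠ x) →
      Dec (par q k x) ℓ m 0 p →
      (p : ℝ) ≤ A * (ℓ + Real.log |(k : ℝ)| + (1 + Real.log p) ^ 2) * Real.exp (m / C) := by
  obtain ⟨B, hB, hmin⟩ := min_size hq hq2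
  obtain ⟨A, hA, hch⟩ := chainT2 hq hq2 (2 * C) (by positivity)
  refine ⟨A * (1 + B) + 1, by positivity, fun k hk x p m ℓ hp1 hper hprim hD => ?_⟩
  have hpR : (1 : ℝ) ≤ p := by exact_mod_cast hp1
  have hlogp : 0 ≤ Real.log p := Real.log_nonneg hpR
  have hk1 : (1 : ℝ) ≤ |(k : ℝ)| := by
    have h1 : k ≠ 0 := by rintro rfl; simp at hk
    have h2 : 1 ≤ |k| := Int.one_le_abs h1
    exact_mod_cast h2
  have hlogk : 0 ≤ Real.log |(k : ℝ)| := Real.log_nonneg hk1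
  have hexp : 1 ≤ Real.exp (m / C) := Real.one_le_exp (by positivity)
  have hℓ0 : (0 : ℝ) ≤ ℓ := Nat.cast_nonneg _
  have hsq : 1 ≤ (1 + Real.log p) ^ 2 := by nlinarith
  set S : ℝ := ℓ + Real.log |(k : ℝ)| + (1 + Real.log p) ^ 2 with hS
  have hS0 : 0 ≤ S := by rw [hS]; positivity
  rcases Nat.lt_or_ge ℓ p with hℓp | hℓp
  · obtain ⟨i0, hi0, hsize⟩ := hmin k hk x p hp1 hper
    have hrot := hD.rot (fun i => par_per hper i) hi0.le
    have h1 := hch k hk ℓ x (m + m) i0 (i0 + p) hrot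
      (fun j π _ h2 h3 _ => no_rep hp1 hper hprim h2 (by omega))
    set y := (Tm q k)^[i0] x with hy
    push_cast at h1
    have h2 : ((m : ℝ) + m) / (2 * C) = m / C := by field_simp; ring
    rw [h2] at h1
    have h3 : 1 + (ℓ : ℝ) + Real.log (|(y : ℝ)| + |(k : ℝ)|) ≤ (1 + B) * S := by
      have h4 : (1 + Real.log p) ^ 2 ≤ S := by rw [hS]; linarith
      have h5 := mul_le_mul_of_nonneg_left h4 hB.le
      rw [add_mul, one_mul]
      linarith
    have h6 : (p : ℝ) ≤ A * ((1 + B) * S) * Real.exp (m / C) := by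
      have h7 : (p : ℝ) ≤ A * (1 + ℓ + Real.log (|(y : ℝ)| + |(k : ℝ)|)) * Real.exp (m / C) := by
        linarith
      refine h7.trans ?_
      exact mul_le_mul_of_nonneg_right (mul_le_mul_of_nonneg_left h3 hA.le) (Real.exp_pos _).le
    refine h6.trans ?_
    have h8 : 0 ≤ S * Real.exp (m / C) := by positivity
    have h9 : (A * (1 + B) + 1) * S * Real.exp (m / C) =
      A * ((1 + B) * S) * Real.exp (m / C) + S * Real.exp (m / C) := by ring
    rw [h9]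
    linarith
  · have h1 : (p : ℝ) ≤ ℓ := by exact_mod_cast hℓp
    have h2 : (p : ℝ) ≤ S := by rw [hS]; linarith
    have h3 : S ≤ S * Real.exp (m / C) := le_mul_of_one_le_right hS0 hexp
    have h4 : S * Real.exp (m / C) ≤ (A * (1 + B) + 1) * S * Real.exp (m / C) := by
      have h5 : 0 ≤ A * (1 + B) * (S * Real.exp (m / C)) := by positivity
      have h6 : (A * (1 + B) + 1) * S * Real.exp (m / C) =
        A * (1 + B) * (S * Real.exp (m / C)) + S * Real.exp (m / C) := by ring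
      rw [h6]
      linarith
    linarith

/-- the growth theorem for a window starting at `a`, in terms of `log_2 |T^a x|` -/
theorem init_gen2 {q : ℕ} (hq : q.Prime) (hq2 : q ≠ 2) (k : ℤ) (hk : k % 2 = 1) (s : ℕ) (η : ℝ)
    (hη : 0 < η) :
    ∃ ε : ℝ, 0 < ε ∧ ∃ n0 : ℕ, ∀ (x : ℤ) (a n ℓ : ℕ), n0 ≤ n → (ℓ : ℝ) ≤ ε * n →
      (1 + η) * Real.logb 2 |((Tm q k)^[a] x : ℝ)| ≤ n →
      Dec (par q k x) ℓ s a (a + n) →
      ∃ j π, a ≤ j ∧ 1 ≤ π ∧ π ≤ ℓ ∧ j + π ≤ a + n ∧ (Tm q k)^[j + π] x = (Tm q k)^[j] x := by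
  have hl2 : 0 < Real.log 2 := Real.log_pos (by norm_num)
  obtain ⟨ε, hε, n0, hg⟩ := growthT2 hq hq2 s (η / (1 + η) * Real.log 2) (by positivity)
  obtain ⟨n1, hn1⟩ := exists_nat_ge (Real.log |(k : ℝ)| / ε)
  refine ⟨ε, hε, max n0 n1, fun x a n ℓ hn hℓ hx hD => ?_⟩
  have hk0 : (0 : ℝ) < |(k : ℝ)| := by
    have h1 : k ≠ 0 := by rintro rfl; simp at hk
    have : (k : ℝ) ≠ 0 := by exact_mod_cast h1
    positivity
  refine hg n ((le_max_left _ _).trans hn) ℓ hℓ k hk ?_ x a ?_ hD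
  · rw [← Real.log_le_iff_le_exp hk0]
    have h1 : (n1 : ℝ) ≤ n := by exact_mod_cast (le_max_right _ _).trans hn
    have h2 := hn1.trans h1
    rw [div_le_iff₀ hε] at h2
    linarith
  · set y := (Tm q k)^[a] x with hy
    rcases eq_or_ne y 0 with h0 | h0
    · rw [h0]
      simp only [Int.cast_zero, abs_zero]
      positivity
    · have hy0 : (0 : ℝ) < |(y : ℝ)| := by
        have : (y : ℝ) ≠ 0 := by exact_mod_cast h0
        positivity
      rw [← Real.exp_log (show (0 : ℝ) < 2 ^ n by positivity), ← Real.exp_add,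
        ← Real.log_le_iff_le_exp hy0, Real.log_pow]
      rw [Real.logb, ← mul_div_assoc, div_le_iff₀ hl2] at hx
      have h1 : 0 < 1 + η := by linarith
      have h2 : Real.log |(y : ℝ)| ≤ n * Real.log 2 / (1 + η) := by
        rw [le_div_iff₀ h1]; linarith
      refine h2.trans (le_of_eq ?_)
      field_simp
      ring

end Pool.Agent.H547R3.Sub
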