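import Mathlib
import Pool.Agent.H547R3.Sub.Tqk2

set_option autoImplicit false

open Finset

namespace Pool.Agent.H547R3.Sub

/-- the two words `e, r` on `[a,b)` are simultaneously a concatenation of `m` words with a common
period between `1` and `ℓ` -/
def Dec2 (e : ℕ → ℕ) (r : ℕ → ℤ) (ℓ m a b : ℕ) : Prop :=
  ∃ t : ℕ → ℕ, t 0 = a ∧ t m = b ∧ (∀ i < m, t i ≤ t (i + 1)) ∧
    ∀ i < m, ∃ π, 1 ≤ π ∧ π ≤ ℓ ∧ ∀ j, t i ≤ j → j + π < t (i + 1) →
      e (j + π) = e j ∧ r (j + π) = r j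

/-- the same for one word with values in any type -/
def DecW {α : Type} (w : ℕ → α) (ℓ m a b : ℕ) : Prop :=
  ∃ t : ℕ → ℕ, t 0 = a ∧ t m = b ∧ (∀ i < m, t i ≤ t (i + 1)) ∧
    ∀ i < m, ∃ π, 1 ≤ π ∧ π ≤ ℓ ∧ ∀ j, t i ≤ j → j + π < t (i + 1) → w (j + π) = w j

lemma DecW.sub {α : Type} {w : ℕ → α} {ℓ m a b a' b' : ℕ} (h : DecW w ℓ m a b) (ha : a ≤ a')
    (hab : a' ≤ b') (hb : b' ≤ b) : DecW w ℓ m a' b' := by
  obtain ⟨t, h0, hm, hmono, hper⟩ := h
  refine ⟨fun i => max a' (min b' (t i)), ?_, ?_, ?_, ?_⟩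
  · simp only; omega
  · simp only; omega
  · intro i hi
    have := hmono i hi
    simp only; omega
  · intro i hi
    obtain ⟨π, h1, h2, h3⟩ := hper i hi
    refine ⟨π, h1, h2, fun j hj1 hj2 => ?_⟩
    have := hmono i hi
    simp only at hj1 hj2
    exact h3 j (by omega) (by omega)

lemma DecW.append {α : Type} {w : ℕ → α} {ℓ m m' a b c : ℕ} (h : DecW w ℓ m a b)
    (h' : DecW w ℓ m' b c) : DecW w ℓ (m + m') a c := by
  obtain ⟨t, h0, hm, hmono, hper⟩ := h
  obtain ⟨t', h0', hm', hmono', hper'⟩ := h'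
  refine ⟨fun i => if i ≤ m then t i else t' (i - m), ?_, ?_, ?_, ?_⟩
  · simp [h0]
  · rcases Nat.eq_zero_or_pos m' with h | h
    · subst h
      simp only [add_zero, le_refl, if_true]
      rw [hm, ← h0', hm']
    · simp only [show ¬ (m + m' ≤ m) by omega, if_false]
      rw [Nat.add_sub_cancel_left, hm']
  · intro i hi
    rcases lt_trichotomy i m with h | h | h
    · simp only [show i ≤ m by omega, show i + 1 ≤ m by omega, if_true]
      exact hmono i h
    · subst h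
      simp only [le_refl, show ¬ (i + 1 ≤ i) by omega, if_true, if_false]
      rw [hm, ← h0', Nat.add_sub_cancel_left]
      exact hmono' 0 (by omega)
    · simp only [show ¬ (i ≤ m) by omega, show ¬ (i + 1 ≤ m) by omega, if_false]
      have := hmono' (i - m) (by omega)
      rwa [show i - m + 1 = i + 1 - m by omega] at this
  · intro i hi
    rcases lt_trichotomy i m with h | h | h
    · simp only [show i ≤ m by omega, show i + 1 ≤ m by omega, if_true]
      exact hper i h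
    · subst h
      simp only [le_refl, show ¬ (i + 1 ≤ i) by omega, if_true, if_false]
      rw [hm, ← h0', Nat.add_sub_cancel_left]
      exact hper' 0 (by omega)
    · simp only [show ¬ (i ≤ m) by omega, show ¬ (i + 1 ≤ m) by omega, if_false]
      have := hper' (i - m) (by omega)
      rwa [show i - m + 1 = i + 1 - m by omega] at this

lemma DecW.shift {α : Type} {w : ℕ → α} {ℓ m a b p : ℕ} (h : DecW w ℓ m a b)
    (hp : ∀ i, w (i + p) = w i) : DecW w ℓ m (a + p) (b + p) := by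
  obtain ⟨t, h0, hm, hmono, hper⟩ := h
  refine ⟨fun i => t i + p, by simp [h0], by simp [hm], fun i hi => ?_, fun i hi => ?_⟩
  · have := hmono i hi
    simp only; omega
  · obtain ⟨π, h1, h2, h3⟩ := hper i hi
    refine ⟨π, h1, h2, fun j hj1 hj2 => ?_⟩
    simp only at hj1 hj2
    have h4 := h3 (j - p) (by omega) (by omega)
    have h5 := hp (j - p)
    have h6 := hp (j - p + π)
    rw [show j - p + p = j by omega] at h5
    rw [show j - p + π + p = j + π by omega] at h6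
    rw [h5, h6, h4]

lemma DecW.rot {α : Type} {w : ℕ → α} {ℓ m p : ℕ} (h : DecW w ℓ m 0 p)
    (hp : ∀ i, w (i + p) = w i) {i : ℕ} (hi : i ≤ p) : DecW w ℓ (m + m) i (i + p) := by
  have h1 := h.shift hp
  rw [zero_add] at h1
  exact (h.append h1).sub (Nat.zero_le _) (by omega) (by omega)

/-- logarithmic size along the recursion -/
lemma gsum_logs {p q : ℕ} (hp : 1 ≤ p) (hq : 1 ≤ q) (x : ℕ → ℤ) (e : ℕ → ℕ) (r : ℕ → ℤ)
    {ρ X : ℝ} (hρ : 0 ≤ ρ) (hX : 0 < X) (hρX : 2 * ρ ≤ X)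
    (hrec : ∀ j, (p : ℤ) * x (j + 1) = (q : ℤ) ^ e j * x j + r j ∧ |(r j : ℝ)| ≤ ρ)
    (hmin : ∀ j, X ≤ |(x j : ℝ)|) (n : ℕ) :
    |Real.log |(x n : ℝ)| - Real.log |(x 0 : ℝ)| -
      ((kap e 0 n : ℝ) * Real.log q - n * Real.log p)| ≤ n * (2 * ρ / X) := by
  have hp0 : (0 : ℝ) < p := by exact_mod_cast hp
  have hq0 : (0 : ℝ) < q := by exact_mod_cast hq
  have hq1 : (1 : ℝ) ≤ q := by exact_mod_cast hq
  induction n with
  | zero => simp [kap_self]
  | succ n ih =>
    obtain ⟨hrec1, hr⟩ := hrec n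
    have hy0 : 0 < |(x n : ℝ)| := lt_of_lt_of_le hX (hmin n)
    have hy0' : 0 < |(x (n + 1) : ℝ)| := lt_of_lt_of_le hX (hmin (n + 1))
    have hqe : (1 : ℝ) ≤ (q : ℝ) ^ e n := one_le_pow₀ hq1
    have hqe0 : (0 : ℝ) < (q : ℝ) ^ e n := by positivity
    have hyne : (x n : ℝ) ≠ 0 := abs_pos.1 hy0
    set u : ℝ := (r n : ℝ) / ((q : ℝ) ^ e n * x n) with hu
    have hul : |u| ≤ ρ / X := by
      rw [hu, abs_div, abs_mul, abs_of_pos hqe0]
      apply div_le_div₀ hρ hr hX
      calc X ≤ |(x n : ℝ)| := hmin n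
        _ ≤ (q : ℝ) ^ e n * |(x n : ℝ)| := le_mul_of_one_le_left hy0.le hqe
    have hρX' : ρ / X ≤ 1 / 2 := by rw [div_le_div_iff₀ hX (by norm_num)]; linarith
    have hu2 : |u| ≤ 1 / 2 := hul.trans hρX'
    have h3 : (p : ℝ) * (x (n + 1) : ℝ) = (q : ℝ) ^ e n * x n + r n := by exact_mod_cast hrec1
    have h4 : (p : ℝ) * (x (n + 1) : ℝ) = (q : ℝ) ^ e n * x n * (1 + u) := by
      rw [h3, hu]; field_simp
    have h1u : 0 < 1 + u := by have := (abs_le.1 hu2).1; linarith
    have h5 : Real.log p + Real.log |(x (n + 1) : ℝ)| = e n * Real.log q +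
        Real.log |(x n : ℝ)| + Real.log (1 + u) := by
      rw [← Real.log_pow, ← Real.log_mul hp0.ne' hy0'.ne',
        ← Real.log_mul hqe0.ne' hy0.ne', ← Real.log_mul (by positivity) h1u.ne']
      congr 1
      have h6 : |(p : ℝ) * (x (n + 1) : ℝ)| = |(q : ℝ) ^ e n * x n * (1 + u)| := by rw [h4]
      rw [abs_mul, abs_mul, abs_mul, abs_of_pos hp0, abs_of_pos hqe0, abs_of_pos h1u] at h6
      exact h6
    have h7 := abs_log_one_add hu2
    have h8 : Real.log |(x (n + 1) : ℝ)| - Real.log |(x 0 : ℝ)| -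
        ((kap e 0 (n + 1) : ℝ) * Real.log q - ((n + 1 : ℕ) : ℝ) * Real.log p) =
        (Real.log |(x n : ℝ)| - Real.log |(x 0 : ℝ)| -
          ((kap e 0 n : ℝ) * Real.log q - n * Real.log p)) + Real.log (1 + u) := by
      rw [kap_succ e (Nat.zero_le n)]
      push_cast
      linarith
    rw [h8]
    refine (abs_add_le _ _).trans ?_
    have h9 : |Real.log (1 + u)| ≤ 2 * ρ / X := by
      calc _ ≤ 2 * |u| := h7
        _ ≤ 2 * (ρ / X) := by linarith
        _ = 2 * ρ / X := by ring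
    push_cast
    linarith

/-- bound for the least absolute value in a cycle -/
theorem gcycle_min {p q : ℕ} (hp : p.Prime) (hq : q.Prime) (hpq : p ≠ q) (E : ℕ) :
    ∃ B : ℝ, 0 < B ∧ ∀ (x : ℕ → ℤ) (e : ℕ → ℕ) (r : ℕ → ℤ) (ρ : ℝ) (P : ℕ), 1 ≤ ρ → 1 ≤ P →
      (∀ j, (p : ℤ) * x (j + 1) = (q : ℤ) ^ e j * x j + r j ∧ e j ≤ E ∧ |(r j : ℝ)| ≤ ρ) →
      x P = x 0 → (∀ j, |x 0| ≤ |x j|) →
      Real.log (|(x 0 : ℝ)| + ρ) ≤ Real.log ρ + B * (1 + Real.log P) ^ 2 := by
  set Y : ℕ := ⌈Real.log p⌉₊ + ⌈Real.log q⌉₊ + 1 with hY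
  have hY1 : 1 ≤ Y := by omega
  have hYR : (1 : ℝ) ≤ Y := by exact_mod_cast hY1
  have hlp0 : 0 < Real.log p := Real.log_pos (by exact_mod_cast hp.one_lt)
  have hlq0 : 0 < Real.log q := Real.log_pos (by exact_mod_cast hq.one_lt)
  have hpY : Real.log p ≤ Y := by
    have h1 := Nat.le_ceil (Real.log p)
    rw [hY]; push_cast
    have : (0 : ℝ) ≤ (⌈Real.log q⌉₊ : ℝ) := Nat.cast_nonneg _
    linarith
  have hqY : Real.log q ≤ Y := by
    have h1 := Nat.le_ceil (Real.log q)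
    rw [hY]; push_cast
    have : (0 : ℝ) ≤ (⌈Real.log p⌉₊ : ℝ) := Nat.cast_nonneg _
    linarith
  set K : ℝ := 16 * (1 + Real.log (4640 * Y * (E + 1))) with hK
  have hE0 : (0 : ℝ) ≤ E := Nat.cast_nonneg _
  have hlogY : 0 ≤ Real.log (4640 * Y * (E + 1)) := Real.log_nonneg (by nlinarith)
  have hK16 : 16 ≤ K := by rw [hK]; linarith
  set B0 : ℝ := 20880 * (Y : ℝ) ^ 2 * (K + 1) ^ 2 with hB0
  have hB00 : 0 < B0 := by rw [hB0]; positivity
  have hl2 : Real.log 2 ≤ 1 := by have := Real.log_two_lt_d9; linarith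
  have hlp2 : Real.log 2 ≤ Real.log p := Real.log_le_log (by norm_num) (by exact_mod_cast hp.two_le)
  have hl2' : (1 : ℝ) / 2 ≤ Real.log 2 := by have := Real.log_two_gt_d9; linarith
  refine ⟨B0 + 4, by positivity, fun x e r ρ P hρ hP hrec hper hmin => ?_⟩
  have hPR : (1 : ℝ) ≤ P := by exact_mod_cast hP
  have hP0 : (0 : ℝ) < P := by linarith
  have hlogP : 0 ≤ Real.log P := Real.log_nonneg hPR
  have hsq : 1 + Real.log P ≤ (1 + Real.log P) ^ 2 := by nlinarith
  have hρ0 : 0 < ρ := by linarith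
  set X : ℝ := |(x 0 : ℝ)| with hX
  have hX0 : 0 ≤ X := abs_nonneg _
  -- it is enough to bound `X`
  have hfin : ∀ Z : ℝ, 1 ≤ Z → X ≤ ρ * Z → Real.log (X + ρ) ≤ Real.log ρ + 1 + Real.log Z := by
    intro Z hZ h
    have h1 : X + ρ ≤ ρ * (2 * Z) := by nlinarith
    have h2 : Real.log (X + ρ) ≤ Real.log (ρ * (2 * Z)) := Real.log_le_log (by positivity) h1
    rw [Real.log_mul hρ0.ne' (by positivity), Real.log_mul (by norm_num) (by positivity)] at h2
    linarith
  have hsmall : X ≤ ρ * 8 → Real.log (X + ρ) ≤ Real.log ρ + (B0 + 4) * (1 + Real.log P) ^ 2 := by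
    intro h
    have h1 := hfin 8 (by norm_num) h
    have h2 : Real.log 8 ≤ 3 := by
      have : Real.log 8 = 3 * Real.log 2 := by
        rw [show (8 : ℝ) = 2 ^ 3 by norm_num, Real.log_pow]; norm_num
      rw [this]; linarith
    have h3 : 4 ≤ (B0 + 4) * (1 + Real.log P) ^ 2 := by nlinarith
    linarith
  rcases le_or_gt X (ρ * 8) with h8 | h8
  · exact hsmall h8
  have hXpos : 0 < X := by linarith
  have hminR : ∀ j, X ≤ |(x j : ℝ)| := fun j => by
    rw [hX]; exact_mod_cast hmin j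
  have h1 := gsum_logs hp.one_le hq.one_le x e r hρ0.le hXpos (by linarith)
    (fun j => ⟨(hrec j).1, (hrec j).2.2⟩) hminR P
  rw [hper, sub_self, zero_sub, abs_neg] at h1
  set N := kap e 0 P with hN
  have hNE : N ≤ E * P := by
    have := kap_le e (E := E) (a := 0) (b := P) (fun j _ _ => (hrec j).2.1)
    rwa [Nat.sub_zero] at this
  have hNER : (N : ℝ) ≤ E * P := by exact_mod_cast hNE
  rcases Nat.eq_zero_or_pos N with hN0 | hN1
  · -- `N = 0`
    exfalso
    rw [hN0] at h1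
    have h2 : |((0 : ℕ) : ℝ) * Real.log q - P * Real.log p| = P * Real.log p := by
      rw [Nat.cast_zero, zero_mul, zero_sub, abs_neg, abs_of_nonneg (by positivity)]
    rw [h2] at h1
    have h3 : Real.log p ≤ 2 * ρ / X := le_of_mul_le_mul_left h1 hP0
    rw [le_div_iff₀ hXpos] at h3
    nlinarith
  · set L : ℕ := ⌈K * (1 + Real.log P)⌉₊ with hL
    have hKp : 16 ≤ K * (1 + Real.log P) := by nlinarith
    have hLge : K * (1 + Real.log P) ≤ L := Nat.le_ceil _
    have hL16 : (16 : ℝ) ≤ L := by linarith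
    have hL1 : 1 ≤ L := by
      have : (1 : ℝ) ≤ L := by linarith
      exact_mod_cast this
    have hLle : (L : ℝ) ≤ (K + 1) * (1 + Real.log P) := by
      have := Nat.ceil_lt_add_one (show (0 : ℝ) ≤ K * (1 + Real.log P) by linarith)
      rw [← hL] at this
      linarith
    have hlfl := Pool.Agent.H440R2.lfl p q P N Y L hp hq hpq hP hN1 hY1 hL1 hpY hqY (by
      have hL0 : (0 : ℝ) < L := by linarith
      have h5 : Real.log (L / 16) ≤ L / 16 - 1 := Real.log_le_sub_one_of_pos (by positivity)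
      have h6 : Real.log (290 * Y * L * ((P : ℝ) + N)) ≤
          Real.log (4640 * Y * (E + 1) * (L / 16) * P) := by
        apply Real.log_le_log (by positivity)
        have h7 : (0 : ℝ) < 290 * Y * L := by positivity
        have h8 : (P : ℝ) + N ≤ (E + 1) * P := by linarith
        calc 290 * (Y : ℝ) * L * ((P : ℝ) + N) ≤ 290 * Y * L * ((E + 1) * P) :=
              mul_le_mul_of_nonneg_left h8 h7.le
          _ = 4640 * Y * (E + 1) * (L / 16) * P := by ring
      have h6' : Real.log (4640 * Y * (E + 1) * (L / 16) * P) =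
          Real.log (4640 * Y * (E + 1)) + Real.log (L / 16) + Real.log P := by
        rw [Real.log_mul (by positivity) (by positivity), Real.log_mul (by positivity)
          (by positivity)]
      rw [h6'] at h6
      have h7 : K * (1 + Real.log P) ≥ 16 * (1 + Real.log (4640 * Y * (E + 1))) +
          16 * Real.log P := by
        rw [hK]
        nlinarith
      linarith)
    have h10 : (L : ℝ) ^ 2 ≤ (K + 1) ^ 2 * (1 + Real.log P) ^ 2 := by
      rw [← mul_pow]
      exact pow_le_pow_left₀ (by positivity) hLle 2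
    have h11 : Real.exp (-(B0 * (1 + Real.log P) ^ 2)) ≤
        Real.exp (-(20880 * (Y : ℝ) ^ 2 * (L : ℝ) ^ 2)) := by
      apply Real.exp_le_exp.2
      have : 20880 * (Y : ℝ) ^ 2 * (L : ℝ) ^ 2 ≤
          20880 * (Y : ℝ) ^ 2 * ((K + 1) ^ 2 * (1 + Real.log P) ^ 2) :=
        mul_le_mul_of_nonneg_left h10 (by positivity)
      rw [hB0]
      linarith
    have h12 := (h11.trans hlfl.le).trans h1
    rw [Real.exp_neg, mul_div_assoc', le_div_iff₀ hXpos, inv_mul_le_iff₀ (Real.exp_pos _)] at h12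
    have h13 : X ≤ ρ * (2 * P * Real.exp (B0 * (1 + Real.log P) ^ 2)) := by linarith
    have hexp1 : 1 ≤ Real.exp (B0 * (1 + Real.log P) ^ 2) := Real.one_le_exp (by positivity)
    have h14 := hfin _ (by nlinarith) h13
    rw [Real.log_mul (by positivity) (Real.exp_pos _).ne', Real.log_exp,
      Real.log_mul (by norm_num) hP0.ne'] at h14
    rw [add_mul]
    nlinarith

end Pool.Agent.H547R3.Sub
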