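import Mathlib
import Pool.Agent.H547R3.Sub.GCyc

set_option autoImplicit false

open Finset

namespace Pool.Agent.H547R3.Sub

/-- general cycle theorem -/
theorem gcycle {α : Type} {p q : ℕ} (hp : p.Prime) (hq : q.Prime) (hpq : p ≠ q) (E : ℕ) (C : ℝ)
    (hC : 0 < C) :
    ∃ A : ℝ, 0 < A ∧ ∀ (x : ℕ → ℤ) (w : ℕ → α) (fe : α → ℕ) (fr : α → ℤ) (ρ : ℝ) (P m ℓ : ℕ),
      1 ≤ ρ → 1 ≤ P →
      (∀ j, (p : ℤ) * x (j + 1) = (q : ℤ) ^ fe (w j) * x j + fr (w j) ∧ fe (w j) ≤ E ∧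
        |(fr (w j) : ℝ)| ≤ ρ) →
      (∀ j, x (j + P) = x j) → (∀ j, w (j + P) = w j) →
      (∀ j π, 1 ≤ π → π < P → x (j + π) ≠ x j) → DecW w ℓ m 0 P →
      (P : ℝ) ≤ A * (ℓ + Real.log ρ + (1 + Real.log P) ^ 2) * Real.exp (m / C) := by
  have hpF : Fact p.Prime := ⟨hp⟩
  have hqF : Fact q.Prime := ⟨hq⟩
  obtain ⟨B, hB, hmin⟩ := gcycle_min hp hq hpq E
  obtain ⟨A, hA, hch⟩ := chain2 (p := p) (q := q) hpq E (2 * C) (by positivity)
  refine ⟨A * (1 + B) + 1, by positivity, fun x w fe fr ρ P m ℓ hρ hP hrec hxP hwP hno hD => ?_⟩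
  have hPR : (1 : ℝ) ≤ P := by exact_mod_cast hP
  have hlogP : 0 ≤ Real.log P := Real.log_nonneg hPR
  have hlogρ : 0 ≤ Real.log ρ := Real.log_nonneg hρ
  have hexp : 1 ≤ Real.exp (m / C) := Real.one_le_exp (by positivity)
  have hℓ0 : (0 : ℝ) ≤ ℓ := Nat.cast_nonneg _
  have hsq : 1 ≤ (1 + Real.log P) ^ 2 := by nlinarith
  set S : ℝ := ℓ + Real.log ρ + (1 + Real.log P) ^ 2 with hS
  have hS0 : 0 ≤ S := by rw [hS]; positivity
  rcases Nat.lt_or_ge ℓ P with hℓP | hℓP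
  · obtain ⟨i0, hi0, hi0min⟩ := Finset.exists_min_image (range P) (fun i => |x i|)
      ⟨0, Finset.mem_range.2 (by omega)⟩
    rw [Finset.mem_range] at hi0
    have hxmul : ∀ N j, x (j + P * N) = x j := by
      intro N
      induction N with
      | zero => intro j; rfl
      | succ N ih => intro j; rw [Nat.mul_succ, ← add_assoc, hxP, ih]
    have hxmod : ∀ j, x j = x (j % P) := by
      intro j
      conv_lhs => rw [← Nat.mod_add_div j P]
      rw [hxmul]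
    have hsize := hmin (fun j => x (i0 + j)) (fun j => fe (w (i0 + j))) (fun j => fr (w (i0 + j)))
      ρ P hρ hP (fun j => hrec (i0 + j)) (by simp only [add_zero]; exact hxP i0)
      (fun j => by
        simp only [add_zero]
        rw [hxmod (i0 + j)]
        exact hi0min _ (Finset.mem_range.2 (Nat.mod_lt _ (by omega))))
    simp only [add_zero] at hsize
    obtain ⟨t, h0, hm, hmono, hper⟩ := hD.rot hwP hi0.le
    have h1 := hch ℓ x (fun j => fe (w j)) (fun j => fr (w j)) t (m + m) ρ hρ hmono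
      (fun j _ _ => hrec j)
      (fun i hi => by
        obtain ⟨π, g1, g2, g3⟩ := hper i hi
        refine ⟨π, g1, g2, fun j hj1 hj2 => ?_⟩
        have := g3 j hj1 hj2
        simp only [this, and_self])
      (fun j π _ g2 g3 _ => hno j π g2 (by omega))
    rw [hm, h0] at h1
    push_cast at h1
    have h2 : ((m : ℝ) + m) / (2 * C) = m / C := by field_simp; ring
    rw [h2] at h1
    set y := x i0 with hy
    have h3 : 1 + (ℓ : ℝ) + Real.log (|(y : ℝ)| + ρ) ≤ (1 + B) * S := by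
      have h4 : (1 + Real.log P) ^ 2 ≤ S := by rw [hS]; linarith
      have h5 := mul_le_mul_of_nonneg_left h4 hB.le
      rw [add_mul, one_mul]
      linarith
    have h6 : (P : ℝ) ≤ A * ((1 + B) * S) * Real.exp (m / C) := by
      have h7 : (P : ℝ) ≤ A * (1 + ℓ + Real.log (|(y : ℝ)| + ρ)) * Real.exp (m / C) := by
        linarith
      refine h7.trans ?_
      exact mul_le_mul_of_nonneg_right (mul_le_mul_of_nonneg_left h3 hA.le) (Real.exp_pos _).le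
    refine h6.trans ?_
    have h8 : 0 ≤ S * Real.exp (m / C) := by positivity
    have h9 : (A * (1 + B) + 1) * S * Real.exp (m / C) =
      A * ((1 + B) * S) * Real.exp (m / C) + S * Real.exp (m / C) := by ring
    rw [h9]
    linarith
  · have h1 : (P : ℝ) ≤ ℓ := by exact_mod_cast hℓP
    have h2 : (P : ℝ) ≤ S := by rw [hS]; linarith
    have h3 : S ≤ S * Real.exp (m / C) := le_mul_of_one_le_right hS0 hexp
    have h4 : S * Real.exp (m / C) ≤ (A * (1 + B) + 1) * S * Real.exp (m / C) := by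
      have h5 : 0 ≤ A * (1 + B) * (S * Real.exp (m / C)) := by positivity
      have h6 : (A * (1 + B) + 1) * S * Real.exp (m / C) =
        A * (1 + B) * (S * Real.exp (m / C)) + S * Real.exp (m / C) := by ring
      rw [h6]
      linarith
    linarith

/-- the generalised Collatz map with modulus `p`, multipliers `q ^ (ε i)` and offsets `r i` -/
def GT (p q : ℕ) (ε : ℤ → ℕ) (r : ℤ → ℤ) (x : ℤ) : ℤ :=
  ((q : ℤ) ^ ε (x % p) * x - r (x % p)) / p

lemma GT_rec {p q : ℕ} (hp : 0 < p) {ε : ℤ → ℕ} {r : ℤ → ℤ}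
    (h : ∀ i : ℤ, 0 ≤ i → i < p → (p : ℤ) ∣ (q : ℤ) ^ ε i * i - r i) (x : ℤ) :
    (p : ℤ) * GT p q ε r x = (q : ℤ) ^ ε (x % p) * x - r (x % p) := by
  have hp0 : (0 : ℤ) < p := by exact_mod_cast hp
  unfold GT
  apply Int.mul_ediv_cancel'
  have h1 := h (x % p) (Int.emod_nonneg _ hp0.ne') (Int.emod_lt_of_pos _ hp0)
  have h2 : (p : ℤ) ∣ (q : ℤ) ^ ε (x % p) * (x - x % p) :=
    Dvd.dvd.mul_left (Int.dvd_self_sub_emod) _
  have h3 := dvd_add h1 h2
  have h4 : (q : ℤ) ^ ε (x % p) * (x % p) - r (x % p) + (q : ℤ) ^ ε (x % p) * (x - x % p) =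
      (q : ℤ) ^ ε (x % p) * x - r (x % p) := by ring
  rwa [h4] at h3

/-- bounds for the exponents and for the offsets -/
lemma GT_bounds (p : ℕ) (hp : 0 < p) (ε : ℤ → ℕ) (r : ℤ → ℤ) :
    ∃ (E : ℕ) (ρ : ℝ), 1 ≤ ρ ∧ ∀ x : ℤ, ε (x % p) ≤ E ∧ |((-r (x % p) : ℤ) : ℝ)| ≤ ρ := by
  have hp0 : (0 : ℤ) < p := by exact_mod_cast hp
  refine ⟨∑ i ∈ Finset.Ico (0 : ℤ) p, ε i, 1 + ∑ i ∈ Finset.Ico (0 : ℤ) p, |(r i : ℝ)|, ?_, ?_⟩
  · have : 0 ≤ ∑ i ∈ Finset.Ico (0 : ℤ) p, |(r i : ℝ)| :=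
      Finset.sum_nonneg (fun i _ => abs_nonneg _)
    linarith
  · intro x
    have hmem : x % p ∈ Finset.Ico (0 : ℤ) p :=
      Finset.mem_Ico.2 ⟨Int.emod_nonneg _ hp0.ne', Int.emod_lt_of_pos _ hp0⟩
    constructor
    · exact Finset.single_le_sum (f := ε) (fun _ _ => Nat.zero_le _) hmem
    · push_cast
      rw [abs_neg]
      have := Finset.single_le_sum (f := fun i : ℤ => |(r i : ℝ)|) (fun _ _ => abs_nonneg _) hmem
      linarith

/-- **cycle theorem for generalised Collatz maps** -/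
theorem GT_cycle {p q : ℕ} (hp : p.Prime) (hq : q.Prime) (hpq : p ≠ q) (ε : ℤ → ℕ) (r : ℤ → ℤ)
    (h : ∀ i : ℤ, 0 ≤ i → i < p → (p : ℤ) ∣ (q : ℤ) ^ ε i * i - r i) (C : ℝ) (hC : 0 < C) :
    ∃ A : ℝ, 0 < A ∧ ∀ (x : ℤ) (P m ℓ : ℕ), 1 ≤ P → (GT p q ε r)^[P] x = x →
      (∀ j, 1 ≤ j → j < P → (GT p q ε r)^[j] x ≠ x) →
      DecW (fun j => (GT p q ε r)^[j] x % (p : ℤ)) ℓ m 0 P →
      (P : ℝ) ≤ A * (ℓ + (1 + Real.log P) ^ 2) * Real.exp (m / C) := by
  obtain ⟨E, ρ, hρ, hb⟩ := GT_bounds p hp.pos ε r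
  obtain ⟨A, hA, hc⟩ := gcycle (α := ℤ) hp hq hpq E C hC
  have hlogρ : 0 ≤ Real.log ρ := Real.log_nonneg hρ
  refine ⟨A * (1 + Real.log ρ), by positivity, fun x P m ℓ hP hper hprim hD => ?_⟩
  have h1 := hc (fun j => (GT p q ε r)^[j] x) (fun j => (GT p q ε r)^[j] x % (p : ℤ)) ε
    (fun i => -r i) ρ P m ℓ hρ hP
    (fun j => by
      refine ⟨?_, (hb _).1, (hb _).2⟩
      simp only [Function.iterate_succ_apply']
      rw [GT_rec hp.pos h]
      ring)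
    (fun j => iter_per hper j) (fun j => by simp only [iter_per hper])
    (fun j π h1 h2 => no_rep hP hper hprim h1 h2) hD
  have hPR : (1 : ℝ) ≤ P := by exact_mod_cast hP
  have hlogP : 0 ≤ Real.log P := Real.log_nonneg hPR
  have hℓ0 : (0 : ℝ) ≤ ℓ := Nat.cast_nonneg _
  have hsq : (1 : ℝ) ≤ (1 + Real.log P) ^ 2 := by nlinarith
  have h5 : ℓ + Real.log ρ + (1 + Real.log P) ^ 2 ≤
      (1 + Real.log ρ) * (ℓ + (1 + Real.log P) ^ 2) := by
    have h6 : Real.log ρ * 1 ≤ Real.log ρ * (ℓ + (1 + Real.log P) ^ 2) :=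
      mul_le_mul_of_nonneg_left (by linarith) hlogρ
    rw [add_mul, one_mul]
    linarith
  refine h1.trans ?_
  have h7 := mul_le_mul_of_nonneg_right (mul_le_mul_of_nonneg_left h5 hA.le)
    (Real.exp_pos (m / C)).le
  linarith

/-- **growth theorem for generalised Collatz maps** -/
theorem GT_growth {p q : ℕ} (hp : p.Prime) (hq : q.Prime) (hpq : p ≠ q) (ε : ℤ → ℕ) (r : ℤ → ℤ)
    (h : ∀ i : ℤ, 0 ≤ i → i < p → (p : ℤ) ∣ (q : ℤ) ^ ε i * i - r i) (s : ℕ) (η : ℝ)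
    (hη : 0 < η) :
    ∃ κ : ℝ, 0 < κ ∧ ∃ n0 : ℕ, ∀ (x : ℤ) (n ℓ : ℕ), n0 ≤ n → (ℓ : ℝ) ≤ κ * n →
      (1 + η) * Real.logb p |(x : ℝ)| ≤ n →
      DecW (fun j => (GT p q ε r)^[j] x % (p : ℤ)) ℓ s 0 n →
      ∃ j π, 1 ≤ π ∧ π ≤ ℓ ∧ j + π ≤ n ∧ (GT p q ε r)^[j + π] x = (GT p q ε r)^[j] x := by
  have hpF : Fact p.Prime := ⟨hp⟩
  have hqF : Fact q.Prime := ⟨hq⟩
  have hp1 : (1 : ℝ) < p := by exact_mod_cast hp.one_lt
  have hlp : 0 < Real.log p := Real.log_pos hp1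
  obtain ⟨E, ρ, hρ, hb⟩ := GT_bounds p hp.pos ε r
  obtain ⟨κ, hκ, n0, hg⟩ := growth2 (p := p) (q := q) hpq E s (η / (1 + η) * Real.log p)
    (by positivity)
  obtain ⟨n1, hn1⟩ := exists_nat_ge (Real.log ρ / κ)
  refine ⟨κ, hκ, max n0 n1, fun x n ℓ hn hℓ hx hD => ?_⟩
  obtain ⟨t, h0, hs, hmono, hper⟩ := hD
  have h1 := hg n ((le_max_left _ _).trans hn) ℓ hℓ (fun j => (GT p q ε r)^[j] x)
    (fun j => ε ((GT p q ε r)^[j] x % (p : ℤ))) (fun j => -r ((GT p q ε r)^[j] x % (p : ℤ))) t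
    (by omega) hmono
    (fun j _ _ => by
      refine ⟨?_, (hb _).1, (hb _).2.trans ?_⟩
      · simp only [Function.iterate_succ_apply']
        rw [GT_rec hp.pos h]
        ring
      · rw [← Real.log_le_iff_le_exp (by linarith)]
        have h1 : (n1 : ℝ) ≤ n := by exact_mod_cast (le_max_right _ _).trans hn
        have h2 := hn1.trans h1
        rw [div_le_iff₀ hκ] at h2
        linarith)
    (fun i hi => by
      obtain ⟨π, g1, g2, g3⟩ := hper i hi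
      refine ⟨π, g1, g2, fun j hj1 hj2 => ?_⟩
      have := g3 j hj1 hj2
      simp only at this
      simp only [this, and_self])
    (by
      rw [h0]
      simp only [Function.iterate_zero, id]
      rcases eq_or_ne x 0 with h0 | h0
      · rw [h0]
        simp only [Int.cast_zero, abs_zero]
        positivity
      · have hy0 : (0 : ℝ) < |(x : ℝ)| := by
          have : (x : ℝ) ≠ 0 := by exact_mod_cast h0
          positivity
        rw [← Real.exp_log (show (0 : ℝ) < (p : ℝ) ^ n by positivity), ← Real.exp_add,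
          ← Real.log_le_iff_le_exp hy0, Real.log_pow]
        rw [Real.logb, ← mul_div_assoc, div_le_iff₀ hlp] at hx
        have h1 : 0 < 1 + η := by linarith
        have h2 : Real.log |(x : ℝ)| ≤ n * Real.log p / (1 + η) := by
          rw [le_div_iff₀ h1]; linarith
        refine h2.trans (le_of_eq ?_)
        field_simp
        ring)
  obtain ⟨j, π, -, g2, g3, g4, g5⟩ := h1
  exact ⟨j, π, g2, g3, by omega, g5⟩

/-- finitely many points with `T^P x = x` -/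
theorem GT_finite {p q : ℕ} (hp : p.Prime) (hq : q.Prime) (hpq : p ≠ q) (ε : ℤ → ℕ) (r : ℤ → ℤ)
    (h : ∀ i : ℤ, 0 ≤ i → i < p → (p : ℤ) ∣ (q : ℤ) ^ ε i * i - r i) (P : ℕ) (hP : 1 ≤ P) :
    {x : ℤ | (GT p q ε r)^[P] x = x}.Finite := by
  obtain ⟨E, ρ, hρ, hb⟩ := GT_bounds p hp.pos ε r
  obtain ⟨M, hM⟩ := exists_nat_ge ((P : ℝ) * ρ * ((p : ℝ) * (q : ℝ) ^ E) ^ P)
  refine (Set.finite_Icc (-(M : ℤ)) M).subset fun x hx => ?_
  have hper : (GT p q ε r)^[P] x = x := hx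
  have h1 := rem_le hp.one_le hq.one_le (fun j => (GT p q ε r)^[j] x)
    (fun j => ε ((GT p q ε r)^[j] x % (p : ℤ))) (fun j => -r ((GT p q ε r)^[j] x % (p : ℤ)))
    ρ (by linarith) (Nat.zero_le P)
    (fun j _ _ => by
      refine ⟨?_, (hb _).1, (hb _).2⟩
      simp only [Function.iterate_succ_apply']
      rw [GT_rec hp.pos h]
      ring)
  simp only [Function.iterate_zero, id, Nat.sub_zero, hper] at h1
  set g := kap (fun j => ε ((GT p q ε r)^[j] x % (p : ℤ))) 0 P with hg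
  have h2 : |(p : ℤ) ^ P - (q : ℤ) ^ g| ≥ 1 := Int.one_le_abs (pow_ne_pow hp hq hpq hP)
  have h3 : (1 : ℝ) ≤ |(((p : ℤ) ^ P - (q : ℤ) ^ g : ℤ) : ℝ)| := by exact_mod_cast h2
  have h4 : |(x : ℝ)| ≤ |(((p : ℤ) ^ P * x - (q : ℤ) ^ g * x : ℤ) : ℝ)| := by
    rw [← sub_mul, Int.cast_mul, abs_mul]
    exact le_mul_of_one_le_left (abs_nonneg _) h3
  have h5 : |(x : ℝ)| ≤ M := (h4.trans h1).trans hM
  have h6 : |x| ≤ M := by exact_mod_cast h5
  rw [abs_le] at h6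
  exact ⟨h6.1, h6.2⟩

end Pool.Agent.H547R3.Sub
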